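import Mathlib
import Pool.Prelude.Def_F_8db9d53c

/-!
Meyniel for bounded-degree vertex-transitive expanders (team-store h86_transitive.md).
Basic definitions: closed neighbourhoods, the operator `F` (expectation `k` steps later) for a law
given by transition probabilities on histories (lists, head = current position), the value `U` of
the single cop, and elementary properties.
-/

set_option autoImplicit false

open N6ef48c04

namespace Pool.Agent.H86.MT

section Defs

variable {V : Type} [Fintype V] (G : SimpleGraph V)

open Classical in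
/-- closed neighbourhood -/
noncomputable def nb (y : V) : Finset V := Finset.univ.filter (fun z => Step G y z)

theorem mem_nb {y z : V} : z ∈ nb G y ↔ Step G y z := by simp [nb]

theorem nb_self (y : V) : y ∈ nb G y := (mem_nb G).2 (Or.inl rfl)

theorem mem_nb_comm {y z : V} : z ∈ nb G y ↔ y ∈ nb G z := by
  rw [mem_nb, mem_nb]
  constructor
  · rintro (h | h)
    · exact Or.inl h.symm
    · exact Or.inr h.symm
  · rintro (h | h)
    · exact Or.inl h.symm
    · exact Or.inr h.symm

/-- `star f y = max_{N[y]} f` -/
noncomputable def star (f : V → ℝ) (y : V) : ℝ := (nb G y).sup' ⟨y, nb_self G y⟩ f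

theorem le_star (f : V → ℝ) {y z : V} (h : z ∈ nb G y) : f z ≤ star G f y :=
  Finset.le_sup' f h

theorem le_star_self (f : V → ℝ) (y : V) : f y ≤ star G f y := le_star G f (nb_self G y)

theorem star_le (f : V → ℝ) {y : V} {a : ℝ} (h : ∀ z ∈ nb G y, f z ≤ a) : star G f y ≤ a :=
  Finset.sup'_le _ _ h

theorem exists_star (f : V → ℝ) (y : V) : ∃ z ∈ nb G y, star G f y = f z := by
  obtain ⟨z, hz, h⟩ := Finset.exists_mem_eq_sup' ⟨y, nb_self G y⟩ f
  exact ⟨z, hz, h⟩

theorem star_mono {f g : V → ℝ} (h : ∀ z, f z ≤ g z) (y : V) : star G f y ≤ star G g y :=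
  star_le G f fun z hz => (h z).trans (le_star G g hz)

end Defs

section Op

variable {V : Type} [Fintype V]

/-- expectation of `f` at the history `k` steps later -/
noncomputable def F (p : List V → V → ℝ) : ℕ → (List V → ℝ) → List V → ℝ
  | 0, f, h => f h
  | k + 1, f, h => ∑ x, p h x * F p k f (x :: h)

/-- expectation at length `l` -/
noncomputable def E (p : List V → V → ℝ) (l : ℕ) (f : List V → ℝ) : ℝ := F p l f []

/-- two independent histories, `k` steps later -/
noncomputable def FF (p : List V → V → ℝ) (k : ℕ) (f : List V → List V → ℝ) (h h' : List V) : ℝ :=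
  F p k (fun s => F p k (fun r => f s r) h') h

/-- expectation for two independent histories of lengths `l`, `l'` -/
noncomputable def EE (p : List V → V → ℝ) (l l' : ℕ) (f : List V → List V → ℝ) : ℝ :=
  E p l (fun s => E p l' (fun r => f s r))

/-- average over the vertices -/
noncomputable def avg (f : V → ℝ) : ℝ := (∑ y, f y) / Fintype.card V

/-- normalised `L^s` norm -/
noncomputable def nrm (s : ℝ) (f : V → ℝ) : ℝ := (avg (fun y => |f y| ^ s)) ^ (1 / s)

end Op

section Val

variable {V : Type} [Fintype V] (G : SimpleGraph V) (p : List V → V → ℝ)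

open Classical in
/-- value of the single cop at `y` with `k` steps to go -/
noncomputable def val : ℕ → List V → V → ℝ
  | 0, h, y => if h.head? = some y then 1 else 0
  | k + 1, h, y => ∑ x, p h x * star G (val k (x :: h)) y

variable (N : ℕ)

/-- value of the cop at `y` after the history `h`, horizon `N` (histories of length `N`) -/
noncomputable def U (h : List V) (y : V) : ℝ := val G p (N - h.length) h y

/-- average value -/
noncomputable def v (h : List V) : ℝ := avg (U G p N h)

/-- centred value -/
noncomputable def phi (h : List V) (y : V) : ℝ := U G p N h y - v G p N h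

/-- compensator -/
noncomputable def cc (h : List V) : ℝ := v G p N h - F p 1 (v G p N) h

/-- positive and negative part -/
noncomputable def php (h : List V) (y : V) : ℝ := max (phi G p N h y) 0

noncomputable def phm (h : List V) (y : V) : ℝ := max (-phi G p N h y) 0

/-- law of a walk -/
structure IsLaw : Prop where
  nonneg : ∀ h x, 0 ≤ p h x
  sum_one : ∀ h, ∑ x, p h x = 1
  supp : ∀ x h x', p (x :: h) x' ≠ 0 → Step G x x'

/-- the law is invariant under the automorphisms -/
def IsInv : Prop := ∀ (g : G ≃g G) (h : List V) (x : V), p (h.map g) (g x) = p h x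

/-- vertex-transitive -/
def VT : Prop := ∀ x y : V, ∃ g : G ≃g G, g x = y

open Classical in
/-- vertex expansion -/
def Expd (α : ℝ) : Prop :=
  ∀ A : Finset V, 2 * A.card ≤ Fintype.card V →
    (1 + α) * (A.card : ℝ) ≤ ((A.biUnion (nb G)).card : ℝ)

end Val

/-! ### elementary properties of the operators -/

section OpLemmas

variable {V : Type} [Fintype V] {p : List V → V → ℝ}

theorem F_zero (f : List V → ℝ) (h : List V) : F p 0 f h = f h := rfl

theorem F_succ (k : ℕ) (f : List V → ℝ) (h : List V) :
    F p (k + 1) f h = ∑ x, p h x * F p k f (x :: h) := rfl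

theorem F_one (f : List V → ℝ) (h : List V) : F p 1 f h = ∑ x, p h x * f (x :: h) := rfl

theorem F_comp (k m : ℕ) (f : List V → ℝ) (h : List V) :
    F p (k + m) f h = F p k (F p m f) h := by
  induction k generalizing h with
  | zero => rw [Nat.zero_add]; rfl
  | succ k ih =>
    rw [show k + 1 + m = (k + m) + 1 by ring, F_succ, F_succ]
    exact Finset.sum_congr rfl fun x _ => by rw [ih]

theorem E_comp (l m : ℕ) (f : List V → ℝ) : E p (l + m) f = E p l (F p m f) := F_comp l m f []

theorem F_add (k : ℕ) (f g : List V → ℝ) (h : List V) :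
    F p k (fun s => f s + g s) h = F p k f h + F p k g h := by
  induction k generalizing h with
  | zero => rfl
  | succ k ih =>
    rw [F_succ, F_succ, F_succ, ← Finset.sum_add_distrib]
    exact Finset.sum_congr rfl fun x _ => by rw [ih]; ring

theorem F_mul (k : ℕ) (a : ℝ) (f : List V → ℝ) (h : List V) :
    F p k (fun s => a * f s) h = a * F p k f h := by
  induction k generalizing h with
  | zero => rfl
  | succ k ih =>
    rw [F_succ, F_succ, Finset.mul_sum]
    exact Finset.sum_congr rfl fun x _ => by rw [ih]; ring

theorem F_mul_right (k : ℕ) (a : ℝ) (f : List V → ℝ) (h : List V) :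
    F p k (fun s => f s * a) h = F p k f h * a := by
  have := F_mul (p := p) k a f h
  rw [mul_comm, ← this]
  congr 1
  funext s
  ring

theorem F_neg (k : ℕ) (f : List V → ℝ) (h : List V) :
    F p k (fun s => - f s) h = - F p k f h := by
  have := F_mul (p := p) k (-1) f h
  simpa using this

theorem F_sub (k : ℕ) (f g : List V → ℝ) (h : List V) :
    F p k (fun s => f s - g s) h = F p k f h - F p k g h := by
  have := F_add (p := p) k f (fun s => - g s) h
  rw [F_neg] at this
  simpa [sub_eq_add_neg] using this

theorem F_sum {ι : Type*} (S : Finset ι) (k : ℕ) (f : ι → List V → ℝ) (h : List V) :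
    F p k (fun s => ∑ i ∈ S, f i s) h = ∑ i ∈ S, F p k (f i) h := by
  classical
  induction S using Finset.induction_on with
  | empty =>
    simp only [Finset.sum_empty]
    have := F_mul (p := p) k 0 (fun _ => 0) h
    simpa using this
  | insert a S ha ih =>
    simp only [Finset.sum_insert ha]
    rw [F_add, ih]

variable {G : SimpleGraph V}

/-- monotonicity, the inequality being needed only for the extensions of `h` by `k` letters -/
theorem F_mono_of (hp : ∀ h x, 0 ≤ p h x) {k : ℕ} {f g : List V → ℝ} {h : List V}
    (hfg : ∀ s : List V, s.length = h.length + k → f s ≤ g s) : F p k f h ≤ F p k g h := by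
  induction k generalizing h with
  | zero => exact hfg h rfl
  | succ k ih =>
    rw [F_succ, F_succ]
    refine Finset.sum_le_sum fun x _ => mul_le_mul_of_nonneg_left (ih fun s hs => hfg s ?_) (hp h x)
    rw [hs, List.length_cons]
    ring

theorem F_mono (hp : ∀ h x, 0 ≤ p h x) {k : ℕ} {f g : List V → ℝ} {h : List V}
    (hfg : ∀ s : List V, f s ≤ g s) : F p k f h ≤ F p k g h :=
  F_mono_of hp fun s _ => hfg s

theorem F_congr_of {k : ℕ} {f g : List V → ℝ} {h : List V}
    (hfg : ∀ s : List V, s.length = h.length + k → f s = g s) : F p k f h = F p k g h := by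
  induction k generalizing h with
  | zero => exact hfg h rfl
  | succ k ih =>
    rw [F_succ, F_succ]
    refine Finset.sum_congr rfl fun x _ => ?_
    rw [ih fun s hs => hfg s ?_]
    rw [hs, List.length_cons]
    ring

theorem F_nonneg (hp : ∀ h x, 0 ≤ p h x) {k : ℕ} {f : List V → ℝ} {h : List V}
    (hf : ∀ s : List V, s.length = h.length + k → 0 ≤ f s) : 0 ≤ F p k f h := by
  induction k generalizing h with
  | zero => exact hf h rfl
  | succ k ih =>
    rw [F_succ]
    refine Finset.sum_nonneg fun x _ => mul_nonneg (hp h x) (ih fun s hs => hf s ?_)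
    rw [hs, List.length_cons]
    ring

theorem F_const (hp : ∀ h, ∑ x, p h x = 1) (k : ℕ) (a : ℝ) (h : List V) :
    F p k (fun _ => a) h = a := by
  induction k generalizing h with
  | zero => rfl
  | succ k ih =>
    rw [F_succ]
    simp only [ih]
    rw [← Finset.sum_mul, hp, one_mul]

/-- one step: the inequality is needed only along the steps of positive probability -/
theorem F_one_mono_supp (hL : IsLaw G p) {f g : List V → ℝ} {x : V} {h : List V}
    (hfg : ∀ x', Step G x x' → f (x' :: x :: h) ≤ g (x' :: x :: h)) :
    F p 1 f (x :: h) ≤ F p 1 g (x :: h) := by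
  rw [F_one, F_one]
  refine Finset.sum_le_sum fun x' _ => ?_
  by_cases h0 : p (x :: h) x' = 0
  · rw [h0, zero_mul, zero_mul]
  · exact mul_le_mul_of_nonneg_left (hfg x' (hL.supp x h x' h0)) (hL.nonneg _ _)

end OpLemmas

end Pool.Agent.H86.MT
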