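import Pool.Agent.H86.MT.Defs

/-!
MT-CLU. Clusters of coincidences (section 5 of h86_transitive.md).

* `age_le`, `age_lt_of_good`, `age_drop`, `age_of_drop`: list combinatorics, from the recursion
  (`age` of `(x :: s, y :: r)` is `age s r + 1` if this is `< D`, else `0` at a good pair, else `D`).
  `age_drop`: induction on `i` (or on the lists): `age (x :: s) (y :: r) = i` with `0 < i < D` forces
  `age s r = i - 1`; with `i = 0` it forces `gd`. `age_of_drop`: conversely ages increase by one as long
  as they are `< D`.
-/

set_option autoImplicit false
set_option linter.unusedSectionVars false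

open N6ef48c04

namespace Pool.Agent.H86.MT

variable {V : Type} [Fintype V] [Nonempty V] {G : SimpleGraph V} {p : List V → V → ℝ} {N : ℕ}

theorem age_le (D : ℕ) (gd : List V → List V → Prop) (s r : List V) : age D gd s r ≤ D := by
  cases s with
  | nil => simp [age]
  | cons x s =>
    cases r with
    | nil => simp [age]
    | cons y r =>
      unfold age
      split_ifs with h1 h2
      · exact h1.le
      · exact Nat.zero_le _
      · exact le_rfl

theorem age_lt_of_good {D : ℕ} (hD : 1 ≤ D) {gd : List V → List V → Prop} {x y : V} {s r : List V}
    (h : gd (x :: s) (y :: r)) : age D gd (x :: s) (y :: r) < D := by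
  unfold age
  split_ifs with h1
  · exact h1
  · exact hD

/-- the start of the present cluster -/
theorem age_drop {D : ℕ} {gd : List V → List V → Prop} {s r : List V} {i : ℕ} (hi : i < D)
    (h : age D gd s r = i) :
    i < s.length ∧ i < r.length ∧ age D gd (s.drop i) (r.drop i) = 0 ∧ gd (s.drop i) (r.drop i) := by
  induction s generalizing r i with
  | nil => simp only [age] at h; omega
  | cons x s ih =>
    cases r with
    | nil => simp only [age] at h; omega
    | cons y r =>
      have h0 := h
      unfold age at h
      split_ifs at h with h1 h2
      · obtain ⟨j, rfl⟩ : ∃ j, i = j + 1 := ⟨_, h.symm⟩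
        obtain ⟨h3, h4, h5, h6⟩ := ih (r := r) (i := j) (by omega) (by omega)
        refine ⟨?_, ?_, ?_, ?_⟩
        · simp only [List.length_cons]; omega
        · simp only [List.length_cons]; omega
        · simpa using h5
        · simpa using h6
      · subst h
        refine ⟨?_, ?_, ?_, ?_⟩
        · simp
        · simp
        · simpa using h0
        · simpa using h2
      · omega

theorem age_of_drop {D : ℕ} {gd : List V → List V → Prop} {s r : List V} {i : ℕ} (hi : i < D)
    (hs : i < s.length) (hr : i < r.length) (h : age D gd (s.drop i) (r.drop i) = 0) :
    age D gd s r = i := by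
  induction i generalizing s r with
  | zero => simpa using h
  | succ i ih =>
    cases s with
    | nil => simp at hs
    | cons x s =>
      cases r with
      | nil => simp at hr
      | cons y r =>
        simp only [List.length_cons] at hs hr
        have h1 := ih (s := s) (r := r) (by omega) (by omega) (by omega) (by simpa using h)
        unfold age
        rw [h1, if_pos hi]

end Pool.Agent.H86.MT
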