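import Pool.Agent.H86.MT.Defs

/-!
MT-CLU. Clusters of coincidences (section 5 of h86_transitive.md).

* `FF_comp`: `FF p (i + j) f h h' = FF p i (FF p j f) h h'`: `F_comp` twice and `F_swap` (the operators in
  the two variables commute); `FF_mono_of`: `F_mono_of` twice.
-/

set_option autoImplicit false
set_option linter.unusedSectionVars false

open N6ef48c04

namespace Pool.Agent.H86.MT

variable {V : Type} [Fintype V] [Nonempty V] {G : SimpleGraph V} {p : List V → V → ℝ} {N : ℕ}

theorem F_swap (k m : ℕ) (f : List V → List V → ℝ) (h h' : List V) :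
    F p k (fun s => F p m (fun r => f s r) h') h = F p m (fun r => F p k (fun s => f s r) h) h' := by
  induction k generalizing h with
  | zero => rfl
  | succ k ih =>
    rw [F_succ]
    simp only [F_succ]
    rw [F_sum]
    refine Finset.sum_congr rfl fun x _ => ?_
    rw [ih, F_mul]

theorem FF_comp (i j : ℕ) (f : List V → List V → ℝ) (h h' : List V) :
    FF p (i + j) f h h' = FF p i (FF p j f) h h' := by
  unfold FF
  rw [F_comp]
  congr 1
  funext s0
  have : (fun s => F p (i + j) (fun r => f s r) h') =
      fun s => F p i (fun r0 => F p j (fun r => f s r) r0) h' := by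
    funext s
    exact F_comp i j (fun r => f s r) h'
  rw [this]
  exact F_swap j i (fun s r0 => F p j (fun r => f s r) r0) s0 h'

theorem FF_mono_of (hp : ∀ h x, 0 ≤ p h x) {k : ℕ} {f g : List V → List V → ℝ} {h h' : List V}
    (hfg : ∀ s r : List V, s.length = h.length + k → r.length = h'.length + k → f s r ≤ g s r) :
    FF p k f h h' ≤ FF p k g h h' :=
  F_mono_of hp fun s hs => F_mono_of hp fun r hr => hfg s r hs hr

private theorem F_congr_app {k : ℕ} {f g : List V → ℝ} {h : List V}
    (hfg : ∀ t : List V, t.length = k → f (t ++ h) = g (t ++ h)) : F p k f h = F p k g h := by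
  induction k generalizing h with
  | zero => exact hfg [] rfl
  | succ k ih =>
    rw [F_succ, F_succ]
    refine Finset.sum_congr rfl fun x _ => ?_
    rw [ih fun t ht => ?_]
    have := hfg (t ++ [x]) (by simp [ht])
    simpa using this

private theorem F_weight (i : ℕ) (w f : List V → ℝ) (h : List V) :
    F p i (fun s => w (s.drop i) * f s) h = w h * F p i f h := by
  rw [← F_mul]
  refine F_congr_app fun t ht => ?_
  have : (t ++ h).drop i = h := by rw [← ht]; exact List.drop_left
  rw [this]

/-- the past of the pair is known: weights depending on the pair `i` steps ago come out -/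
theorem EE_FF_weight (l l' i : ℕ) (w f : List V → List V → ℝ) :
    EE p (l + i) (l' + i) (fun s r => w (s.drop i) (r.drop i) * f s r) =
      EE p l l' (fun s r => w s r * FF p i f s r) := by
  unfold EE
  rw [E_comp]
  congr 1
  funext s0
  have h1 : (fun s => E p (l' + i) (fun r => w (s.drop i) (r.drop i) * f s r)) =
      fun s => E p l' (fun r0 => w (s.drop i) r0 * F p i (fun r => f s r) r0) := by
    funext s
    rw [E_comp]
    congr 1
    funext r0
    exact F_weight i (w (s.drop i)) (fun r => f s r) r0
  rw [h1]
  unfold E
  rw [F_swap]
  congr 1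
  funext r0
  exact F_weight i (fun t => w t r0) (fun s => F p i (fun r => f s r) r0) s0

end Pool.Agent.H86.MT
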