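import Pool.Agent.H86.MT.PairA
import Pool.Agent.H86.MT.ClB

/-!
MT-CLU. Clusters of coincidences (section 5 of h86_transitive.md).

* `tele`: `Phi h h' - FF D Phi h h' = ∑_{i<D} FF i (Phi - FF 1 Phi) h h' ≤ ∑_{i<D} FF i Loss h h'`.
* `end_bound`: for lists `s, r` extending `h, h'` by `D` letters:
  `Phi s r ≤ php s (hd r) * php r (hd s) + phm s (hd r) * phm r (hd s) ≤ U s (hd r) + v s`
  (`php ≤ U`, `php ≤ 1`, `phm ≤ v`, `phm ≤ 1`), and for fixed `z = hd r`:
  `F D (fun s => U s z + v s) h ≤ 2 v h ≤ 1/4` (`F_U_le_v`, `F_v_le`).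
* `start_value`: at a good pair `phi h (hd h') = 1 - v h ≥ 7/8` (`U_self`, heads equal).
* `start_loss`: `(1/2) ≤ ∑_{i<D} FF i Loss h h'` at `age = 0`.
-/

set_option autoImplicit false
set_option linter.unusedSectionVars false

open N6ef48c04

namespace Pool.Agent.H86.MT

variable {V : Type} [Fintype V] [Nonempty V] {G : SimpleGraph V} {p : List V → V → ℝ} {N : ℕ}

private theorem FF_sub' (k : ℕ) (f g : List V → List V → ℝ) (h h' : List V) :
    FF p k (fun s r => f s r - g s r) h h' = FF p k f h h' - FF p k g h h' := by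
  unfold FF
  rw [← F_sub]
  congr 1
  funext s
  exact F_sub k (fun r => f s r) (fun r => g s r) h'

theorem tele (hL : IsLaw G p) {D : ℕ} {h h' : List V} (h0 : h ≠ []) (h0' : h' ≠ [])
    (hh : h.length + D ≤ N) (hh' : h'.length + D ≤ N) :
    Phi G p N h h' - FF p D (Phi G p N) h h' ≤ ∑ i ∈ Finset.range D, FF p i (Loss G p N) h h' := by
  induction D with
  | zero =>
    have : FF p 0 (Phi G p N) h h' = Phi G p N h h' := rfl
    rw [this]
    simp
  | succ D ih =>
    have ih' := ih (by omega) (by omega)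
    rw [Finset.sum_range_succ, FF_comp D 1]
    have key : FF p D (Phi G p N) h h' - FF p D (FF p 1 (Phi G p N)) h h' ≤
        FF p D (Loss G p N) h h' := by
      rw [← FF_sub']
      refine FF_mono_of hL.nonneg fun s r hs hr => ?_
      have hpos : 0 < h.length := List.length_pos_iff.2 h0
      have hpos' : 0 < h'.length := List.length_pos_iff.2 h0'
      cases s with
      | nil => simp only [List.length_nil] at hs; omega
      | cons x s =>
        cases r with
        | nil => simp only [List.length_nil] at hr; omega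
        | cons y r => exact Phi_sub_le hL (by omega) (by omega)
    linarith

theorem end_bound (hL : IsLaw G p) {D : ℕ} (hD : ∀ y z, Near G D y z) {h h' : List V}
    (hh : h.length + D ≤ N) (hh' : h'.length + D ≤ N) (hv : v G p N h ≤ 1 / 8) :
    FF p D (Phi G p N) h h' ≤ 1 / 4 := by
  have key : ∀ s r : List V, Phi G p N s r ≤ U G p N s (hd r) + v G p N s := by
    intro s r
    unfold Phi
    rw [phi_eq s, phi_eq r]
    have a1 := php_nonneg (G := G) (p := p) (N := N) s (hd r)
    have a2 := phm_nonneg (G := G) (p := p) (N := N) s (hd r)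
    have b1 := php_nonneg (G := G) (p := p) (N := N) r (hd s)
    have b2 := phm_nonneg (G := G) (p := p) (N := N) r (hd s)
    have c1 := php_le_U (N := N) hL s (hd r)
    have c2 := phm_le_v (N := N) hL s (hd r)
    have d1 := php_le_one (N := N) hL r (hd s)
    have d2 := phm_le_one (N := N) hL r (hd s)
    nlinarith [mul_nonneg a1 (sub_nonneg.2 d1), mul_nonneg a2 (sub_nonneg.2 d2),
      mul_nonneg a1 b2, mul_nonneg a2 b1]
  have hF : ∀ r : List V, F p D (fun s => Phi G p N s r) h ≤ 1 / 4 := by
    intro r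
    calc F p D (fun s => Phi G p N s r) h
        ≤ F p D (fun s => U G p N s (hd r) + v G p N s) h := F_mono hL.nonneg fun s => key s r
      _ = F p D (fun s => U G p N s (hd r)) h + F p D (v G p N) h := F_add _ _ _ _
      _ ≤ v G p N h + v G p N h := add_le_add (F_U_le_v hL hD hh _) (F_v_le hL D hh)
      _ ≤ 1 / 4 := by linarith
  unfold FF
  rw [F_swap]
  calc F p D (fun r => F p D (fun s => Phi G p N s r) h) h' ≤ F p D (fun _ => (1 / 4 : ℝ)) h' :=
        F_mono hL.nonneg hF
    _ = 1 / 4 := F_const hL.sum_one _ _ _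

theorem start_value (hL : IsLaw G p) {h h' : List V} (h0 : h ≠ []) (h0' : h' ≠ [])
    (hg : good G p N h h') : 3 / 4 ≤ Phi G p N h h' := by
  obtain ⟨h1, h2, h3⟩ := hg
  have e1 : U G p N h (hd h') = 1 := by
    rw [← h1]
    cases h with
    | nil => exact absurd rfl h0
    | cons x s => exact U_self hL x s
  have e2 : U G p N h' (hd h) = 1 := by
    rw [h1]
    cases h' with
    | nil => exact absurd rfl h0'
    | cons x s => exact U_self hL x s
  unfold Phi phi
  rw [e1, e2]
  nlinarith [mul_nonneg (sub_nonneg.2 h2) (sub_nonneg.2 h3)]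

theorem start_loss (hL : IsLaw G p) {D : ℕ} (hD : ∀ y z, Near G D y z) {h h' : List V}
    (h0 : h ≠ []) (h0' : h' ≠ []) (hh : h.length + D ≤ N) (hh' : h'.length + D ≤ N)
    (hg : good G p N h h') : 1 / 2 ≤ ∑ i ∈ Finset.range D, FF p i (Loss G p N) h h' := by
  have t1 := tele hL h0 h0' hh hh'
  have t2 := end_bound hL hD hh hh' hg.2.1
  have t3 := start_value hL h0 h0' hg
  linarith

end Pool.Agent.H86.MT
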