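import Pool.Agent.H86.MT.ClC
import Pool.Agent.H86.MT.ClA

/-!
MT-CLU. Clusters of coincidences (section 5 of h86_transitive.md).

* `clusters`: for each `(l, l')` in the square: `(1/2) EE l l' 1[age=0] ≤ ∑_{i<D} EE l l' (1[age=0] FF i Loss)
  = ∑_{i<D} EE (l+i) (l'+i) (1[age = i] Loss)` (`EE_FF_weight` with `age_drop`, `age_of_drop`), sum over `l, l'`, shift the
  summation indices and use `∑_{i<D} 1[age = i] ≤ 1`.
-/

set_option autoImplicit false
set_option linter.unusedSectionVars false

open N6ef48c04

namespace Pool.Agent.H86.MT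

variable {V : Type} [Fintype V] [Nonempty V] {G : SimpleGraph V} {p : List V → V → ℝ} {N : ℕ}

theorem ClD_EE_mono (hp : ∀ h x, 0 ≤ p h x) {l l' : ℕ} {f g : List V → List V → ℝ}
    (hfg : ∀ s r : List V, s.length = l → r.length = l' → f s r ≤ g s r) :
    EE p l l' f ≤ EE p l l' g := by
  unfold EE E
  refine F_mono_of hp fun s hs => F_mono_of hp fun r hr => hfg s r ?_ ?_
  · simpa using hs
  · simpa using hr

theorem ClD_EE_congr {l l' : ℕ} {f g : List V → List V → ℝ}
    (hfg : ∀ s r : List V, s.length = l → r.length = l' → f s r = g s r) :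
    EE p l l' f = EE p l l' g := by
  unfold EE E
  refine F_congr_of fun s hs => F_congr_of fun r hr => hfg s r ?_ ?_
  · simpa using hs
  · simpa using hr

theorem ClD_EE_nonneg (hp : ∀ h x, 0 ≤ p h x) {l l' : ℕ} {f : List V → List V → ℝ}
    (hf : ∀ s r : List V, s.length = l → r.length = l' → 0 ≤ f s r) :
    0 ≤ EE p l l' f := by
  unfold EE E
  refine F_nonneg hp fun s hs => F_nonneg hp fun r hr => hf s r ?_ ?_
  · simpa using hs
  · simpa using hr

theorem ClD_EE_sum {ι : Type*} (S : Finset ι) (l l' : ℕ) (f : ι → List V → List V → ℝ) :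
    EE p l l' (fun s r => ∑ i ∈ S, f i s r) = ∑ i ∈ S, EE p l l' (f i) := by
  unfold EE E
  rw [← F_sum]
  congr 1
  funext s
  exact F_sum S l' (fun i r => f i s r) []

theorem ClD_EE_mul (l l' : ℕ) (a : ℝ) (f : List V → List V → ℝ) :
    EE p l l' (fun s r => a * f s r) = a * EE p l l' f := by
  unfold EE E
  rw [← F_mul]
  congr 1
  funext s
  exact F_mul l' a (fun r => f s r) []

/-- shifting a square sum into a larger square -/
theorem ClD_shift {a b D i : ℕ} (hi : i < D) {g : ℕ → ℕ → ℝ}
    (hg : ∀ m ∈ Finset.Ico a b, ∀ m' ∈ Finset.Ico a b, 0 ≤ g m m') :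
    ∑ l ∈ Finset.Ico a (b + 1 - D), ∑ l' ∈ Finset.Ico a (b + 1 - D), g (l + i) (l' + i) ≤
      ∑ m ∈ Finset.Ico a b, ∑ m' ∈ Finset.Ico a b, g m m' := by
  have hsub : Finset.Ico (a + i) (b + 1 - D + i) ⊆ Finset.Ico a b ∨ b + 1 ≤ a + D := by
    by_cases h : b + 1 ≤ a + D
    · exact Or.inr h
    · left
      intro x hx
      rw [Finset.mem_Ico] at hx ⊢
      omega
  rcases hsub with hsub | hsub
  · have h1 : ∑ l ∈ Finset.Ico a (b + 1 - D), ∑ l' ∈ Finset.Ico a (b + 1 - D), g (l + i) (l' + i) =
        ∑ m ∈ Finset.Ico (a + i) (b + 1 - D + i), ∑ m' ∈ Finset.Ico (a + i) (b + 1 - D + i), g m m' := by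
      rw [← Finset.sum_Ico_add' (fun m => ∑ m' ∈ Finset.Ico (a + i) (b + 1 - D + i), g m m')]
      refine Finset.sum_congr rfl fun l _ => ?_
      rw [← Finset.sum_Ico_add' (fun m' => g (l + i) m')]
    rw [h1]
    calc ∑ m ∈ Finset.Ico (a + i) (b + 1 - D + i), ∑ m' ∈ Finset.Ico (a + i) (b + 1 - D + i), g m m'
        ≤ ∑ m ∈ Finset.Ico (a + i) (b + 1 - D + i), ∑ m' ∈ Finset.Ico a b, g m m' :=
          Finset.sum_le_sum fun m hm => Finset.sum_le_sum_of_subset_of_nonneg hsub
            fun m' hm' _ => hg m (hsub hm) m' hm'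
      _ ≤ _ := Finset.sum_le_sum_of_subset_of_nonneg hsub
            fun m hm _ => Finset.sum_nonneg fun m' hm' => hg m hm m' hm'
  · have : Finset.Ico a (b + 1 - D) = ∅ := by
      apply Finset.Ico_eq_empty
      omega
    rw [this, Finset.sum_empty]
    exact Finset.sum_nonneg fun m hm => Finset.sum_nonneg fun m' hm' => hg m hm m' hm'

open Classical in
/-- (5.2) -/
theorem clusters (hL : IsLaw G p) {D : ℕ} (hD1 : 1 ≤ D) (hD : ∀ y z, Near G D y z) {a b : ℕ}
    (ha : 1 ≤ a) (hb : b ≤ N) :
    ∑ l ∈ Finset.Ico a (b + 1 - D), ∑ l' ∈ Finset.Ico a (b + 1 - D),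
        EE p l l' (fun s r => if age D (good G p N) s r = 0 then 1 else 0) ≤
      2 * ∑ l ∈ Finset.Ico a b, ∑ l' ∈ Finset.Ico a b, EE p l l' (Loss G p N) := by
  -- nonnegativity of the loss at the lengths which occur
  have hLoss : ∀ m ∈ Finset.Ico a b, ∀ m' ∈ Finset.Ico a b, ∀ s r : List V, s.length = m →
      r.length = m' → 0 ≤ Loss G p N s r := by
    intro m hm m' hm' s r hs hr
    rw [Finset.mem_Ico] at hm hm'
    cases s with
    | nil => simp at hs; omega
    | cons x s =>
      cases r with
      | nil => simp at hr; omega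
      | cons y r => exact Loss_nonneg hL (by omega) (by omega)
  -- one pair of lengths
  have key : ∀ l ∈ Finset.Ico a (b + 1 - D), ∀ l' ∈ Finset.Ico a (b + 1 - D),
      EE p l l' (fun s r => if age D (good G p N) s r = 0 then 1 else 0) ≤
        2 * ∑ i ∈ Finset.range D, EE p (l + i) (l' + i) (fun s r =>
          (if age D (good G p N) s r = i then (1 : ℝ) else 0) * Loss G p N s r) := by
    intro l hl l' hl'
    rw [Finset.mem_Ico] at hl hl'
    have e1 : ∀ i ∈ Finset.range D, EE p (l + i) (l' + i) (fun s r =>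
          (if age D (good G p N) s r = i then (1 : ℝ) else 0) * Loss G p N s r) =
        EE p l l' (fun s r => (if age D (good G p N) s r = 0 then (1 : ℝ) else 0) *
          FF p i (Loss G p N) s r) := by
      intro i hi
      rw [Finset.mem_range] at hi
      rw [← EE_FF_weight l l' i (fun s r => if age D (good G p N) s r = 0 then (1 : ℝ) else 0)]
      refine ClD_EE_congr fun s r hs hr => ?_
      have : (age D (good G p N) s r = i) ↔ (age D (good G p N) (s.drop i) (r.drop i) = 0) := by
        constructor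
        · intro h
          exact (age_drop hi h).2.2.1
        · intro h
          exact age_of_drop hi (by omega) (by omega) h
      by_cases h : age D (good G p N) s r = i
      · rw [if_pos h, if_pos (this.1 h)]
      · rw [if_neg h, if_neg fun h' => h (this.2 h')]
    rw [Finset.sum_congr rfl e1, ← ClD_EE_sum, ← ClD_EE_mul]
    refine ClD_EE_mono hL.nonneg fun s r hs hr => ?_
    rw [← Finset.mul_sum]
    by_cases h : age D (good G p N) s r = 0
    · rw [if_pos h, one_mul]
      have hg := (age_drop (s := s) (r := r) (i := 0) (by omega) h).2.2.2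
      rw [List.drop_zero, List.drop_zero] at hg
      have hs0 : s ≠ [] := by
        rintro rfl
        simp at hs
        omega
      have hr0 : r ≠ [] := by
        rintro rfl
        simp at hr
        omega
      have := start_loss hL hD hs0 hr0 (by omega) (by omega) hg
      linarith
    · rw [if_neg h]
      simp
  calc ∑ l ∈ Finset.Ico a (b + 1 - D), ∑ l' ∈ Finset.Ico a (b + 1 - D),
        EE p l l' (fun s r => if age D (good G p N) s r = 0 then 1 else 0)
      ≤ ∑ l ∈ Finset.Ico a (b + 1 - D), ∑ l' ∈ Finset.Ico a (b + 1 - D),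
        2 * ∑ i ∈ Finset.range D, EE p (l + i) (l' + i) (fun s r =>
          (if age D (good G p N) s r = i then (1 : ℝ) else 0) * Loss G p N s r) :=
        Finset.sum_le_sum fun l hl => Finset.sum_le_sum fun l' hl' => key l hl l' hl'
    _ = 2 * ∑ i ∈ Finset.range D, ∑ l ∈ Finset.Ico a (b + 1 - D), ∑ l' ∈ Finset.Ico a (b + 1 - D),
        EE p (l + i) (l' + i) (fun s r =>
          (if age D (good G p N) s r = i then (1 : ℝ) else 0) * Loss G p N s r) := by
        rw [Finset.sum_comm (s := Finset.range D), Finset.mul_sum]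
        refine Finset.sum_congr rfl fun l _ => ?_
        rw [Finset.sum_comm (s := Finset.range D), Finset.mul_sum]
    _ ≤ 2 * ∑ i ∈ Finset.range D, ∑ m ∈ Finset.Ico a b, ∑ m' ∈ Finset.Ico a b,
        EE p m m' (fun s r =>
          (if age D (good G p N) s r = i then (1 : ℝ) else 0) * Loss G p N s r) := by
        refine mul_le_mul_of_nonneg_left (Finset.sum_le_sum fun i hi => ?_) (by norm_num)
        rw [Finset.mem_range] at hi
        refine ClD_shift hi (g := fun m m' => EE p m m' (fun s r =>
          (if age D (good G p N) s r = i then (1 : ℝ) else 0) * Loss G p N s r)) ?_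
        intro m hm m' hm'
        refine ClD_EE_nonneg hL.nonneg fun s r hs hr => mul_nonneg ?_ (hLoss m hm m' hm' s r hs hr)
        split_ifs <;> norm_num
    _ = 2 * ∑ m ∈ Finset.Ico a b, ∑ m' ∈ Finset.Ico a b, EE p m m' (fun s r =>
          ∑ i ∈ Finset.range D,
            (if age D (good G p N) s r = i then (1 : ℝ) else 0) * Loss G p N s r) := by
        rw [Finset.sum_comm]
        congr 1
        refine Finset.sum_congr rfl fun m _ => ?_
        rw [Finset.sum_comm]
        refine Finset.sum_congr rfl fun m' _ => ?_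
        rw [ClD_EE_sum]
    _ ≤ _ := by
        refine mul_le_mul_of_nonneg_left (Finset.sum_le_sum fun m hm => Finset.sum_le_sum
          fun m' hm' => ?_) (by norm_num)
        refine ClD_EE_mono hL.nonneg fun s r hs hr => ?_
        have h0 := hLoss m hm m' hm' s r hs hr
        rw [← Finset.sum_mul]
        have h1 : ∑ i ∈ Finset.range D, (if age D (good G p N) s r = i then (1 : ℝ) else 0) ≤ 1 := by
          rw [Finset.sum_ite_eq]
          split_ifs <;> norm_num
        calc _ ≤ 1 * Loss G p N s r := mul_le_mul_of_nonneg_right h1 h0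
          _ = _ := one_mul _

end Pool.Agent.H86.MT
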