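import Pool.Agent.H86.MT.LpC

/-!
MT-CORE. Assembly of the argument for one graph (h86_transitive.md, sections 4 - 7).

* `E_drop`: `E (l + j) (fun s => w (s.drop j)) = E l w` (`E_comp`, `F_const`, the `j`-step extensions of
  `h` drop to `h`).
* `exists_times`: by `sum_phm`, `sum_php`, `avg |phi| = avg php + avg phm ≤ nrm q php + nrm P phm`
  (`nrm_one`, `nrm_le_nrm`), so `∑_{l ≤ N} E l (avg |phi|) ≤ C2 := cp + cm`; pigeonhole in `[1, M]` and `[3M, 4M]`.
-/

set_option autoImplicit false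
set_option linter.unusedSectionVars false

open N6ef48c04

namespace Pool.Agent.H86.MT

variable {V : Type} [Fintype V] [Nonempty V] {G : SimpleGraph V} {p : List V → V → ℝ} {N : ℕ}

theorem F_drop (hp : ∀ h, ∑ x, p h x = 1) (w : List V → ℝ) (k : ℕ) :
    ∀ (i : ℕ) (h : List V), F p k (fun s => w (s.drop (k + i))) h = w (h.drop i) := by
  induction k with
  | zero =>
    intro i h
    rw [F_zero, Nat.zero_add]
  | succ k ih =>
    intro i h
    rw [F_succ]
    have h1 : ∀ x : V, F p k (fun s => w (s.drop (k + 1 + i))) (x :: h) = w (h.drop i) := by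
      intro x
      have h2 := ih (i + 1) (x :: h)
      rw [show k + (i + 1) = k + 1 + i by ring] at h2
      rw [h2, List.drop_succ_cons]
    simp only [h1]
    rw [← Finset.sum_mul, hp, one_mul]

/-- pigeonhole -/
theorem pigeon_times {x : ℕ → ℝ} {N M c : ℕ} {C : ℝ} (hx : ∀ l, 0 ≤ x l)
    (hs : ∑ l ∈ Finset.range (N + 1), x l ≤ C) (hM : 1 ≤ M) (hc : c + M ≤ N + 1) :
    ∃ a, c ≤ a ∧ a < c + M ∧ x a ≤ C / M := by
  by_contra hcon
  push Not at hcon
  have hM0 : (0 : ℝ) < M := by exact_mod_cast hM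
  have h1 : ∑ l ∈ Finset.Ico c (c + M), x l ≤ C := by
    refine le_trans (Finset.sum_le_sum_of_subset_of_nonneg ?_ fun l _ _ => hx l) hs
    intro l hl
    rw [Finset.mem_Ico] at hl
    rw [Finset.mem_range]
    omega
  have h2 : ∑ l ∈ Finset.Ico c (c + M), C / (M : ℝ) < ∑ l ∈ Finset.Ico c (c + M), x l := by
    refine Finset.sum_lt_sum_of_nonempty ⟨c, Finset.mem_Ico.2 ⟨le_rfl, by omega⟩⟩ fun l hl => ?_
    rw [Finset.mem_Ico] at hl
    exact hcon l hl.1 hl.2
  rw [Finset.sum_const, Nat.card_Ico, nsmul_eq_mul, show c + M - c = M by omega,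
    mul_div_cancel₀ _ hM0.ne'] at h2
  linarith

theorem E_drop (hL : IsLaw G p) (l j : ℕ) (w : List V → ℝ) :
    E p (l + j) (fun s => w (s.drop j)) = E p l w := by
  rw [E_comp]
  unfold E
  congr 1
  funext h
  exact F_drop hL.sum_one w j 0 h

theorem exists_times (hL : IsLaw G p) {Δ : ℕ} {α P q : ℝ} (hpar : Par Δ α P q) (hE : Expd G α)
    (hΔ : ∀ y, (nb G y).card ≤ Δ + 1) {M : ℕ} (hM : 1 ≤ M) (hN : N = 4 * M) :
    ∃ a b : ℕ, 1 ≤ a ∧ a ≤ M ∧ 3 * M ≤ b ∧ b ≤ N ∧
      E p a (fun s => avg (fun y => |phi G p N s y|)) ≤ (cp α P + cm α P) / M ∧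
      E p b (fun s => avg (fun y => |phi G p N s y|)) ≤ (cp α P + cm α P) / M := by
  set x : ℕ → ℝ := fun l => E p l (fun s => avg (fun y => |phi G p N s y|)) with hx
  have hx0 : ∀ l, 0 ≤ x l := fun l =>
    F_nonneg hL.nonneg fun s _ => avg_nonneg fun y => abs_nonneg _
  have hP1 : 1 ≤ P := by linarith [hpar.hP]
  have hxle : ∀ l, x l ≤ E p l (fun h => nrm q (php G p N h)) +
      E p l (fun h => nrm P (phm G p N h)) := by
    intro l
    unfold E
    rw [← F_add]
    refine F_mono hL.nonneg fun s => ?_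
    have h1 : avg (fun y => |phi G p N s y|) = nrm 1 (php G p N s) + nrm 1 (phm G p N s) := by
      rw [nrm_one, nrm_one, ← avg_add]
      congr 1
      funext y
      rw [abs_phi, abs_of_nonneg (php_nonneg s y), abs_of_nonneg (phm_nonneg s y)]
    rw [h1]
    exact add_le_add (nrm_le_nrm le_rfl hpar.hq _) (nrm_le_nrm le_rfl hP1 _)
  have hsum : ∑ l ∈ Finset.range (N + 1), x l ≤ cp α P + cm α P := by
    refine (Finset.sum_le_sum fun l _ => hxle l).trans ?_
    rw [Finset.sum_add_distrib]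
    exact add_le_add (sum_php hL hpar hE hΔ) (sum_phm hL hpar.hα hP1 hE)
  obtain ⟨a, ha1, ha2, ha3⟩ := pigeon_times (c := 1) hx0 hsum hM (by omega)
  obtain ⟨b, hb1, hb2, hb3⟩ := pigeon_times (c := 3 * M) hx0 hsum hM (by omega)
  exact ⟨a, b, ha1, by omega, hb1, by omega, ha3, hb3⟩

end Pool.Agent.H86.MT
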