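import Pool.Agent.H86.MT.GuB

/-!
MT-GUESS. The guessing cop (section 7 of h86_transitive.md).

`Gp k z` is the weight given, knowing the history `h0`, to the event that the robber is at `z` after
`k` more steps. `prev k i x` = the weight of position `x` at time `k - i` (a point mass when `k - i ≤ 0`).
* `guess_main` (7.1): `F D (fun s => 1[v s ≤ 1/8] Gp D (hd s)) h0 = ∑_z Gp D z * F D (1[v s ≤ 1/8, hd s = z]) h0`, total mass
  `≤ 1`, and for each `z`: `v h0 ≥ F D (fun s => U s z) h0` (`F_U_le_v`),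
  `U s z ≥ F D v s + (7/8) 1[v s ≤ 1/8, hd s = z]` (average of `U_near` over the target, i.e. `U s z ≥ F D (fun r => U r w) s`
  for all `w`; and `U s (hd s) = 1`, `F D v s ≤ v s ≤ 1/8`); `F D (F D v) h0 = F (2D) v h0`.
-/

set_option autoImplicit false
set_option linter.unusedSectionVars false

open N6ef48c04

namespace Pool.Agent.H86.MT

variable {V : Type} [Fintype V] [Nonempty V] {G : SimpleGraph V} {p : List V → V → ℝ} {N : ℕ}

open Classical in
/-- (7.1) -/
theorem guess_main (hL : IsLaw G p) {c0 : ℝ} (hc0 : 0 < c0) (a b : ℕ) {N0 : ℕ} (hN0 : 1 ≤ N0)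
    {D Δ : ℕ} (hD : ∀ y z, Near G D y z) (hΔ : ∀ y, (nb G y).card ≤ Δ + 1) {h0 : List V}
    (hh0 : h0 ≠ []) (hlen : h0.length + 2 * D ≤ N) :
    7 / 8 * F p D (fun s => if v G p N s ≤ 1 / 8 then Gp G p c0 a b N0 D Δ h0 D (hd s) else 0) h0 ≤
      v G p N h0 - F p (2 * D) (v G p N) h0 := by
  set w : V → ℝ := fun z => Gp G p c0 a b N0 D Δ h0 D z with hw
  have hw0 : ∀ z, 0 ≤ w z := fun z => Gp_nonneg hc0 a b N0 D Δ h0 D z
  have hw1 : ∑ z, w z ≤ 1 := sum_Gp hc0 a b hN0 D hΔ h0 D
  have hlen0 : 0 < h0.length := List.length_pos_iff.2 hh0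
  have hstep : ∀ z, 7 / 8 * F p D (fun s => if v G p N s ≤ 1 / 8 ∧ hd s = z then (1 : ℝ) else 0) h0 ≤
      v G p N h0 - F p (2 * D) (v G p N) h0 := by
    intro z
    have h1 : F p D (fun s => U G p N s z) h0 ≤ v G p N h0 := F_U_le_v hL hD (by omega) z
    have h2 : F p D (fun s => F p D (v G p N) s +
        7 / 8 * (if v G p N s ≤ 1 / 8 ∧ hd s = z then (1 : ℝ) else 0)) h0 ≤
        F p D (fun s => U G p N s z) h0 := by
      refine F_mono_of hL.nonneg fun s hs => ?_
      have hsl : s.length + D ≤ N := by omega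
      have h3 : F p D (v G p N) s ≤ U G p N s z := by
        have h4 : F p D (v G p N) s = avg (fun y => F p D (fun r => U G p N r y) s) := by
          rw [avg_F]
          rfl
        rw [h4]
        calc avg (fun y => F p D (fun r => U G p N r y) s) ≤ avg (fun _ : V => U G p N s z) :=
              avg_mono fun y => U_near hL hsl (hD z y)
          _ = _ := avg_const _
      by_cases hc : v G p N s ≤ 1 / 8 ∧ hd s = z
      · rw [if_pos hc]
        have h5 : F p D (v G p N) s ≤ v G p N s := F_v_le hL D hsl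
        have h6 : U G p N s z = 1 := by
          cases s with
          | nil => simp at hs; omega
          | cons x t =>
            have : x = z := hc.2
            rw [← this]
            exact U_self hL x t
        rw [h6]
        linarith [hc.1]
      · rw [if_neg hc]
        linarith
    rw [F_add, F_mul] at h2
    have h7 : F p D (fun s => F p D (v G p N) s) h0 = F p (2 * D) (v G p N) h0 := by
      rw [two_mul, F_comp]
    rw [h7] at h2
    linarith
  have hsum : F p D (fun s => if v G p N s ≤ 1 / 8 then Gp G p c0 a b N0 D Δ h0 D (hd s) else 0) h0 =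
      ∑ z, w z * F p D (fun s => if v G p N s ≤ 1 / 8 ∧ hd s = z then (1 : ℝ) else 0) h0 := by
    have h1 : ∀ z, w z * F p D (fun s => if v G p N s ≤ 1 / 8 ∧ hd s = z then (1 : ℝ) else 0) h0 =
        F p D (fun s => w z * (if v G p N s ≤ 1 / 8 ∧ hd s = z then (1 : ℝ) else 0)) h0 :=
      fun z => (F_mul D (w z) _ h0).symm
    simp only [h1]
    rw [← F_sum]
    refine F_congr_of fun s _ => ?_
    by_cases hv : v G p N s ≤ 1 / 8
    · rw [if_pos hv, Finset.sum_eq_single (hd s)]
      · rw [if_pos ⟨hv, rfl⟩, mul_one]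
      · intro z _ hz
        rw [if_neg (fun h => hz h.2.symm), mul_zero]
      · intro h
        exact absurd (Finset.mem_univ _) h
    · rw [if_neg hv]
      symm
      refine Finset.sum_eq_zero fun z _ => ?_
      rw [if_neg (fun h => hv h.1), mul_zero]
  have hnn : 0 ≤ v G p N h0 - F p (2 * D) (v G p N) h0 := by
    have := F_v_le (N := N) hL (2 * D) (h := h0) hlen
    linarith
  rw [hsum, Finset.mul_sum]
  calc ∑ z, 7 / 8 * (w z * F p D (fun s => if v G p N s ≤ 1 / 8 ∧ hd s = z then (1 : ℝ) else 0) h0)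
      ≤ ∑ z, w z * (v G p N h0 - F p (2 * D) (v G p N) h0) := by
        refine Finset.sum_le_sum fun z _ => ?_
        have := mul_le_mul_of_nonneg_left (hstep z) (hw0 z)
        linarith
    _ = (∑ z, w z) * (v G p N h0 - F p (2 * D) (v G p N) h0) := by rw [Finset.sum_mul]
    _ ≤ 1 * (v G p N h0 - F p (2 * D) (v G p N) h0) := mul_le_mul_of_nonneg_right hw1 hnn
    _ = _ := one_mul _

open Classical in
/-- the guess in terms of the number of unpredictable times -/
theorem guess_exp (hL : IsLaw G p) (hI : IsInv G p) (hT : VT G) {c0 : ℝ} (hc0 : 0 < c0) {a b : ℕ}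
    (ha : 1 ≤ a) (hab : a < b) {N0 : ℕ} (hN0 : 1 ≤ N0)
    (hN0' : Real.exp (-(c0 * N0)) ≤ (1 - Real.exp (-c0)) / 2)
    {D Δ : ℕ} (hD : ∀ y z, Near G D y z) (hΔ : ∀ y, (nb G y).card ≤ Δ + 1) {β : ℝ} {h0 : List V}
    (hh0 : h0 ≠ []) (hlen : h0.length + 2 * D ≤ N) :
    7 / 8 * (Real.exp (-(6 * c0 * D + Real.log (2 * (Δ + 1)) * β)) *
        (1 - F p D (fun s => if v G p N s ≤ 1 / 8 then 0 else 1) h0 -
          F p D (fun s => if (bad p c0 a b N0 D D s : ℝ) ≤ β then 0 else 1) h0)) ≤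
      v G p N h0 - F p (2 * D) (v G p N) h0 := by
  refine le_trans ?_ (guess_main hL hc0 a b hN0 hD hΔ hh0 hlen)
  refine mul_le_mul_of_nonneg_left ?_ (by norm_num)
  set E0 : ℝ := Real.exp (-(6 * c0 * D + Real.log (2 * (Δ + 1)) * β)) with hE0
  have hE : 0 < E0 := Real.exp_pos _
  have h1 : E0 * (1 - F p D (fun s => if v G p N s ≤ 1 / 8 then (0 : ℝ) else 1) h0 -
      F p D (fun s => if (bad p c0 a b N0 D D s : ℝ) ≤ β then (0 : ℝ) else 1) h0) =
      F p D (fun s => E0 * ((1 - (if v G p N s ≤ 1 / 8 then (0 : ℝ) else 1)) -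
        (if (bad p c0 a b N0 D D s : ℝ) ≤ β then (0 : ℝ) else 1))) h0 := by
    rw [F_mul, F_sub, F_sub, F_const hL.sum_one]
  rw [h1]
  have hlog : 0 ≤ Real.log (2 * ((Δ : ℝ) + 1)) := by
    refine Real.log_nonneg ?_
    have : (0 : ℝ) ≤ Δ := Nat.cast_nonneg _
    linarith
  refine F_Wk hL hh0 fun s hs hs' hw => ?_
  by_cases hv : v G p N s ≤ 1 / 8
  · rw [if_pos hv, if_pos hv]
    by_cases hb : (bad p c0 a b N0 D D s : ℝ) ≤ β
    · rw [if_pos hb]
      have h2 := Gp_lower hL hI hT hc0 ha hab hN0 hN0' D Δ hh0 D s hs hs' hw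
      refine le_trans ?_ h2
      rw [sub_zero, sub_zero, mul_one, hE0]
      refine Real.exp_le_exp.2 ?_
      have h3 : Real.log (2 * ((Δ : ℝ) + 1)) * (bad p c0 a b N0 D D s : ℝ) ≤
          Real.log (2 * ((Δ : ℝ) + 1)) * β := mul_le_mul_of_nonneg_left hb hlog
      have h4 : 3 * c0 * ((D : ℝ) + D) = 6 * c0 * D := by ring
      rw [h4]
      linarith
    · rw [if_neg hb, sub_zero, sub_self, mul_zero]
      exact Gp_nonneg hc0 a b N0 D Δ h0 D _
  · rw [if_neg hv, if_neg hv, sub_self, zero_sub]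
    by_cases hb : (bad p c0 a b N0 D D s : ℝ) ≤ β
    · rw [if_pos hb, neg_zero, mul_zero]
    · rw [if_neg hb]
      linarith

end Pool.Agent.H86.MT
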