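import Pool.Agent.H86.MT.LpB

/-!
MT-LP. The `L^P` bound for the negative part and the `L^q` bound for the positive part of the centred
value `phi`, section 3 of h86_transitive.md. `L = (1 + α)/α`.

* `sum_phm`, `sum_php`: apply `E l` to the steps and sum over `l`.
-/

set_option autoImplicit false
set_option linter.unusedSectionVars false

open N6ef48c04

namespace Pool.Agent.H86.MT

variable {V : Type} [Fintype V] [Nonempty V] {G : SimpleGraph V} {p : List V → V → ℝ} {N : ℕ}

theorem E_nrm_phm_le_one (hL : IsLaw G p) {s : ℝ} (hs : 0 < s) (l : ℕ) :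
    E p l (fun h => nrm s (phm G p N h)) ≤ 1 := by
  have h1 : E p l (fun h => nrm s (phm G p N h)) ≤ E p l (fun _ => (1 : ℝ)) := by
    refine F_mono hL.nonneg fun t => nrm_le_one hs fun y => ?_
    rw [abs_of_nonneg (phm_nonneg t y)]
    exact phm_le_one hL t y
  refine h1.trans (le_of_eq ?_)
  exact F_const hL.sum_one l 1 []

theorem E_nrm_php_le_one (hL : IsLaw G p) {s : ℝ} (hs : 0 < s) (l : ℕ) :
    E p l (fun h => nrm s (php G p N h)) ≤ 1 := by
  have h1 : E p l (fun h => nrm s (php G p N h)) ≤ E p l (fun _ => (1 : ℝ)) := by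
    refine F_mono hL.nonneg fun t => nrm_le_one hs fun y => ?_
    rw [abs_of_nonneg (php_nonneg t y)]
    exact php_le_one hL t y
  refine h1.trans (le_of_eq ?_)
  exact F_const hL.sum_one l 1 []

theorem E_nrm_nonneg (hL : IsLaw G p) {s : ℝ} (l : ℕ) (f : List V → V → ℝ) :
    0 ≤ E p l (fun h => nrm s (f h)) :=
  F_nonneg hL.nonneg fun _ _ => nrm_nonneg _ _

theorem E_cc_nonneg (hL : IsLaw G p) {l : ℕ} (hl : l < N) : 0 ≤ E p l (cc G p N) :=
  F_nonneg hL.nonneg fun s hs => cc_nonneg hL (by simpa [hs] using hl)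

theorem sum_cc_le_one (hL : IsLaw G p) : ∑ l ∈ Finset.range N, E p l (cc G p N) ≤ 1 :=
  (sum_cc hL).trans (v_le_one hL _)

/-- (3.3), negative part -/
theorem sum_phm (hL : IsLaw G p) {α P : ℝ} (hα : 0 < α) (hP : 1 ≤ P) (hE : Expd G α) :
    ∑ l ∈ Finset.range (N + 1), E p l (fun h => nrm P (phm G p N h)) ≤ cm α P := by
  have hP0 : 0 < P := by linarith
  set b : ℕ → ℝ := fun l => E p l (fun h => nrm P (phm G p N h)) with hb
  set κ : ℝ := (1 + α) ^ (-(1 / P)) with hκ
  have hκ1 : κ < 1 := Real.rpow_lt_one_of_one_lt_of_neg (by linarith)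
    (by have : 0 < 1 / P := by positivity
        linarith)
  have hκ0 : 0 ≤ κ := Real.rpow_nonneg (by linarith) _
  have hLc : 0 ≤ Lc α := by unfold Lc; positivity
  have hstep : ∀ l ∈ Finset.range N, b l ≤ κ * b (l + 1) + (1 + 2 * Lc α) * E p l (cc G p N) := by
    intro l hl
    rw [Finset.mem_range] at hl
    have h1 : b l ≤ E p l (fun h => κ * F p 1 (fun s => nrm P (phm G p N s)) h +
        (1 + 2 * Lc α) * cc G p N h) := by
      refine F_mono_of hL.nonneg fun s hs => ?_
      exact neg_step hL hα hP hE (by simpa [hs] using hl)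
    have h2 : E p l (fun h => κ * F p 1 (fun s => nrm P (phm G p N s)) h +
        (1 + 2 * Lc α) * cc G p N h) = κ * b (l + 1) + (1 + 2 * Lc α) * E p l (cc G p N) := by
      unfold E
      rw [F_add, F_mul, F_mul]
      congr 2
      simp only [hb]
      rw [E_comp]
      rfl
    rw [h2] at h1
    exact h1
  have hsum := Finset.sum_le_sum hstep
  rw [Finset.sum_add_distrib, ← Finset.mul_sum, ← Finset.mul_sum] at hsum
  have h0 : 0 ≤ b 0 := E_nrm_nonneg hL 0 _
  have hN : b N ≤ 1 := E_nrm_phm_le_one hL hP0 N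
  have hS1 : ∑ l ∈ Finset.range (N + 1), b l = ∑ l ∈ Finset.range N, b l + b N :=
    Finset.sum_range_succ _ _
  have hS2 : ∑ l ∈ Finset.range (N + 1), b l = ∑ l ∈ Finset.range N, b (l + 1) + b 0 :=
    Finset.sum_range_succ' _ _
  have hcc := sum_cc_le_one (N := N) hL
  have hcc2 : (1 + 2 * Lc α) * ∑ l ∈ Finset.range N, E p l (cc G p N) ≤ 1 + 2 * Lc α := by
    nlinarith
  have hk2 : κ * ∑ l ∈ Finset.range N, b (l + 1) ≤ κ * ∑ l ∈ Finset.range (N + 1), b l :=
    mul_le_mul_of_nonneg_left (by linarith) hκ0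
  unfold cm
  rw [le_div_iff₀ (by linarith)]
  rw [← hκ]
  nlinarith

/-- (3.3), positive part -/
theorem sum_php (hL : IsLaw G p) {Δ : ℕ} {α P q : ℝ} (hpar : Par Δ α P q) (hE : Expd G α)
    (hΔ : ∀ y, (nb G y).card ≤ Δ + 1) :
    ∑ l ∈ Finset.range (N + 1), E p l (fun h => nrm q (php G p N h)) ≤ cp α P := by
  have hα := hpar.hα
  have hP := hpar.hP
  have hq := hpar.hq
  have hq2 := hpar.hq2
  have hq0 : 0 < q := by linarith
  set a : ℕ → ℝ := fun l => E p l (fun h => nrm q (php G p N h)) with ha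
  set b : ℕ → ℝ := fun l => E p l (fun h => nrm q (phm G p N h)) with hb
  set c : ℕ → ℝ := fun l => E p l (cc G p N) with hc
  set κ : ℝ := (1 + α) ^ (-(1 / (4 : ℝ))) with hκ
  have hκ1 : κ < 1 := Real.rpow_lt_one_of_one_lt_of_neg (by linarith) (by norm_num)
  have hκ0 : 0 ≤ κ := Real.rpow_nonneg (by linarith) _
  have hLc : 0 ≤ Lc α := by unfold Lc; positivity
  have hc0 : ∀ l, l < N → 0 ≤ c l := fun l hl => E_cc_nonneg hL hl
  have ha0 : ∀ l, 0 ≤ a l := fun l => E_nrm_nonneg hL l _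
  have hb0 : ∀ l, 0 ≤ b l := fun l => E_nrm_nonneg hL l _
  have ha1 : ∀ l, a l ≤ 1 := fun l => E_nrm_php_le_one hL hq0 l
  have hstep : ∀ l ∈ Finset.range N, a (l + 1) ≤ (if l = 0 then 1 else 0) +
      (κ * (a l + (1 + 2 * Lc α) * c l + b (l + 1)) + Lc α * c l) := by
    intro l hl
    rw [Finset.mem_range] at hl
    have hcl := hc0 l hl
    have hal := ha0 l
    have hbl := hb0 (l + 1)
    by_cases hl0 : l = 0
    · rw [if_pos hl0]
      have h1 := ha1 (l + 1)
      have h2 : 0 ≤ κ * (a l + (1 + 2 * Lc α) * c l + b (l + 1)) + Lc α * c l := by positivity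
      linarith
    · rw [if_neg hl0, zero_add]
      have h1 : a (l + 1) ≤ E p l (fun h => κ * (nrm q (php G p N h) + (1 + 2 * Lc α) * cc G p N h +
          F p 1 (fun s => nrm q (phm G p N s)) h) + Lc α * cc G p N h) := by
        simp only [ha]
        rw [E_comp]
        refine F_mono_of hL.nonneg fun s hs => ?_
        match s, hs with
        | [], hs => simp at hs; omega
        | x :: h, hs =>
          exact pos_step hL hpar hE hΔ (by rw [hs]; simpa using hl)
      have h2 : E p l (fun h => κ * (nrm q (php G p N h) + (1 + 2 * Lc α) * cc G p N h +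
          F p 1 (fun s => nrm q (phm G p N s)) h) + Lc α * cc G p N h) =
          κ * (a l + (1 + 2 * Lc α) * c l + b (l + 1)) + Lc α * c l := by
        simp only [ha, hb, hc]
        unfold E
        rw [F_add, F_mul, F_mul, F_add, F_add, F_mul]
        rw [show F p l (fun h => F p 1 (fun s => nrm q (phm G p N s)) h) [] =
          F p (l + 1) (fun s => nrm q (phm G p N s)) [] from (F_comp l 1 _ _).symm]
      rw [h2] at h1
      exact h1
  have hsum := Finset.sum_le_sum hstep
  simp only [Finset.sum_add_distrib, ← Finset.mul_sum] at hsum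
  have hind : ∑ l ∈ Finset.range N, (if l = 0 then (1 : ℝ) else 0) ≤ 1 := by
    rw [Finset.sum_ite_eq']
    split_ifs <;> norm_num
  have hSa : ∑ l ∈ Finset.range (N + 1), a l = ∑ l ∈ Finset.range N, a (l + 1) + a 0 :=
    Finset.sum_range_succ' _ _
  have hSa2 : ∑ l ∈ Finset.range (N + 1), a l = ∑ l ∈ Finset.range N, a l + a N :=
    Finset.sum_range_succ _ _
  have hSb : ∑ l ∈ Finset.range (N + 1), b l = ∑ l ∈ Finset.range N, b (l + 1) + b 0 :=
    Finset.sum_range_succ' _ _
  have hbcm : ∑ l ∈ Finset.range (N + 1), b l ≤ cm α P := by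
    refine le_trans (Finset.sum_le_sum fun l _ => ?_) (sum_phm hL hα (by linarith : 1 ≤ P) hE)
    exact F_mono hL.nonneg fun s => nrm_le_nrm hq (by linarith) _
  have hcc := sum_cc_le_one (N := N) hL
  have hcc0 : 0 ≤ ∑ l ∈ Finset.range N, c l :=
    Finset.sum_nonneg fun l hl => hc0 l (Finset.mem_range.1 hl)
  have hcc2 : (1 + 2 * Lc α) * ∑ l ∈ Finset.range N, c l ≤ 1 + 2 * Lc α := by nlinarith
  have hcc3 : Lc α * ∑ l ∈ Finset.range N, c l ≤ Lc α := by nlinarith
  have h00 := ha1 0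
  have hb00 := hb0 0
  have haN := ha0 N
  have hb1 : 0 ≤ ∑ l ∈ Finset.range N, b (l + 1) := Finset.sum_nonneg fun l _ => hb0 _
  have hcc4 : 0 ≤ (1 + 2 * Lc α) * ∑ l ∈ Finset.range N, c l := by positivity
  have hk : κ * (∑ l ∈ Finset.range N, a l + (1 + 2 * Lc α) * ∑ l ∈ Finset.range N, c l +
      ∑ l ∈ Finset.range N, b (l + 1)) ≤
      κ * ∑ l ∈ Finset.range (N + 1), a l + (1 + 2 * Lc α) + cm α P := by
    have e1 : κ * ∑ l ∈ Finset.range N, a l ≤ κ * ∑ l ∈ Finset.range (N + 1), a l :=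
      mul_le_mul_of_nonneg_left (by linarith) hκ0
    have e2 : κ * ((1 + 2 * Lc α) * ∑ l ∈ Finset.range N, c l) ≤
        (1 + 2 * Lc α) * ∑ l ∈ Finset.range N, c l := by nlinarith
    have e3 : κ * ∑ l ∈ Finset.range N, b (l + 1) ≤ ∑ l ∈ Finset.range N, b (l + 1) := by nlinarith
    rw [mul_add, mul_add]
    linarith
  unfold cp
  rw [le_div_iff₀ (by linarith)]
  rw [← hκ]
  nlinarith

end Pool.Agent.H86.MT
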