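import Pool.Agent.H86.MT.ExpA

/-!
MT-EXP. Expansion inequalities for `star f y = max_{N[y]} f`.
* `exp_pos`: `layer_rpow` with `u = (f - a)_+`, `w = (star f - a)_+`, `K = 1 + α`: with `A = {a + τ < f}`
  one has `A.biUnion nb ⊆ {a + τ < star f}` and `2 #A ≤ n`.
* `exp_neg`: `u = (a - star f)_+`, `w = (a - f)_+`: with `A = {star f < a - τ}`,
  `A.biUnion nb ⊆ {f < a - τ}` and `A ⊆ {f < a - τ}` (`f ≤ star f`), so `2 #A ≤ n`.
* `exp_one`: `∑ (star f - f) = [∑ (star f - a)_+ - ∑ (f - a)_+] + [∑ (a - f)_+ - ∑ (a - star f)_+]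
  ≥ α ∑ (f - a)_+ + (1 - 1/(1+α)) ∑ (a - f)_+ ≥ (α/(1+α)) ∑ |f - a|` (both with exponent `1`).
-/

set_option autoImplicit false
set_option linter.unusedSectionVars false

open N6ef48c04

namespace Pool.Agent.H86.MT

variable {V : Type} [Fintype V] [Nonempty V] {G : SimpleGraph V} {p : List V → V → ℝ} {N : ℕ}

open Classical in
/-- (2.1) -/
theorem exp_pos {α q : ℝ} (hE : Expd G α) (hα : 0 ≤ α) (hq : 1 ≤ q) (f : V → ℝ) (a : ℝ)
    (ha : 2 * (Finset.univ.filter (fun y => a < f y)).card ≤ Fintype.card V) :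
    (1 + α) * ∑ y, (max (f y - a) 0) ^ q ≤ ∑ y, (max (star G f y - a) 0) ^ q := by
  refine layer_rpow (fun y => le_max_right _ _) (fun y => le_max_right _ _) (by linarith) hq ?_
  intro τ hτ
  set A := Finset.univ.filter (fun y => τ < max (f y - a) 0) with hA
  have hA1 : ∀ y ∈ A, τ < f y - a := by
    intro y hy
    have h := (Finset.mem_filter.1 hy).2
    rcases lt_max_iff.1 h with h | h
    · exact h
    · exact absurd h (not_lt.2 hτ)
  have hA2 : 2 * A.card ≤ Fintype.card V := by
    refine le_trans (Nat.mul_le_mul_left 2 (Finset.card_le_card ?_)) ha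
    intro y hy
    have h := hA1 y hy
    exact Finset.mem_filter.2 ⟨Finset.mem_univ _, by linarith⟩
  refine (hE A hA2).trans ?_
  have hsub : A.biUnion (nb G) ⊆ Finset.univ.filter (fun y => τ < max (star G f y - a) 0) := by
    intro z hz
    obtain ⟨y, hy, hzy⟩ := Finset.mem_biUnion.1 hz
    have h := hA1 y hy
    have h2 : f y ≤ star G f z := le_star G f ((mem_nb_comm G).1 hzy)
    exact Finset.mem_filter.2 ⟨Finset.mem_univ _, lt_max_of_lt_left (by linarith)⟩
  exact_mod_cast Finset.card_le_card hsub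

open Classical in
/-- (2.2) -/
theorem exp_neg {α q : ℝ} (hE : Expd G α) (hα : 0 ≤ α) (hq : 1 ≤ q) (f : V → ℝ) (a : ℝ)
    (ha : 2 * (Finset.univ.filter (fun y => f y < a)).card ≤ Fintype.card V) :
    (1 + α) * ∑ y, (max (a - star G f y) 0) ^ q ≤ ∑ y, (max (a - f y) 0) ^ q := by
  refine layer_rpow (fun y => le_max_right _ _) (fun y => le_max_right _ _) (by linarith) hq ?_
  intro τ hτ
  set A := Finset.univ.filter (fun y => τ < max (a - star G f y) 0) with hA
  have hA1 : ∀ y ∈ A, τ < a - star G f y := by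
    intro y hy
    have h := (Finset.mem_filter.1 hy).2
    rcases lt_max_iff.1 h with h | h
    · exact h
    · exact absurd h (not_lt.2 hτ)
  have hA2 : 2 * A.card ≤ Fintype.card V := by
    refine le_trans (Nat.mul_le_mul_left 2 (Finset.card_le_card ?_)) ha
    intro y hy
    have h := hA1 y hy
    have h2 : f y ≤ star G f y := le_star_self G f y
    exact Finset.mem_filter.2 ⟨Finset.mem_univ _, by linarith⟩
  refine (hE A hA2).trans ?_
  have hsub : A.biUnion (nb G) ⊆ Finset.univ.filter (fun y => τ < max (a - f y) 0) := by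
    intro z hz
    obtain ⟨y, hy, hzy⟩ := Finset.mem_biUnion.1 hz
    have h := hA1 y hy
    have h2 : f z ≤ star G f y := le_star G f hzy
    exact Finset.mem_filter.2 ⟨Finset.mem_univ _, lt_max_of_lt_left (by linarith)⟩
  exact_mod_cast Finset.card_le_card hsub

/-- (2.3) -/
theorem exp_one {α : ℝ} (hE : Expd G α) (hα : 0 ≤ α) (f : V → ℝ) (a : ℝ) (ha : IsMed f a) :
    α / (1 + α) * ∑ y, |f y - a| ≤ ∑ y, (star G f y - f y) := by
  have h1 := exp_pos hE hα (le_refl (1 : ℝ)) f a ha.1
  have h2 := exp_neg hE hα (le_refl (1 : ℝ)) f a ha.2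
  simp only [Real.rpow_one] at h1 h2
  have hsplit : ∀ x : ℝ, x - a = max (x - a) 0 - max (a - x) 0 := by
    intro x
    rcases le_total x a with h | h
    · rw [max_eq_right (by linarith), max_eq_left (by linarith)]
      ring
    · rw [max_eq_left (by linarith), max_eq_right (by linarith)]
      ring
  have habs : ∀ x : ℝ, |x - a| = max (x - a) 0 + max (a - x) 0 := by
    intro x
    rcases le_total x a with h | h
    · rw [max_eq_right (by linarith), max_eq_left (by linarith), abs_of_nonpos (by linarith)]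
      ring
    · rw [max_eq_left (by linarith), max_eq_right (by linarith), abs_of_nonneg (by linarith)]
      ring
  have hP0 : 0 ≤ ∑ y, max (f y - a) 0 := Finset.sum_nonneg (fun y _ => le_max_right _ _)
  have h3 : ∑ y, |f y - a| = ∑ y, max (f y - a) 0 + ∑ y, max (a - f y) 0 := by
    rw [← Finset.sum_add_distrib]
    exact Finset.sum_congr rfl (fun y _ => habs (f y))
  have h4 : ∑ y, (star G f y - f y) =
      (∑ y, max (star G f y - a) 0 - ∑ y, max (a - star G f y) 0) -
        (∑ y, max (f y - a) 0 - ∑ y, max (a - f y) 0) := by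
    rw [← Finset.sum_sub_distrib, ← Finset.sum_sub_distrib, ← Finset.sum_sub_distrib]
    refine Finset.sum_congr rfl (fun y _ => ?_)
    rw [← hsplit (star G f y), ← hsplit (f y)]
    ring
  rw [h3, h4]
  have hα1 : 0 < 1 + α := by linarith
  rw [div_mul_eq_mul_div, div_le_iff₀ hα1]
  have h5 : 0 ≤ α * α * ∑ y, max (f y - a) 0 := by positivity
  nlinarith [mul_le_mul_of_nonneg_left h1 hα1.le, h2, h5]

end Pool.Agent.H86.MT
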