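import Pool.Agent.H86.MT.NrmA
import Pool.Agent.H86.MT.ExpB

/-!
MT-NRM. The normalised norms `nrm s f = (avg |f|^s)^(1/s)`.
* `nrm_le_nrm`: power mean inequality (`Real.rpow_arith_mean_le_arith_mean_rpow` or
  `inner_le_nnorm_mul_nnorm` with the constant function `1`).
* `nrm_pieces`: power mean: `∑_{i ∈ S} a_i ≤ m^(1-1/q) (∑ a_i^q)^(1/q)` for at most `m` terms
  (`Real.inner_le_Lp_mul_Lq` with the constant function, or `Real.pow_sum_div_card_le_sum_pow`-type),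
  and `∑_i avg (f_i^q) = avg (∑ f_i^q) ≤ avg ((∑ f_i)^q)` (superadditivity of `x^q`, `q ≥ 1`,
  `Real.add_rpow_le_rpow_add`, induction).
* `nrm_star`: `(star f y)^q ≤ ∑_{z ∈ nb y} (f z)^q`, each `z` is in at most `Δ+1` sets `nb y`, so
  `nrm q (star f) ≤ (Δ+1)^(1/q) nrm q f ≤ (Δ+1) nrm q f`.
* `nrm_exp_pos`, `nrm_exp_neg`: `exp_pos`, `exp_neg`, take `1/q`-th powers (`Real.rpow_le_rpow`,
  `Real.mul_rpow`).
* `holder`: `Real.inner_le_Lp_mul_Lq` on a general finite type.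
-/

set_option autoImplicit false
set_option linter.unusedSectionVars false

open N6ef48c04

namespace Pool.Agent.H86.MT

variable {V : Type} [Fintype V] [Nonempty V] {G : SimpleGraph V} {p : List V → V → ℝ} {N : ℕ}

/-- `q`-th power of the norm -/
theorem nrmB_avg_abs {q : ℝ} {f : V → ℝ} (hf : ∀ y, 0 ≤ f y) :
    nrm q f = (avg (fun y => f y ^ q)) ^ (1 / q) := by
  unfold nrm
  simp only [abs_of_nonneg (hf _)]

theorem nrmB_rpow {q : ℝ} (hq : 0 < q) {f : V → ℝ} (hf : ∀ y, 0 ≤ f y) :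
    nrm q f ^ q = avg (fun y => f y ^ q) := by
  rw [nrmB_avg_abs hf, ← Real.rpow_mul (avg_nonneg fun y => Real.rpow_nonneg (hf y) q),
    one_div, inv_mul_cancel₀ hq.ne', Real.rpow_one]

theorem nrmB_sum_rpow_le {q : ℝ} (hq : 1 ≤ q) {ι : Type*} (S : Finset ι) (a : ι → ℝ)
    (ha : ∀ i, 0 ≤ a i) : ∑ i ∈ S, a i ^ q ≤ (∑ i ∈ S, a i) ^ q := by
  classical
  induction S using Finset.induction_on with
  | empty => simp [Real.zero_rpow (by linarith : q ≠ 0)]
  | insert b S hb ih =>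
    rw [Finset.sum_insert hb, Finset.sum_insert hb]
    refine (add_le_add le_rfl ih).trans ?_
    exact Real.add_rpow_le_rpow_add (ha b) (Finset.sum_nonneg fun i _ => ha i) hq

theorem nrm_le_nrm {s t : ℝ} (hs : 1 ≤ s) (hst : s ≤ t) (f : V → ℝ) : nrm s f ≤ nrm t f := by
  have hs0 : 0 < s := by linarith
  have ht0 : 0 < t := by linarith
  have hn : (0 : ℝ) < Fintype.card V := Nat.cast_pos.2 Fintype.card_pos
  have h1 := Real.rpow_arith_mean_le_arith_mean_rpow (Finset.univ : Finset V)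
    (fun _ => (Fintype.card V : ℝ)⁻¹) (fun y => |f y| ^ s) (fun _ _ => by positivity)
    (by simp only [Finset.sum_const, Finset.card_univ, nsmul_eq_mul]; field_simp)
    (fun y _ => by positivity) (p := t / s) (by rw [le_div_iff₀ hs0]; linarith)
  have h2 : ∑ y : V, (Fintype.card V : ℝ)⁻¹ * |f y| ^ s = avg (fun y => |f y| ^ s) := by
    unfold avg
    rw [← Finset.mul_sum, div_eq_inv_mul]
  have h3 : ∑ y : V, (Fintype.card V : ℝ)⁻¹ * (|f y| ^ s) ^ (t / s) = avg (fun y => |f y| ^ t) := by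
    have h4 : ∀ y : V, (|f y| ^ s) ^ (t / s) = |f y| ^ t := fun y => by
      rw [← Real.rpow_mul (abs_nonneg _), mul_div_cancel₀ _ hs0.ne']
    unfold avg
    simp only [h4]
    rw [← Finset.mul_sum, mul_comm, ← div_eq_mul_inv]
  rw [h2, h3] at h1
  have h0 : 0 ≤ avg (fun y => |f y| ^ s) := avg_nonneg fun y => by positivity
  unfold nrm
  calc (avg (fun y => |f y| ^ s)) ^ (1 / s)
      = ((avg (fun y => |f y| ^ s)) ^ (t / s)) ^ (1 / t) := by
        rw [← Real.rpow_mul h0]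
        congr 1
        field_simp
    _ ≤ _ := Real.rpow_le_rpow (by positivity) h1 (by positivity)

theorem nrm_pieces {q : ℝ} (hq : 1 ≤ q) {ι : Type*} {m : ℕ} (S : Finset ι) (hS : S.card ≤ m)
    (f : ι → V → ℝ) (hf : ∀ i y, 0 ≤ f i y) :
    ∑ i ∈ S, nrm q (f i) ≤ (m : ℝ) ^ (1 - 1 / q) * nrm q (fun y => ∑ i ∈ S, f i y) := by
  have hq0 : 0 < q := by linarith
  have h1 := Real.rpow_sum_le_const_mul_sum_rpow_of_nonneg (s := S) (f := fun i => nrm q (f i)) hq
    (fun i _ => nrm_nonneg q (f i))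
  have h2 : ∑ i ∈ S, nrm q (f i) ^ q ≤ avg (fun y => (∑ i ∈ S, f i y) ^ q) := by
    have : ∑ i ∈ S, nrm q (f i) ^ q = avg (fun y => ∑ i ∈ S, f i y ^ q) := by
      simp only [nrmB_rpow hq0 (hf _)]
      unfold avg
      rw [Finset.sum_comm, Finset.sum_div]
    rw [this]
    exact avg_mono fun y => nrmB_sum_rpow_le hq S _ (fun i => hf i y)
  have h3 : ((S.card : ℝ)) ^ (q - 1) ≤ (m : ℝ) ^ (q - 1) :=
    Real.rpow_le_rpow (Nat.cast_nonneg _) (Nat.cast_le.2 hS) (by linarith)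
  have h0 : 0 ≤ ∑ i ∈ S, nrm q (f i) := Finset.sum_nonneg fun i _ => nrm_nonneg q (f i)
  have h00 : 0 ≤ ∑ i ∈ S, nrm q (f i) ^ q := Finset.sum_nonneg fun i _ =>
    Real.rpow_nonneg (nrm_nonneg q (f i)) q
  have hm0 : (0 : ℝ) ≤ (m : ℝ) ^ (q - 1) := Real.rpow_nonneg (Nat.cast_nonneg _) _
  have h4 : (∑ i ∈ S, nrm q (f i)) ^ q ≤
      (m : ℝ) ^ (q - 1) * avg (fun y => (∑ i ∈ S, f i y) ^ q) :=
    h1.trans (mul_le_mul h3 h2 h00 hm0)
  have hav : 0 ≤ avg (fun y => (∑ i ∈ S, f i y) ^ q) :=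
    avg_nonneg fun y => Real.rpow_nonneg (Finset.sum_nonneg fun i _ => hf i y) q
  calc ∑ i ∈ S, nrm q (f i) = ((∑ i ∈ S, nrm q (f i)) ^ q) ^ (1 / q) := by
        rw [← Real.rpow_mul h0, mul_one_div_cancel hq0.ne', Real.rpow_one]
    _ ≤ ((m : ℝ) ^ (q - 1) * avg (fun y => (∑ i ∈ S, f i y) ^ q)) ^ (1 / q) :=
        Real.rpow_le_rpow (by positivity) h4 (by positivity)
    _ = (m : ℝ) ^ (1 - 1 / q) * nrm q (fun y => ∑ i ∈ S, f i y) := by
        rw [Real.mul_rpow hm0 hav, ← Real.rpow_mul (Nat.cast_nonneg _),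
          nrmB_avg_abs (fun y => Finset.sum_nonneg fun i _ => hf i y)]
        congr 2
        field_simp

theorem nrm_star {q : ℝ} (hq : 1 ≤ q) {Δ : ℕ} (hΔ : ∀ y, (nb G y).card ≤ Δ + 1) {f : V → ℝ}
    (hf : ∀ y, 0 ≤ f y) : nrm q (star G f) ≤ ((Δ : ℝ) + 1) * nrm q f := by
  classical
  have hq0 : 0 < q := by linarith
  have hsf : ∀ y, 0 ≤ star G f y := fun y => (hf y).trans (le_star_self G f y)
  have hn : (0 : ℝ) < Fintype.card V := Nat.cast_pos.2 Fintype.card_pos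
  have h1 : ∑ y, star G f y ^ q ≤ ((Δ : ℝ) + 1) * ∑ y, f y ^ q := by
    calc ∑ y, star G f y ^ q ≤ ∑ y, ∑ z ∈ nb G y, f z ^ q := by
          refine Finset.sum_le_sum fun y _ => ?_
          obtain ⟨z, hz, h⟩ := exists_star G f y
          rw [h]
          exact Finset.single_le_sum (f := fun z => f z ^ q)
            (fun z _ => Real.rpow_nonneg (hf z) q) hz
      _ = ∑ y, ∑ z, (if z ∈ nb G y then f z ^ q else 0) := by
          refine Finset.sum_congr rfl fun y _ => ?_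
          rw [← Finset.sum_filter]
          congr 1
          ext z; simp
      _ = ∑ z, ∑ y, (if y ∈ nb G z then f z ^ q else 0) := by
          rw [Finset.sum_comm]
          refine Finset.sum_congr rfl fun z _ => Finset.sum_congr rfl fun y _ => ?_
          simp only [mem_nb_comm G (y := y) (z := z)]
      _ = ∑ z, ((nb G z).card : ℝ) * f z ^ q := by
          refine Finset.sum_congr rfl fun z _ => ?_
          rw [← Finset.sum_filter, Finset.sum_const, nsmul_eq_mul]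
          congr 3
          ext y; simp
      _ ≤ ∑ z, ((Δ : ℝ) + 1) * f z ^ q := by
          refine Finset.sum_le_sum fun z _ => mul_le_mul_of_nonneg_right ?_
            (Real.rpow_nonneg (hf z) q)
          exact_mod_cast hΔ z
      _ = _ := (Finset.mul_sum _ _ _).symm
  have h2 : avg (fun y => star G f y ^ q) ≤ ((Δ : ℝ) + 1) * avg (fun y => f y ^ q) := by
    unfold avg
    rw [← mul_div_assoc]
    exact div_le_div_of_nonneg_right h1 hn.le
  have hav : 0 ≤ avg (fun y => f y ^ q) := avg_nonneg fun y => Real.rpow_nonneg (hf y) q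
  have hav' : 0 ≤ avg (fun y => star G f y ^ q) := avg_nonneg fun y => Real.rpow_nonneg (hsf y) q
  rw [nrmB_avg_abs hsf, nrmB_avg_abs hf]
  have hD : (0 : ℝ) ≤ (Δ : ℝ) + 1 := by positivity
  calc (avg (fun y => star G f y ^ q)) ^ (1 / q)
      ≤ (((Δ : ℝ) + 1) * avg (fun y => f y ^ q)) ^ (1 / q) :=
        Real.rpow_le_rpow hav' h2 (by positivity)
    _ = ((Δ : ℝ) + 1) ^ (1 / q) * (avg (fun y => f y ^ q)) ^ (1 / q) := Real.mul_rpow hD hav
    _ ≤ ((Δ : ℝ) + 1) * (avg (fun y => f y ^ q)) ^ (1 / q) := by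
        refine mul_le_mul_of_nonneg_right ?_ (Real.rpow_nonneg hav _)
        calc ((Δ : ℝ) + 1) ^ (1 / q) ≤ ((Δ : ℝ) + 1) ^ (1 : ℝ) := by
              refine Real.rpow_le_rpow_of_exponent_le ?_ ?_
              · have : (0 : ℝ) ≤ Δ := Nat.cast_nonneg _
                linarith
              · rw [div_le_one hq0]; exact hq
          _ = _ := Real.rpow_one _

theorem nrmB_of_sum {K q : ℝ} (hK : 0 ≤ K) (hq : 1 ≤ q) {u w : V → ℝ} (hu : ∀ y, 0 ≤ u y)
    (hw : ∀ y, 0 ≤ w y) (h : K * ∑ y, u y ^ q ≤ ∑ y, w y ^ q) :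
    K ^ (1 / q) * nrm q u ≤ nrm q w := by
  have hq0 : 0 < q := by linarith
  have hn : (0 : ℝ) < Fintype.card V := Nat.cast_pos.2 Fintype.card_pos
  have hau : 0 ≤ avg (fun y => u y ^ q) := avg_nonneg fun y => Real.rpow_nonneg (hu y) q
  rw [nrmB_avg_abs hu, nrmB_avg_abs hw, ← Real.mul_rpow hK hau]
  refine Real.rpow_le_rpow (mul_nonneg hK hau) ?_ (by positivity)
  unfold avg
  rw [← mul_div_assoc]
  exact div_le_div_of_nonneg_right h hn.le

open Classical in
theorem nrm_exp_pos {α q : ℝ} (hE : Expd G α) (hα : 0 ≤ α) (hq : 1 ≤ q) (f : V → ℝ) (a : ℝ)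
    (ha : 2 * (Finset.univ.filter (fun y => a < f y)).card ≤ Fintype.card V) :
    (1 + α) ^ (1 / q) * nrm q (fun y => max (f y - a) 0) ≤
      nrm q (fun y => max (star G f y - a) 0) :=
  nrmB_of_sum (by linarith) hq (fun _ => le_max_right _ _) (fun _ => le_max_right _ _)
    (exp_pos hE hα hq f a ha)

open Classical in
theorem nrm_exp_neg {α q : ℝ} (hE : Expd G α) (hα : 0 ≤ α) (hq : 1 ≤ q) (f : V → ℝ) (a : ℝ)
    (ha : 2 * (Finset.univ.filter (fun y => f y < a)).card ≤ Fintype.card V) :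
    (1 + α) ^ (1 / q) * nrm q (fun y => max (a - star G f y) 0) ≤
      nrm q (fun y => max (a - f y) 0) :=
  nrmB_of_sum (by linarith) hq (fun _ => le_max_right _ _) (fun _ => le_max_right _ _)
    (exp_neg hE hα hq f a ha)

theorem holder {ι : Type*} (S : Finset ι) {P q : ℝ} (hP : 1 < P) (hpq : 1 / P + 1 / q = 1)
    {f g : ι → ℝ} (hf : ∀ i, 0 ≤ f i) (hg : ∀ i, 0 ≤ g i) :
    ∑ i ∈ S, f i * g i ≤ (∑ i ∈ S, f i ^ q) ^ (1 / q) * (∑ i ∈ S, g i ^ P) ^ (1 / P) := by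
  have h : P.HolderConjugate q := by
    rw [Real.holderConjugate_iff]
    exact ⟨hP, by simpa [one_div] using hpq⟩
  exact Real.inner_le_Lp_mul_Lq_of_nonneg S h.symm (fun i _ => hf i) (fun i _ => hg i)

end Pool.Agent.H86.MT
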