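import Pool.Agent.H86.MT.InvB
import Pool.Agent.H86.MT.ClB
import Pool.Agent.H86.MT.NrmB

/-!
MT-PAIR. The pair identity and the total loss (section 4 of h86_transitive.md).
`s, r` are two independent histories; `hd` is the current position.

* `EE_phm_cc`: for fixed `r` the expectation of `phm s (hd r)` is `E l (avg (phm s))` (`E_pos_avg`).
* `EE_cross`: `E[phi s (hd r) cc r] = 0` (`E_phi`), so
  `EE l l' ((phi + cc)(phi' + cc')) = EE l l' Phi + E l cc * E l' cc`.
-/

set_option autoImplicit false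
set_option linter.unusedSectionVars false

open N6ef48c04

namespace Pool.Agent.H86.MT

variable {V : Type} [Fintype V] [Nonempty V] {G : SimpleGraph V} {p : List V → V → ℝ} {N : ℕ}

/-- the two expectations commute -/
private theorem pc_EE_swap (l l' : ℕ) (f : List V → List V → ℝ) :
    EE p l l' f = E p l' (fun r => E p l (fun s => f s r)) := by
  unfold EE E
  exact F_swap l l' f [] []

private theorem pc_E_add (l : ℕ) (f g : List V → ℝ) : E p l (fun s => f s + g s) = E p l f + E p l g :=
  F_add l f g []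

private theorem pc_E_mul_left' (l : ℕ) (a : ℝ) (f : List V → ℝ) : E p l (fun s => a * f s) = a * E p l f :=
  F_mul l a f []

private theorem pc_E_mul_right' (l : ℕ) (a : ℝ) (f : List V → ℝ) : E p l (fun s => f s * a) = E p l f * a :=
  F_mul_right l a f []

private theorem pc_EE_add (l l' : ℕ) (f g : List V → List V → ℝ) :
    EE p l l' (fun s r => f s r + g s r) = EE p l l' f + EE p l l' g := by
  unfold EE
  rw [← pc_E_add]
  congr 1
  funext s
  exact pc_E_add l' _ _

private theorem pc_phm_le_abs (s : List V) (y : V) : phm G p N s y ≤ |phi G p N s y| := by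
  rw [abs_phi]
  have := php_nonneg (G := G) (p := p) (N := N) s y
  linarith

private theorem pc_avg_phm_le_nrm {P : ℝ} (hP : 1 ≤ P) (s : List V) :
    avg (phm G p N s) ≤ nrm P (phm G p N s) := by
  have h1 : avg (phm G p N s) = nrm 1 (phm G p N s) := by
    rw [nrm_one]
    congr 1
    funext y
    rw [abs_of_nonneg (phm_nonneg s y)]
  rw [h1]
  exact nrm_le_nrm le_rfl hP _

private theorem pc_E_phm_le (hL : IsLaw G p) (hI : IsInv G p) (hT : VT G) {P : ℝ} (hP : 1 ≤ P) (l : ℕ) (y : V) :
    E p l (fun s => phm G p N s y) ≤ E p l (fun s => nrm P (phm G p N s)) := by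
  rw [E_pos_avg hI hT (phm_inv hI) l y]
  exact F_mono hL.nonneg fun s => pc_avg_phm_le_nrm hP s

private theorem pc_E_cc_nonneg (hL : IsLaw G p) {l : ℕ} (hl : l < N) : 0 ≤ E p l (cc G p N) :=
  F_nonneg hL.nonneg fun s hs => cc_nonneg hL (by
    rw [hs, List.length_nil]
    omega)

theorem EE_phm_cc (hL : IsLaw G p) (hI : IsInv G p) (hT : VT G) {P : ℝ} (hP : 1 ≤ P) {l l' : ℕ}
    (hl' : l' < N) :
    EE p l l' (fun s r => phm G p N s (hd r) * cc G p N r) ≤
      E p l (fun s => nrm P (phm G p N s)) * E p l' (cc G p N) := by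
  rw [pc_EE_swap, ← pc_E_mul_left']
  refine F_mono_of hL.nonneg fun r hr => ?_
  have hlen : r.length < N := by
    rw [hr, List.length_nil]
    omega
  have h1 : E p l (fun s => phm G p N s (hd r) * cc G p N r) =
      E p l (fun s => phm G p N s (hd r)) * cc G p N r := pc_E_mul_right' l _ _
  show E p l (fun s => phm G p N s (hd r) * cc G p N r) ≤ _
  rw [h1]
  exact mul_le_mul_of_nonneg_right (pc_E_phm_le hL hI hT hP l _) (cc_nonneg hL hlen)

theorem EE_phm_cc' (hL : IsLaw G p) (hI : IsInv G p) (hT : VT G) {P : ℝ} (hP : 1 ≤ P) {l l' : ℕ}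
    (hl : l < N) :
    EE p l l' (fun s r => phm G p N r (hd s) * cc G p N s) ≤
      E p l' (fun s => nrm P (phm G p N s)) * E p l (cc G p N) := by
  rw [← pc_E_mul_left']
  refine F_mono_of hL.nonneg fun s hs => ?_
  have hlen : s.length < N := by
    rw [hs, List.length_nil]
    omega
  have h1 : E p l' (fun r => phm G p N r (hd s) * cc G p N s) =
      E p l' (fun r => phm G p N r (hd s)) * cc G p N s := pc_E_mul_right' l' _ _
  show E p l' (fun r => phm G p N r (hd s) * cc G p N s) ≤ _
  rw [h1]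
  exact mul_le_mul_of_nonneg_right (pc_E_phm_le hL hI hT hP l' _) (cc_nonneg hL hlen)

theorem EE_cross (hL : IsLaw G p) (hI : IsInv G p) (hT : VT G) (l l' : ℕ) :
    EE p l l' (fun s r => (phi G p N s (hd r) + cc G p N s) * (phi G p N r (hd s) + cc G p N r)) =
      EE p l l' (Phi G p N) + E p l (cc G p N) * E p l' (cc G p N) := by
  have h0 : (fun s r : List V => (phi G p N s (hd r) + cc G p N s) *
      (phi G p N r (hd s) + cc G p N r)) =
      fun s r : List V => (Phi G p N s r + phi G p N s (hd r) * cc G p N r) +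
        (phi G p N r (hd s) * cc G p N s + cc G p N s * cc G p N r) := by
    funext s r
    unfold Phi
    ring
  rw [h0, pc_EE_add, pc_EE_add, pc_EE_add]
  have h1 : EE p l l' (fun s r => phi G p N s (hd r) * cc G p N r) = 0 := by
    rw [pc_EE_swap]
    have : (fun r : List V => E p l (fun s => phi G p N s (hd r) * cc G p N r)) =
        fun _ => (0 : ℝ) := by
      funext r
      rw [pc_E_mul_right', E_phi hI hT, zero_mul]
    rw [this]
    exact F_const hL.sum_one _ _ _
  have h2 : EE p l l' (fun s r => phi G p N r (hd s) * cc G p N s) = 0 := by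
    unfold EE
    have : (fun s : List V => E p l' (fun r => phi G p N r (hd s) * cc G p N s)) =
        fun _ => (0 : ℝ) := by
      funext s
      rw [pc_E_mul_right', E_phi hI hT, zero_mul]
    rw [this]
    exact F_const hL.sum_one _ _ _
  have h3 : EE p l l' (fun s r => cc G p N s * cc G p N r) =
      E p l (cc G p N) * E p l' (cc G p N) := by
    unfold EE
    have : (fun s : List V => E p l' (fun r => cc G p N s * cc G p N r)) =
        fun s => cc G p N s * E p l' (cc G p N) := by
      funext s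
      exact pc_E_mul_left' _ _ _
    rw [this]
    exact pc_E_mul_right' _ _ _
  rw [h1, h2, h3]
  have h4 : EE p l l' (fun s r => Phi G p N s r) = EE p l l' (Phi G p N) := rfl
  rw [h4]
  ring

private theorem pc_abs_E_le (hL : IsLaw G p) (l : ℕ) (f g : List V → ℝ) (h : ∀ s, |f s| ≤ g s) :
    |E p l f| ≤ E p l g := by
  rw [abs_le]
  constructor
  · have h1 : E p l (fun s => - g s) ≤ E p l f := F_mono hL.nonneg fun s => (abs_le.1 (h s)).1
    have h2 : E p l (fun s => - g s) = - E p l g := F_neg _ _ _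
    rw [h2] at h1
    exact h1
  · exact F_mono hL.nonneg fun s => (abs_le.1 (h s)).2

private theorem pc_abs_phi_inv (hI : IsInv G p) : Inv2 G (fun s y => |phi G p N s y|) := by
  intro g h y
  show |phi G p N (h.map g) (g y)| = |phi G p N h y|
  rw [phi_inv hI g h y]

theorem abs_EE_Phi (hL : IsLaw G p) (hI : IsInv G p) (hT : VT G) {l l' : ℕ} :
    |EE p l l' (Phi G p N)| ≤ E p l (fun s => avg (fun y => |phi G p N s y|)) ∧
    |EE p l l' (Phi G p N)| ≤ E p l' (fun s => avg (fun y => |phi G p N s y|)) := by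
  have key : ∀ s r : List V, |Phi G p N s r| ≤ |phi G p N s (hd r)| ∧
      |Phi G p N s r| ≤ |phi G p N r (hd s)| := by
    intro s r
    unfold Phi
    rw [abs_mul]
    have h1 := abs_phi_le_one (N := N) hL s (hd r)
    have h2 := abs_phi_le_one (N := N) hL r (hd s)
    have h3 := abs_nonneg (phi G p N s (hd r))
    have h4 := abs_nonneg (phi G p N r (hd s))
    constructor <;> nlinarith
  constructor
  · rw [pc_EE_swap]
    have h5 : ∀ r : List V, |E p l (fun s => Phi G p N s r)| ≤
        E p l (fun s => avg (fun y => |phi G p N s y|)) := by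
      intro r
      refine (pc_abs_E_le hL l _ (fun s => |phi G p N s (hd r)|) fun s => (key s r).1).trans ?_
      exact (E_pos_avg hI hT (pc_abs_phi_inv hI) l (hd r)).le
    refine (pc_abs_E_le hL l' _ (fun _ => E p l (fun s => avg (fun y => |phi G p N s y|))) h5).trans ?_
    exact (F_const hL.sum_one _ _ _).le
  · unfold EE
    have h5 : ∀ s : List V, |E p l' (fun r => Phi G p N s r)| ≤
        E p l' (fun r => avg (fun y => |phi G p N r y|)) := by
      intro s
      refine (pc_abs_E_le hL l' _ (fun r => |phi G p N r (hd s)|) fun r => (key s r).2).trans ?_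
      exact (E_pos_avg hI hT (pc_abs_phi_inv hI) l' (hd s)).le
    refine (pc_abs_E_le hL l _ (fun _ => E p l' (fun r => avg (fun y => |phi G p N r y|))) h5).trans ?_
    exact (F_const hL.sum_one _ _ _).le

private theorem pc_sum_Ico_tele (f : ℕ → ℝ) {a b : ℕ} (hab : a ≤ b) :
    ∑ l ∈ Finset.Ico a b, (f l - f (l + 1)) = f a - f b := by
  induction b, hab using Nat.le_induction with
  | base => simp
  | succ b hab ih =>
    rw [Finset.sum_Ico_succ_top hab, ih]
    ring

private theorem pc_sum_Ico_le_of_abs (f : ℕ → ℝ) {a b : ℕ} (hab : a ≤ b) {η : ℝ}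
    (h : ∀ l, |f l| ≤ η) : |∑ l ∈ Finset.Ico a b, f l| ≤ ((b : ℝ) - a) * η := by
  calc |∑ l ∈ Finset.Ico a b, f l| ≤ ∑ l ∈ Finset.Ico a b, |f l| := Finset.abs_sum_le_sum_abs _ _
    _ ≤ ∑ _l ∈ Finset.Ico a b, η := Finset.sum_le_sum fun l _ => h l
    _ = ((b : ℝ) - a) * η := by
        rw [Finset.sum_const, Nat.card_Ico, nsmul_eq_mul, Nat.cast_sub hab]

theorem diag_telescope (X : ℕ → ℕ → ℝ) {a b : ℕ} (hab : a ≤ b) {η : ℝ}
    (h1 : ∀ l, |X a l| ≤ η ∧ |X l a| ≤ η) (h2 : ∀ l, |X b l| ≤ η ∧ |X l b| ≤ η) :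
    ∑ l ∈ Finset.Ico a b, ∑ l' ∈ Finset.Ico a b, (X l l' - X (l + 1) (l' + 1)) ≤
      4 * ((b : ℝ) - a) * η := by
  have step : ∀ l, ∑ l' ∈ Finset.Ico a b, (X l l' - X (l + 1) (l' + 1)) =
      ((∑ l' ∈ Finset.Ico a b, X l l') - ∑ l' ∈ Finset.Ico a b, X (l + 1) l') +
        (X (l + 1) a - X (l + 1) b) := by
    intro l
    rw [← pc_sum_Ico_tele (fun l' => X (l + 1) l') hab, ← Finset.sum_sub_distrib,
      ← Finset.sum_add_distrib]
    refine Finset.sum_congr rfl fun l' _ => ?_
    ring
  simp only [step]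
  rw [Finset.sum_add_distrib,
    pc_sum_Ico_tele (fun l => ∑ l' ∈ Finset.Ico a b, X l l') hab, Finset.sum_sub_distrib]
  have e1 := (abs_le.1 (pc_sum_Ico_le_of_abs (fun l' => X a l') hab fun l => (h1 l).1)).2
  have e2 := (abs_le.1 (pc_sum_Ico_le_of_abs (fun l' => X b l') hab fun l => (h2 l).1)).1
  have e3 := (abs_le.1 (pc_sum_Ico_le_of_abs (fun l => X (l + 1) a) hab fun l => (h1 (l + 1)).2)).2
  have e4 := (abs_le.1 (pc_sum_Ico_le_of_abs (fun l => X (l + 1) b) hab fun l => (h2 (l + 1)).2)).1
  linarith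

end Pool.Agent.H86.MT
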