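import Pool.Agent.H86.MT.PairB
import Pool.Agent.H86.MT.PairC
import Pool.Agent.H86.MT.LpC

/-!
MT-PAIR. The pair identity and the total loss (section 4 of h86_transitive.md).
`s, r` are two independent histories; `hd` is the current position.

* `pair_total` (4.2): put everything together:
  `∑∑ EE lossP = ∑∑ (EE Phi - EE FF 1 Phi) + ∑∑ E cc * E cc + ∑∑ EE lossN`.
-/

set_option autoImplicit false
set_option linter.unusedSectionVars false

open N6ef48c04

namespace Pool.Agent.H86.MT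

variable {V : Type} [Fintype V] [Nonempty V] {G : SimpleGraph V} {p : List V → V → ℝ} {N : ℕ}

private theorem EE_add' (l l' : ℕ) (f g : List V → List V → ℝ) :
    EE p l l' (fun s r => f s r + g s r) = EE p l l' f + EE p l l' g := by
  unfold EE E
  rw [← F_add]
  congr 1
  funext s
  exact F_add _ _ _ _

private theorem EE_sub' (l l' : ℕ) (f g : List V → List V → ℝ) :
    EE p l l' (fun s r => f s r - g s r) = EE p l l' f - EE p l l' g := by
  unfold EE E
  rw [← F_sub]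
  congr 1
  funext s
  exact F_sub _ _ _ _

private theorem EE_congr_of {l l' : ℕ} {f g : List V → List V → ℝ}
    (h : ∀ s r : List V, s.length = l → r.length = l' → f s r = g s r) :
    EE p l l' f = EE p l l' g := by
  unfold EE E
  exact F_congr_of fun s hs => F_congr_of fun r hr => h s r (by simpa using hs) (by simpa using hr)

private theorem key (hL : IsLaw G p) (hI : IsInv G p) (hT : VT G) {l l' : ℕ} (hl : l < N)
    (hl' : l' < N) :
    EE p l l' (Loss G p N) =
      (EE p l l' (Phi G p N) - EE p (l + 1) (l' + 1) (Phi G p N)) +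
        E p l (cc G p N) * E p l' (cc G p N) + EE p l l' (lossN G p N) +
        EE p l l' (fun s r => phm G p N s (hd r) * cc G p N r) +
        EE p l l' (fun s r => phm G p N r (hd s) * cc G p N s) := by
  have e1 : EE p l l' (FF p 1 (Phi G p N)) =
      EE p l l' (fun s r => (phi G p N s (hd r) + cc G p N s) * (phi G p N r (hd s) + cc G p N r)) -
        EE p l l' (lossP G p N) + EE p l l' (lossN G p N) := by
    rw [← EE_sub', ← EE_add']
    refine EE_congr_of fun s r hs hr => ?_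
    exact FF_one_Phi hL (hs ▸ hl) (hr ▸ hl')
  rw [← EE_succ, EE_cross hL hI hT] at e1
  have e2 : EE p l l' (Loss G p N) = EE p l l' (lossP G p N) +
      EE p l l' (fun s r => phm G p N s (hd r) * cc G p N r) +
      EE p l l' (fun s r => phm G p N r (hd s) * cc G p N s) := by
    rw [← EE_add', ← EE_add']
    rfl
  rw [e2]
  linarith

/-- (4.2) -/
theorem pair_total (hL : IsLaw G p) (hI : IsInv G p) (hT : VT G) {Δ : ℕ} {α P q : ℝ}
    (hpar : Par Δ α P q) (hE : Expd G α) (hΔ : ∀ y, (nb G y).card ≤ Δ + 1) {a b : ℕ} (ha : 1 ≤ a)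
    (hab : a ≤ b) (hb : b ≤ N) {η : ℝ}
    (h1 : E p a (fun s => avg (fun y => |phi G p N s y|)) ≤ η)
    (h2 : E p b (fun s => avg (fun y => |phi G p N s y|)) ≤ η) :
    ∑ l ∈ Finset.Ico a b, ∑ l' ∈ Finset.Ico a b, EE p l l' (Loss G p N) ≤
      4 * ((b : ℝ) - a) * η + 1 +
        2 * (((Δ : ℝ) + 1) ^ 2 * cp α P + cm α P) * cm α P + 2 * cm α P := by
  have hP1 : 1 ≤ P := le_trans (by norm_num) hpar.hP
  set X : ℕ → ℕ → ℝ := fun l l' => EE p l l' (Phi G p N) with hX
  set c : ℕ → ℝ := fun l => E p l (cc G p N) with hc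
  set B : ℕ → ℝ := fun l => E p l (fun s => nrm P (phm G p N s)) with hB
  set Q : ℕ → ℝ := fun l => E p l (fun s => nrm q (php G p N s)) with hQ
  set K : ℝ := ((Δ : ℝ) + 1) ^ 2 with hK
  have hK0 : 0 ≤ K := by positivity
  have hB0 : ∀ l, 0 ≤ B l := fun l => F_nonneg hL.nonneg fun s _ => nrm_nonneg _ _
  have hQ0 : ∀ l, 0 ≤ Q l := fun l => F_nonneg hL.nonneg fun s _ => nrm_nonneg _ _
  have hc0 : ∀ l, l < N → 0 ≤ c l := fun l hl => F_nonneg hL.nonneg fun s hs =>
    cc_nonneg hL (by simp at hs; omega)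
  -- sums
  have sc : ∑ l ∈ Finset.Ico a b, c l ≤ 1 := by
    refine le_trans ?_ ((sum_cc (N := N) hL).trans (v_le_one hL []))
    refine Finset.sum_le_sum_of_subset_of_nonneg (fun l hl => ?_) fun l hl _ => ?_
    · rw [Finset.mem_Ico] at hl
      rw [Finset.mem_range]
      omega
    · exact hc0 l (Finset.mem_range.1 hl)
  have sc0 : 0 ≤ ∑ l ∈ Finset.Ico a b, c l := Finset.sum_nonneg fun l hl => by
    rw [Finset.mem_Ico] at hl
    exact hc0 l (by omega)
  have hBsum : ∑ l ∈ Finset.range (N + 1), B l ≤ cm α P := sum_phm hL hpar.hα hP1 hE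
  have hQsum : ∑ l ∈ Finset.range (N + 1), Q l ≤ cp α P := sum_php hL hpar hE hΔ
  have sB : ∑ l ∈ Finset.Ico a b, B l ≤ cm α P := by
    refine le_trans (Finset.sum_le_sum_of_subset_of_nonneg (fun l hl => ?_) fun l hl _ => hB0 l)
      hBsum
    rw [Finset.mem_Ico] at hl
    rw [Finset.mem_range]
    omega
  have shift : ∀ f : ℕ → ℝ, (∀ l, 0 ≤ f l) →
      ∑ l ∈ Finset.Ico a b, f (l + 1) ≤ ∑ l ∈ Finset.range (N + 1), f l := by
    intro f hf
    rw [Finset.sum_Ico_add' f a b 1]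
    refine Finset.sum_le_sum_of_subset_of_nonneg (fun l hl => ?_) fun l hl _ => hf l
    rw [Finset.mem_Ico] at hl
    rw [Finset.mem_range]
    omega
  have sB1 : ∑ l ∈ Finset.Ico a b, B (l + 1) ≤ cm α P := (shift B hB0).trans hBsum
  have sQ1 : ∑ l ∈ Finset.Ico a b, Q (l + 1) ≤ cp α P := (shift Q hQ0).trans hQsum
  have sB10 : 0 ≤ ∑ l ∈ Finset.Ico a b, B (l + 1) := Finset.sum_nonneg fun l _ => hB0 _
  have sB0 : 0 ≤ ∑ l ∈ Finset.Ico a b, B l := Finset.sum_nonneg fun l _ => hB0 _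
  have sQ10 : 0 ≤ ∑ l ∈ Finset.Ico a b, Q (l + 1) := Finset.sum_nonneg fun l _ => hQ0 _
  have hcm0 : 0 ≤ cm α P := sB0.trans sB
  -- products of sums
  have prod : ∀ f g : ℕ → ℝ, ∑ l ∈ Finset.Ico a b, ∑ l' ∈ Finset.Ico a b, f l * g l' =
      (∑ l ∈ Finset.Ico a b, f l) * ∑ l ∈ Finset.Ico a b, g l := fun f g => by
    rw [Finset.sum_mul_sum]
  -- the main identity
  have e0 : ∑ l ∈ Finset.Ico a b, ∑ l' ∈ Finset.Ico a b, EE p l l' (Loss G p N) ≤
      ∑ l ∈ Finset.Ico a b, ∑ l' ∈ Finset.Ico a b, ((X l l' - X (l + 1) (l' + 1)) + c l * c l' +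
        ((K * Q (l + 1) + B (l + 1)) * B (l' + 1) + B (l + 1) * (K * Q (l' + 1) + B (l' + 1))) +
        B l * c l' + c l * B l') := by
    refine Finset.sum_le_sum fun l hl => Finset.sum_le_sum fun l' hl' => ?_
    rw [Finset.mem_Ico] at hl hl'
    rw [key hL hI hT (by omega) (by omega)]
    have i1 := EE_lossN (N := N) hL hI hT hpar hΔ (l := l) (l' := l') (by omega) (by omega)
    have i2 := EE_phm_cc (N := N) hL hI hT hP1 (l := l) (l' := l') (by omega)
    have i3 := EE_phm_cc' (N := N) hL hI hT hP1 (l := l) (l' := l') (by omega)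
    simp only [hX, hc, hB, hQ, hK]
    linarith
  refine e0.trans ?_
  simp only [Finset.sum_add_distrib]
  rw [prod c c, prod B c, prod c B, prod (fun l => K * Q (l + 1) + B (l + 1)) (fun l => B (l + 1)),
    prod (fun l => B (l + 1)) (fun l => K * Q (l + 1) + B (l + 1))]
  have t0 := diag_telescope X hab (η := η)
    (fun l => ⟨(abs_EE_Phi hL hI hT (l := a) (l' := l)).1.trans h1,
      (abs_EE_Phi hL hI hT (l := l) (l' := a)).2.trans h1⟩)
    (fun l => ⟨(abs_EE_Phi hL hI hT (l := b) (l' := l)).1.trans h2,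
      (abs_EE_Phi hL hI hT (l := l) (l' := b)).2.trans h2⟩)
  have hKQ : ∑ l ∈ Finset.Ico a b, (K * Q (l + 1) + B (l + 1)) ≤ K * cp α P + cm α P := by
    rw [Finset.sum_add_distrib, ← Finset.mul_sum]
    exact add_le_add (mul_le_mul_of_nonneg_left sQ1 hK0) sB1
  have hKQ0 : 0 ≤ ∑ l ∈ Finset.Ico a b, (K * Q (l + 1) + B (l + 1)) :=
    Finset.sum_nonneg fun l _ => add_nonneg (mul_nonneg hK0 (hQ0 _)) (hB0 _)
  have u1 : (∑ l ∈ Finset.Ico a b, c l) * ∑ l ∈ Finset.Ico a b, c l ≤ 1 := by nlinarith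
  have u2 : (∑ l ∈ Finset.Ico a b, B l) * ∑ l ∈ Finset.Ico a b, c l ≤ cm α P := by
    calc _ ≤ cm α P * 1 := mul_le_mul sB sc sc0 hcm0
      _ = _ := mul_one _
  have u3 : (∑ l ∈ Finset.Ico a b, c l) * ∑ l ∈ Finset.Ico a b, B l ≤ cm α P := by
    rw [mul_comm]
    exact u2
  have u4 : (∑ l ∈ Finset.Ico a b, (K * Q (l + 1) + B (l + 1))) * ∑ l ∈ Finset.Ico a b, B (l + 1) ≤
      (K * cp α P + cm α P) * cm α P :=
    mul_le_mul hKQ sB1 sB10 (hKQ0.trans hKQ)
  have u5 : (∑ l ∈ Finset.Ico a b, B (l + 1)) * ∑ l ∈ Finset.Ico a b, (K * Q (l + 1) + B (l + 1)) ≤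
      (K * cp α P + cm α P) * cm α P := by
    rw [mul_comm]
    exact u4
  linarith

end Pool.Agent.H86.MT
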