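import Pool.Agent.H86.MT.PrB
import Pool.Agent.H86.MT.ClA

/-!
MT-PRED. Coincidences are predictable (section 6 of h86_transitive.md).

* `pred_total`: for `(u, u')` in `[a + D, b + 1 - D)^2`: if `hd s = hd r` and `¬ Prd s` then one of:
  (i) `v s > 1/8`, (ii) `v r > 1/8`, (iii) `good s r` and `age s r = i < N0`: then the pair `i` steps ago has age `0` (`age_drop`) and
  lies in `[a, b + 1 - D)^2`; (iv) `good s r`, `age s r = i ∈ [N0, D)`: then `hd (s.drop i) = hd (r.drop i)` and
  `hd s ∉ S i (hd (s.drop i))` (as `¬ Prd s`, `a + i ≤ u`). Sum over `(u, u')`: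
  (i), (ii): `≤ 8 ε |J|^2/n` each (Markov: `E u 1[v > 1/8] ≤ 8 E u v ≤ 8 ε`); (iii): `≤ N0 * CL2` with
  `CL2` a bound for the number of starts; (iv): `∑_{i ≥ N0} (b-a)^2/n exp(-c0 i)` (geometric series).
-/

set_option autoImplicit false
set_option linter.unusedSectionVars false

open N6ef48c04

namespace Pool.Agent.H86.MT

variable {V : Type} [Fintype V] [Nonempty V] {G : SimpleGraph V} {p : List V → V → ℝ} {N : ℕ}

namespace PrCaux

theorem EE_add (l l' : ℕ) (f g : List V → List V → ℝ) :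
    EE p l l' (fun s r => f s r + g s r) = EE p l l' f + EE p l l' g := by
  unfold EE E
  rw [← F_add]
  congr 1
  funext s
  exact F_add _ _ _ _

theorem EE_sum {ι : Type*} (S : Finset ι) (l l' : ℕ) (f : ι → List V → List V → ℝ) :
    EE p l l' (fun s r => ∑ i ∈ S, f i s r) = ∑ i ∈ S, EE p l l' (f i) := by
  unfold EE E
  rw [← F_sum]
  congr 1
  funext s
  exact F_sum _ _ _ _

theorem EE_nonneg (hL : IsLaw G p) (l l' : ℕ) {f : List V → List V → ℝ} (hf : ∀ s r, 0 ≤ f s r) :
    0 ≤ EE p l l' f :=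
  F_nonneg hL.nonneg fun s _ => F_nonneg hL.nonneg fun r _ => hf s r

theorem EE_mono_of (hL : IsLaw G p) {l l' : ℕ} {f g : List V → List V → ℝ}
    (hfg : ∀ s r : List V, s.length = l → r.length = l' → f s r ≤ g s r) :
    EE p l l' f ≤ EE p l l' g := by
  unfold EE E
  refine F_mono_of hL.nonneg fun s hs => F_mono_of hL.nonneg fun r hr => hfg s r ?_ ?_
  · simpa using hs
  · simpa using hr

theorem FF_const (hL : IsLaw G p) (k : ℕ) (h h' : List V) :
    FF p k (fun _ _ => (1 : ℝ)) h h' = 1 := by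
  unfold FF
  rw [F_const hL.sum_one, F_const hL.sum_one]

theorem EE_drop (hL : IsLaw G p) (l l' i : ℕ) (w : List V → List V → ℝ) :
    EE p (l + i) (l' + i) (fun s r => w (s.drop i) (r.drop i)) = EE p l l' w := by
  have h := EE_FF_weight (p := p) l l' i w (fun _ _ => (1 : ℝ))
  simp only [FF_const hL, mul_one] at h
  exact h

theorem sum_shift_le (g : ℕ → ℝ) (hg : ∀ w, 0 ≤ g w) {A B a' i : ℕ} (hi : a' + i ≤ A) :
    ∑ u ∈ Finset.Ico A B, g (u - i) ≤ ∑ w ∈ Finset.Ico a' B, g w := by
  have hinj : Set.InjOn (fun u => u - i) (Finset.Ico A B : Finset ℕ) := by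
    intro u hu u' hu' h
    rw [Finset.coe_Ico, Set.mem_Ico] at hu hu'
    simp only at h
    omega
  have h1 : ∑ u ∈ Finset.Ico A B, g (u - i) =
      ∑ w ∈ (Finset.Ico A B).image (fun u => u - i), g w :=
    (Finset.sum_image hinj).symm
  rw [h1]
  refine Finset.sum_le_sum_of_subset_of_nonneg ?_ fun w _ _ => hg w
  intro w hw
  obtain ⟨u, hu, rfl⟩ := Finset.mem_image.1 hw
  rw [Finset.mem_Ico] at hu ⊢
  omega

theorem sum_shift_le2 (g : ℕ → ℕ → ℝ) (hg : ∀ w w', 0 ≤ g w w') {A B a' i : ℕ} (hi : a' + i ≤ A) :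
    ∑ u ∈ Finset.Ico A B, ∑ u' ∈ Finset.Ico A B, g (u - i) (u' - i) ≤
      ∑ w ∈ Finset.Ico a' B, ∑ w' ∈ Finset.Ico a' B, g w w' := by
  calc ∑ u ∈ Finset.Ico A B, ∑ u' ∈ Finset.Ico A B, g (u - i) (u' - i)
      ≤ ∑ u ∈ Finset.Ico A B, ∑ w' ∈ Finset.Ico a' B, g (u - i) w' :=
        Finset.sum_le_sum fun u _ => sum_shift_le (fun w' => g (u - i) w') (fun w' => hg _ _) hi
    _ ≤ _ := sum_shift_le (fun w => ∑ w' ∈ Finset.Ico a' B, g w w')
        (fun w => Finset.sum_nonneg fun w' _ => hg _ _) hi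

theorem geom_le {c0 : ℝ} (hc0 : 0 < c0) (N0 D : ℕ) :
    ∑ i ∈ Finset.Ico N0 D, Real.exp (-(c0 * i)) ≤ Real.exp (-(c0 * N0)) / (1 - Real.exp (-c0)) := by
  have h1 : ∀ i : ℕ, Real.exp (-(c0 * i)) = Real.exp (-c0) ^ i := by
    intro i
    rw [← Real.exp_nat_mul]
    congr 1
    ring
  simp only [h1]
  exact geom_sum_Ico_le_of_lt_one (Real.exp_pos _).le (by rw [Real.exp_lt_one_iff]; linarith)

end PrCaux

open PrCaux

open Classical in
theorem pred_total (hL : IsLaw G p) (hI : IsInv G p) (hT : VT G) {ε : ℝ} (hε : v G p N [] ≤ ε)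
    {c0 : ℝ} (hc0 : 0 < c0) {a b N0 D : ℕ} (ha : 1 ≤ a) (hb : b ≤ N) (hD1 : 1 ≤ D)
    (hab : a + 2 * D < b + 1) {CL : ℝ}
    (hCL : ∑ l ∈ Finset.Ico a (b + 1 - D), ∑ l' ∈ Finset.Ico a (b + 1 - D),
        EE p l l' (fun s r => if age D (good G p N) s r = 0 then 1 else 0) ≤ CL) :
    ((b : ℝ) + 1 - a - 2 * D) / Fintype.card V *
        ∑ u ∈ Finset.Ico (a + D) (b + 1 - D), E p u (fun s => if Prd p c0 a b N0 D s then 0 else 1) ≤
      16 * ε * ((b : ℝ) + 1 - a - 2 * D) ^ 2 / Fintype.card V + N0 * CL +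
        ((b : ℝ) - a) ^ 2 / Fintype.card V * (Real.exp (-(c0 * N0)) / (1 - Real.exp (-c0))) := by
  set n : ℝ := (Fintype.card V : ℝ) with hn
  have hn0 : 0 < n := by
    have : 0 < Fintype.card V := Fintype.card_pos
    rw [hn]; exact_mod_cast this
  set J := Finset.Ico (a + D) (b + 1 - D) with hJ
  have hcard : (J.card : ℝ) = (b : ℝ) + 1 - a - 2 * D := by
    rw [hJ, Nat.card_Ico]
    have : b + 1 - D - (a + D) = b + 1 - (a + 2 * D) := by omega
    rw [this, Nat.cast_sub (by omega)]
    push_cast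
    ring
  -- the four weights
  let A : List V → ℝ := fun s => if Prd p c0 a b N0 D s then 0 else 1
  let W : List V → ℝ := fun s => if v G p N s ≤ 1 / 8 then 0 else 1
  let St : List V → List V → ℝ := fun s r => if age D (good G p N) s r = 0 then 1 else 0
  let Z : ℕ → List V → List V → ℝ := fun i s r => if hd s = hd r ∧ hd (s.drop i) = hd (r.drop i) ∧
          hd s ∉ Sset p c0 a b i (hd (s.drop i)) then 1 else 0
  have hA : Inv1 G A := by
    intro g s
    have := Prd_map (N0 := N0) (D := D) (c0 := c0) (b := b) hI ha g s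
    by_cases h : Prd p c0 a b N0 D s
    · simp only [A, this, h, if_true]
    · simp only [A, this, h, if_false]
  have hW : Inv1 G W := by
    intro g s
    simp only [W, v_inv (N := N) hI g s]
  have hA0 : ∀ s, 0 ≤ A s := fun s => by simp only [A]; split_ifs <;> norm_num
  have hA1 : ∀ s, A s ≤ 1 := fun s => by simp only [A]; split_ifs <;> norm_num
  have hW0 : ∀ s, 0 ≤ W s := fun s => by simp only [W]; split_ifs <;> norm_num
  have hSt0 : ∀ s r, 0 ≤ St s r := fun s r => by simp only [St]; split_ifs <;> norm_num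
  have hZ0 : ∀ i s r, 0 ≤ Z i s r := fun i s r => by simp only [Z]; split_ifs <;> norm_num
  -- pointwise
  have hpt : ∀ u ∈ J, ∀ u' ∈ J, ∀ s r : List V, s.length = u → r.length = u' →
      (if hd s = hd r then A s else 0) ≤ ((if hd s = hd r then W s else 0) +
        (if hd s = hd r then W r else 0)) +
        (∑ i ∈ Finset.range (min N0 D), St (s.drop i) (r.drop i) +
        ∑ i ∈ Finset.Ico N0 D, Z i s r) := by
    intro u hu u' hu' s r hs hr
    rw [hJ, Finset.mem_Ico] at hu hu'
    have hs3 : 0 ≤ ∑ i ∈ Finset.range (min N0 D), St (s.drop i) (r.drop i) :=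
      Finset.sum_nonneg fun i _ => hSt0 _ _
    have hs4 : 0 ≤ ∑ i ∈ Finset.Ico N0 D, Z i s r := Finset.sum_nonneg fun i _ => hZ0 _ _ _
    by_cases hsr : hd s = hd r
    swap
    · simp only [hsr, if_false]
      linarith
    simp only [hsr, if_true]
    have hWs := hW0 s
    have hWr := hW0 r
    by_cases hP : Prd p c0 a b N0 D s
    · have : A s = 0 := by simp only [A, hP, if_true]
      rw [this]
      linarith
    have hA1s : A s = 1 := by simp only [A, hP, if_false]
    rw [hA1s]
    by_cases hvs : v G p N s ≤ 1 / 8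
    swap
    · have : W s = 1 := by simp only [W, hvs, if_false]
      rw [this]
      linarith
    by_cases hvr : v G p N r ≤ 1 / 8
    swap
    · have : W r = 1 := by simp only [W, hvr, if_false]
      rw [this]
      linarith
    have hgood : good G p N s r := ⟨hsr, hvs, hvr⟩
    have hage : age D (good G p N) s r < D := by
      cases s with
      | nil => rw [List.length_nil] at hs; omega
      | cons x s =>
        cases r with
        | nil => rw [List.length_nil] at hr; omega
        | cons y r => exact age_lt_of_good hD1 hgood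
    obtain ⟨h1, h2, h3, h4⟩ := age_drop hage rfl
    set i := age D (good G p N) s r with hi
    by_cases hiN : i < N0
    · have h5 : St (s.drop i) (r.drop i) ≤
          ∑ i ∈ Finset.range (min N0 D), St (s.drop i) (r.drop i) := by
        refine Finset.single_le_sum (f := fun i => St (s.drop i) (r.drop i))
          (fun j _ => hSt0 _ _) ?_
        rw [Finset.mem_range]
        omega
      have h6 : St (s.drop i) (r.drop i) = 1 := by simp only [St, h3, if_true]
      linarith
    · have h5 : Z i s r ≤ ∑ i ∈ Finset.Ico N0 D, Z i s r := by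
        refine Finset.single_le_sum (f := fun i => Z i s r) (fun j _ => hZ0 _ _ _) ?_
        rw [Finset.mem_Ico]
        omega
      have h6 : Z i s r = 1 := by
        have h7 : hd s ∉ Sset p c0 a b i (hd (s.drop i)) := by
          intro h8
          exact hP ⟨i, by omega, hage, by omega, h8⟩
        have h8 : hd s = hd r ∧ hd (s.drop i) = hd (r.drop i) ∧
          hd s ∉ Sset p c0 a b i (hd (s.drop i)) := ⟨hsr, h4.1, h7⟩
        simp only [Z]
        rw [if_pos h8]
      linarith
  -- expectation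
  have hexp : ∀ u ∈ J, ∀ u' ∈ J, E p u A / n ≤ (E p u W / n + E p u' W / n) +
      (∑ i ∈ Finset.range (min N0 D), EE p (u - i) (u' - i) St +
        ∑ i ∈ Finset.Ico N0 D, EE p u u' (Z i)) := by
    intro u hu u' hu'
    have hu2 := hu
    have hu2' := hu'
    rw [hJ, Finset.mem_Ico] at hu2 hu2'
    have h1 := EE_mono_of hL (hpt u hu u' hu')
    rw [EE_coinc hL hI hT hA (by omega) (by omega), EE_add, EE_add, EE_add, EE_sum, EE_sum,
      EE_coinc hL hI hT hW (by omega) (by omega)] at h1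
    have h2 : EE p u u' (fun s r => if hd s = hd r then W r else 0) = E p u' W / n := by
      have h3 : EE p u u' (fun s r => if hd s = hd r then W r else 0) =
          EE p u' u (fun s r => if hd s = hd r then W s else 0) := by
        unfold EE E
        rw [F_swap]
        congr 1
        funext r
        congr 1
        funext s
        simp only [eq_comm]
      rw [h3, EE_coinc hL hI hT hW (by omega) (by omega)]
    rw [h2] at h1
    have h4 : ∑ i ∈ Finset.range (min N0 D), EE p u u' (fun s r => St (s.drop i) (r.drop i)) =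
        ∑ i ∈ Finset.range (min N0 D), EE p (u - i) (u' - i) St := by
      refine Finset.sum_congr rfl fun i hi => ?_
      rw [Finset.mem_range] at hi
      have h5 := EE_drop hL (u - i) (u' - i) i St
      rw [Nat.sub_add_cancel (by omega), Nat.sub_add_cancel (by omega)] at h5
      exact h5
    rw [h4] at h1
    exact h1
  have hsum : ∑ u ∈ J, ∑ u' ∈ J, E p u A / n ≤ ∑ u ∈ J, ∑ u' ∈ J,
      ((E p u W / n + E p u' W / n) +
      (∑ i ∈ Finset.range (min N0 D), EE p (u - i) (u' - i) St +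
        ∑ i ∈ Finset.Ico N0 D, EE p u u' (Z i))) :=
    Finset.sum_le_sum fun u hu => Finset.sum_le_sum fun u' hu' => hexp u hu u' hu'
  have e1 : ∑ u ∈ J, ∑ _u' ∈ J, E p u A / n = ((b : ℝ) + 1 - a - 2 * D) / n * ∑ u ∈ J, E p u A := by
    rw [← hcard, Finset.mul_sum]
    refine Finset.sum_congr rfl fun u _ => ?_
    rw [Finset.sum_const, nsmul_eq_mul]
    ring
  rw [e1] at hsum
  refine hsum.trans ?_
  simp only [Finset.sum_add_distrib]
  -- first two terms
  have hWle : ∀ u ∈ J, E p u W / n ≤ 8 * ε / n := by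
    intro u hu
    rw [hJ, Finset.mem_Ico] at hu
    exact div_le_div_of_nonneg_right (markov_v hL hε (by omega)) hn0.le
  have t1 : ∑ u ∈ J, ∑ _u' ∈ J, E p u W / n ≤ 8 * ε * ((b : ℝ) + 1 - a - 2 * D) ^ 2 / n := by
    calc ∑ u ∈ J, ∑ _u' ∈ J, E p u W / n ≤ ∑ _u ∈ J, ∑ _u' ∈ J, 8 * ε / n :=
          Finset.sum_le_sum fun u hu => Finset.sum_le_sum fun u' _ => hWle u hu
      _ = _ := by
          simp only [Finset.sum_const, nsmul_eq_mul]
          rw [hcard]
          ring
  have t2 : ∑ _u ∈ J, ∑ u' ∈ J, E p u' W / n ≤ 8 * ε * ((b : ℝ) + 1 - a - 2 * D) ^ 2 / n := by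
    calc ∑ _u ∈ J, ∑ u' ∈ J, E p u' W / n ≤ ∑ _u ∈ J, ∑ _u' ∈ J, 8 * ε / n :=
          Finset.sum_le_sum fun u _ => Finset.sum_le_sum fun u' hu' => hWle u' hu'
      _ = _ := by
          simp only [Finset.sum_const, nsmul_eq_mul]
          rw [hcard]
          ring
  -- third term
  have hCL0 : 0 ≤ CL := le_trans (Finset.sum_nonneg fun l _ => Finset.sum_nonneg fun l' _ =>
    EE_nonneg hL l l' hSt0) hCL
  have t3 : ∑ u ∈ J, ∑ u' ∈ J, ∑ i ∈ Finset.range (min N0 D), EE p (u - i) (u' - i) St ≤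
      N0 * CL := by
    calc ∑ u ∈ J, ∑ u' ∈ J, ∑ i ∈ Finset.range (min N0 D), EE p (u - i) (u' - i) St
        = ∑ i ∈ Finset.range (min N0 D), ∑ u ∈ J, ∑ u' ∈ J, EE p (u - i) (u' - i) St :=
          (Finset.sum_congr rfl fun u _ => Finset.sum_comm).trans Finset.sum_comm
      _ ≤ ∑ i ∈ Finset.range (min N0 D), CL := by
          refine Finset.sum_le_sum fun i hi => ?_
          rw [Finset.mem_range] at hi
          refine le_trans ?_ hCL
          exact sum_shift_le2 (fun w w' => EE p w w' St) (fun w w' => EE_nonneg hL w w' hSt0)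
            (by omega)
      _ ≤ N0 * CL := by
          rw [Finset.sum_const, Finset.card_range, nsmul_eq_mul]
          refine mul_le_mul_of_nonneg_right ?_ hCL0
          exact_mod_cast min_le_left _ _
  -- fourth term
  have t4 : ∑ u ∈ J, ∑ u' ∈ J, ∑ i ∈ Finset.Ico N0 D, EE p u u' (Z i) ≤
      ((b : ℝ) - a) ^ 2 / n * (Real.exp (-(c0 * N0)) / (1 - Real.exp (-c0))) := by
    calc ∑ u ∈ J, ∑ u' ∈ J, ∑ i ∈ Finset.Ico N0 D, EE p u u' (Z i)
        = ∑ i ∈ Finset.Ico N0 D, ∑ u ∈ J, ∑ u' ∈ J, EE p u u' (Z i) :=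
          (Finset.sum_congr rfl fun u _ => Finset.sum_comm).trans Finset.sum_comm
      _ ≤ ∑ i ∈ Finset.Ico N0 D, ((b : ℝ) - a) ^ 2 / n * Real.exp (-(c0 * i)) := by
          refine Finset.sum_le_sum fun i hi => ?_
          rw [Finset.mem_Ico] at hi
          refine le_trans ?_ (unpred hL hI hT ha (by omega : a < b) c0 i)
          have hsub : J ⊆ Finset.Ico (a + i) b := by
            intro u hu
            rw [hJ, Finset.mem_Ico] at hu
            rw [Finset.mem_Ico]
            omega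
          calc ∑ u ∈ J, ∑ u' ∈ J, EE p u u' (Z i)
              ≤ ∑ u ∈ J, ∑ u' ∈ Finset.Ico (a + i) b, EE p u u' (Z i) :=
                Finset.sum_le_sum fun u _ => Finset.sum_le_sum_of_subset_of_nonneg hsub
                  fun u' _ _ => EE_nonneg hL _ _ (hZ0 i)
            _ ≤ _ := Finset.sum_le_sum_of_subset_of_nonneg hsub fun u _ _ =>
                Finset.sum_nonneg fun u' _ => EE_nonneg hL _ _ (hZ0 i)
      _ = ((b : ℝ) - a) ^ 2 / n * ∑ i ∈ Finset.Ico N0 D, Real.exp (-(c0 * i)) := by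
          rw [Finset.mul_sum]
      _ ≤ _ := mul_le_mul_of_nonneg_left (geom_le hc0 N0 D) (by positivity)
  have e2 : 16 * ε * ((b : ℝ) + 1 - a - 2 * D) ^ 2 / n =
      8 * ε * ((b : ℝ) + 1 - a - 2 * D) ^ 2 / n + 8 * ε * ((b : ℝ) + 1 - a - 2 * D) ^ 2 / n := by
    ring
  rw [e2]
  linarith

end Pool.Agent.H86.MT
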