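import Pool.Agent.H86.MT.CoA
import Pool.Agent.H86.MT.PairD
import Pool.Agent.H86.MT.ClD
import Pool.Agent.H86.MT.PrC
import Pool.Agent.H86.MT.GuC

/-!
MT-CORE. Assembly of the argument for one graph (h86_transitive.md, sections 4 - 7).

* `core`: `J1 = Ico (a + D) (b + 1 - D)`, `J2 = Ico (a + 2D) (b + 1 - 2D)`, `β = 16 δ D`.
  `clusters`, `pair_total` (with `η = C2 / M`, `b - a ≤ 4M`), `pred_total` give
  `∑_{u ∈ J1} E u 1[¬Prd] ≤ δ |J1|` (`|J1| ≥ M`, `b - a ≤ 4 |J1|`);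
  apply `E t` to `guess_exp` for `t ∈ J2` and sum: the right side telescopes to `≤ 2 D ε`
  (`0 ≤ E t v ≤ ε`); `∑ E (t+D) 1[v > 1/8] ≤ 8 ε |J2| ≤ |J2|/4` (`markov_v`);
  `∑_{t ∈ J2} E (t+D) 1[bad > β] ≤ (1/β) ∑_{j<D} ∑_t E (t+D-j) 1[¬Prd] ≤ D δ |J1| / β = |J1| / 16 ≤ M/4 ≤ |J2|/4`.
-/

set_option autoImplicit false
set_option linter.unusedSectionVars false

open N6ef48c04

namespace Pool.Agent.H86.MT

variable {V : Type} [Fintype V] [Nonempty V] {G : SimpleGraph V} {p : List V → V → ℝ} {N : ℕ}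

theorem tele_Ico (x : ℕ → ℝ) {A B K : ℕ} (hAB : A ≤ B) (h0 : ∀ t, 0 ≤ x t) {ε : ℝ}
    (h1 : ∀ t < A + K, x t ≤ ε) :
    ∑ t ∈ Finset.Ico A B, (x t - x (t + K)) ≤ K * ε := by
  rw [Finset.sum_sub_distrib, Finset.sum_Ico_add' (fun t => x t) A B K]
  have e1 := Finset.sum_Ico_consecutive x hAB (Nat.le_add_right B K)
  have e2 := Finset.sum_Ico_consecutive x (Nat.le_add_right A K) (Nat.add_le_add_right hAB K)
  have e3 : 0 ≤ ∑ t ∈ Finset.Ico B (B + K), x t := Finset.sum_nonneg fun t _ => h0 t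
  have e4 : ∑ t ∈ Finset.Ico A (A + K), x t ≤ K * ε := by
    calc ∑ t ∈ Finset.Ico A (A + K), x t ≤ ∑ t ∈ Finset.Ico A (A + K), ε :=
          Finset.sum_le_sum fun t ht => h1 t (Finset.mem_Ico.1 ht).2
      _ = K * ε := by simp
  linarith

open Classical in
/-- (6), normalised: the expected number of unpredictable times -/
theorem core_pred (hL : IsLaw G p) (hI : IsInv G p) (hT : VT G) {Δ : ℕ} {α P q : ℝ}
    (hpar : Par Δ α P q) (hE : Expd G α) (hΔ : ∀ y, (nb G y).card ≤ Δ + 1) {M D N0 a b : ℕ}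
    (hN : N = 4 * M) (hD1 : 1 ≤ D) (hDM : 8 * D ≤ M) (hD : ∀ y z, Near G D y z) {ε : ℝ}
    (hε : v G p N [] ≤ ε) {c0 : ℝ} (hc0 : 0 < c0)
    (ha1 : 1 ≤ a) (haM : a ≤ M) (hb3 : 3 * M ≤ b) (hbN : b ≤ N)
    (hη1 : E p a (fun s => avg (fun y => |phi G p N s y|)) ≤ (cp α P + cm α P) / M)
    (hη2 : E p b (fun s => avg (fun y => |phi G p N s y|)) ≤ (cp α P + cm α P) / M) :
    ∑ u ∈ Finset.Ico (a + D) (b + 1 - D), E p u (fun s => if Prd p c0 a b N0 D s then 0 else 1) ≤
      δc Δ α P ε c0 N0 M (Fintype.card V) * ((b : ℝ) + 1 - a - 2 * D) := by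
  set n : ℝ := (Fintype.card V : ℝ) with hn
  have hn0 : 0 < n := by
    have : 0 < Fintype.card V := Fintype.card_pos
    rw [hn]; exact_mod_cast this
  have hM1 : (8 : ℝ) * D ≤ M := by exact_mod_cast hDM
  have hD1' : (1 : ℝ) ≤ D := by exact_mod_cast hD1
  have hMpos : (0 : ℝ) < M := by linarith
  have ha' : (a : ℝ) ≤ M := by exact_mod_cast haM
  have ha1' : (1 : ℝ) ≤ a := by exact_mod_cast ha1
  have hb' : (3 : ℝ) * M ≤ b := by exact_mod_cast hb3
  have hb4 : (b : ℝ) ≤ 4 * M := by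
    rw [hN] at hbN; exact_mod_cast hbN
  have hC2 : 0 ≤ cp α P + cm α P := by
    have h1 : 0 ≤ E p a (fun s => avg (fun y => |phi G p N s y|)) :=
      F_nonneg hL.nonneg fun s _ => avg_nonneg fun y => abs_nonneg _
    have h2 := h1.trans hη1
    by_contra hcon
    push Not at hcon
    have := div_neg_of_neg_of_pos hcon hMpos
    linarith
  have hab : a ≤ b := by omega
  have hpt := pair_total (N := N) hL hI hT hpar hE hΔ ha1 hab hbN hη1 hη2
  have hcl := clusters (N := N) hL hD1 hD (a := a) (b := b) ha1 hbN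
  have hCLle : ∑ l ∈ Finset.Ico a (b + 1 - D), ∑ l' ∈ Finset.Ico a (b + 1 - D),
        EE p l l' (fun s r => if age D (good G p N) s r = 0 then 1 else 0) ≤ CLc Δ α P := by
    refine hcl.trans ?_
    unfold CLc
    have h1 : 4 * ((b : ℝ) - a) * ((cp α P + cm α P) / M) ≤ 16 * (cp α P + cm α P) := by
      have h2 : 4 * ((b : ℝ) - a) ≤ 16 * M := by linarith
      calc 4 * ((b : ℝ) - a) * ((cp α P + cm α P) / M) ≤ 16 * M * ((cp α P + cm α P) / M) :=
            mul_le_mul_of_nonneg_right h2 (by positivity)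
        _ = 16 * (cp α P + cm α P) := by field_simp
    linarith
  have hCL0 : 0 ≤ CLc Δ α P := by
    refine le_trans ?_ hCLle
    refine Finset.sum_nonneg fun l _ => Finset.sum_nonneg fun l' _ => ?_
    unfold EE E
    refine F_nonneg hL.nonneg fun s _ => F_nonneg hL.nonneg fun r _ => ?_
    beta_reduce
    split_ifs <;> norm_num
  have hpr := pred_total (N := N) hL hI hT hε hc0 (a := a) (b := b) (N0 := N0) (D := D) ha1 hbN hD1
    (by omega) hCLle
  set S := ∑ u ∈ Finset.Ico (a + D) (b + 1 - D),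
    E p u (fun s => if Prd p c0 a b N0 D s then 0 else 1) with hS
  set Jc : ℝ := (b : ℝ) + 1 - a - 2 * D with hJc
  have hJM : (M : ℝ) ≤ Jc := by rw [hJc]; linarith
  have hJ0 : 0 < Jc := by linarith
  have hba : (b : ℝ) - a ≤ 4 * Jc := by linarith
  have hba0 : 0 ≤ (b : ℝ) - a := by
    have : (a : ℝ) ≤ b := by exact_mod_cast hab
    linarith
  set g : ℝ := Real.exp (-(c0 * N0)) / (1 - Real.exp (-c0)) with hg
  have hg0 : 0 ≤ g := by
    rw [hg]
    have : Real.exp (-c0) < 1 := by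
      rw [Real.exp_lt_one_iff]; linarith
    have h2 : 0 < 1 - Real.exp (-c0) := by linarith
    positivity
  rw [← hn] at hpr
  have h1 : S * Jc ≤ 16 * ε * Jc ^ 2 + n * N0 * CLc Δ α P + (b - a) ^ 2 * g := by
    have h2 := mul_le_mul_of_nonneg_right hpr hn0.le
    have h3 : Jc / n * S * n = S * Jc := by field_simp
    have h4 : (16 * ε * Jc ^ 2 / n + N0 * CLc Δ α P + (b - a) ^ 2 / n * g) * n =
      16 * ε * Jc ^ 2 + n * N0 * CLc Δ α P + (b - a) ^ 2 * g := by field_simp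
    rw [h3, h4] at h2
    exact h2
  have h2 : n * N0 * CLc Δ α P ≤ n * N0 * CLc Δ α P / (M : ℝ) ^ 2 * Jc ^ 2 := by
    rw [div_mul_eq_mul_div, le_div_iff₀ (by positivity)]
    refine mul_le_mul_of_nonneg_left ?_ (by positivity)
    exact pow_le_pow_left₀ hMpos.le hJM 2
  have h3 : ((b : ℝ) - a) ^ 2 * g ≤ 16 * g * Jc ^ 2 := by
    have h4 : ((b : ℝ) - a) ^ 2 ≤ (4 * Jc) ^ 2 := pow_le_pow_left₀ hba0 hba 2
    nlinarith
  have h5 : S * Jc ≤ (δc Δ α P ε c0 N0 M (Fintype.card V) * Jc) * Jc := by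
    unfold δc
    rw [← hn, ← hg]
    calc S * Jc ≤ 16 * ε * Jc ^ 2 + n * N0 * CLc Δ α P + (b - a) ^ 2 * g := h1
      _ ≤ 16 * ε * Jc ^ 2 + n * N0 * CLc Δ α P / (M : ℝ) ^ 2 * Jc ^ 2 + 16 * g * Jc ^ 2 := by
          linarith
      _ = _ := by ring
  exact le_of_mul_le_mul_right h5 hJ0

open Classical in
theorem core_step (hL : IsLaw G p) (hI : IsInv G p) (hT : VT G) {c0 : ℝ} (hc0 : 0 < c0) {a b : ℕ}
    (ha : 1 ≤ a) (hab : a < b) {N0 : ℕ} (hN0 : 1 ≤ N0)
    (hN0' : Real.exp (-(c0 * N0)) ≤ (1 - Real.exp (-c0)) / 2)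
    {D Δ : ℕ} (hD : ∀ y z, Near G D y z) (hΔ : ∀ y, (nb G y).card ≤ Δ + 1) {β : ℝ} {t : ℕ}
    (ht : 1 ≤ t) (htN : t + 2 * D ≤ N) :
    7 / 8 * (Real.exp (-(6 * c0 * D + Real.log (2 * (Δ + 1)) * β)) *
        (1 - E p (t + D) (fun s => if v G p N s ≤ 1 / 8 then 0 else 1) -
          E p (t + D) (fun s => if (bad p c0 a b N0 D D s : ℝ) ≤ β then 0 else 1))) ≤
      E p t (v G p N) - E p (t + 2 * D) (v G p N) := by
  have key : E p t (fun h0 => 7 / 8 * (Real.exp (-(6 * c0 * D + Real.log (2 * (Δ + 1)) * β)) *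
        (1 - F p D (fun s => if v G p N s ≤ 1 / 8 then 0 else 1) h0 -
          F p D (fun s => if (bad p c0 a b N0 D D s : ℝ) ≤ β then 0 else 1) h0))) ≤
      E p t (fun h0 => v G p N h0 - F p (2 * D) (v G p N) h0) := by
    refine F_mono_of hL.nonneg fun s hs => ?_
    rw [List.length_nil, zero_add] at hs
    refine guess_exp hL hI hT hc0 ha hab hN0 hN0' hD hΔ ?_ (by omega)
    intro h0
    rw [h0, List.length_nil] at hs
    omega
  have e1 : E p t (fun h0 => v G p N h0 - F p (2 * D) (v G p N) h0) =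
      E p t (v G p N) - E p (t + 2 * D) (v G p N) := by
    rw [E_comp]
    exact F_sub _ _ _ _
  have e2 : E p t (fun h0 => 7 / 8 * (Real.exp (-(6 * c0 * D + Real.log (2 * (Δ + 1)) * β)) *
        (1 - F p D (fun s => if v G p N s ≤ 1 / 8 then 0 else 1) h0 -
          F p D (fun s => if (bad p c0 a b N0 D D s : ℝ) ≤ β then 0 else 1) h0))) =
      7 / 8 * (Real.exp (-(6 * c0 * D + Real.log (2 * (Δ + 1)) * β)) *
        (1 - E p (t + D) (fun s => if v G p N s ≤ 1 / 8 then 0 else 1) -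
          E p (t + D) (fun s => if (bad p c0 a b N0 D D s : ℝ) ≤ β then 0 else 1))) := by
    rw [E_comp, E_comp]
    unfold E
    rw [F_mul, F_mul, F_sub, F_sub, F_const hL.sum_one]
  rw [e1, e2] at key
  exact key

open Classical in
/-- the number of bad windows (Markov) -/
theorem core_bad (hL : IsLaw G p) {c0 : ℝ} {a b N0 D t : ℕ} {β : ℝ} (hβ : 0 < β) :
    E p (t + D) (fun s => if (bad p c0 a b N0 D D s : ℝ) ≤ β then 0 else 1) ≤
      1 / β * ∑ j ∈ Finset.range D,
        E p (t + (D - j)) (fun s => if Prd p c0 a b N0 D s then 0 else 1) := by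
  have h1 : ∀ s : List V, (if (bad p c0 a b N0 D D s : ℝ) ≤ β then (0 : ℝ) else 1) ≤
      1 / β * ∑ j ∈ Finset.range D, (if Prd p c0 a b N0 D (s.drop j) then 0 else 1) := by
    intro s
    have h2 : (∑ j ∈ Finset.range D, (if Prd p c0 a b N0 D (s.drop j) then (0 : ℝ) else 1)) =
        (bad p c0 a b N0 D D s : ℝ) := by
      unfold bad
      rw [Finset.card_filter]
      push_cast
      refine Finset.sum_congr rfl fun j _ => ?_
      by_cases h : Prd p c0 a b N0 D (s.drop j) <;> simp [h]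
    rw [h2]
    split_ifs with h3
    · positivity
    · push Not at h3
      rw [one_div, ← div_eq_inv_mul, le_div_iff₀ hβ]
      linarith
  have h2 : E p (t + D) (fun s => if (bad p c0 a b N0 D D s : ℝ) ≤ β then 0 else 1) ≤
      E p (t + D) (fun s => 1 / β * ∑ j ∈ Finset.range D,
        (if Prd p c0 a b N0 D (s.drop j) then 0 else 1)) :=
    F_mono hL.nonneg h1
  refine h2.trans (le_of_eq ?_)
  unfold E
  rw [F_mul, F_sum]
  congr 1
  refine Finset.sum_congr rfl fun j hj => ?_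
  have hj' := Finset.mem_range.1 hj
  have h3 := E_drop hL (t + (D - j)) j (fun s => if Prd p c0 a b N0 D s then 0 else 1)
  have h4 : t + (D - j) + j = t + D := by omega
  rw [h4] at h3
  exact h3

theorem core (hL : IsLaw G p) (hI : IsInv G p) (hT : VT G) {Δ : ℕ} {α P q : ℝ}
    (hpar : Par Δ α P q) (hE : Expd G α) (hΔ : ∀ y, (nb G y).card ≤ Δ + 1) {M D N0 : ℕ}
    (hN : N = 4 * M) (hD1 : 1 ≤ D) (hDM : 8 * D ≤ M) (hD : ∀ y z, Near G D y z) {ε : ℝ}
    (hε : v G p N [] ≤ ε) (hε0 : 0 < ε) (hε1 : ε ≤ 1 / 32) {c0 : ℝ} (hc0 : 0 < c0) (hN0 : 1 ≤ N0)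
    (hN0' : Real.exp (-(c0 * N0)) ≤ (1 - Real.exp (-c0)) / 2) :
    7 / 16 * (M : ℝ) * Real.exp (-((6 * c0 + 16 * Real.log (2 * (Δ + 1)) *
        δc Δ α P ε c0 N0 M (Fintype.card V)) * D)) ≤ 2 * D * ε := by
  classical
  have hM1 : (8 : ℝ) * D ≤ M := by exact_mod_cast hDM
  have hD1' : (1 : ℝ) ≤ D := by exact_mod_cast hD1
  have hMpos : (0 : ℝ) < M := by linarith
  obtain ⟨a, b, ha1, haM, hb3, hbN, hη1, hη2⟩ := exists_times (N := N) hL hpar hE hΔ (M := M)
    (by omega) hN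
  have hpred := core_pred (N := N) (N0 := N0) hL hI hT hpar hE hΔ hN hD1 hDM hD hε hc0 ha1 haM hb3
    hbN hη1 hη2
  have ha' : (a : ℝ) ≤ M := by exact_mod_cast haM
  have ha1' : (1 : ℝ) ≤ a := by exact_mod_cast ha1
  have hb' : (3 : ℝ) * M ≤ b := by exact_mod_cast hb3
  have hb4 : (b : ℝ) ≤ 4 * M := by
    have := hbN
    rw [hN] at this; exact_mod_cast this
  set δ := δc Δ α P ε c0 N0 M (Fintype.card V) with hδ
  set S := ∑ u ∈ Finset.Ico (a + D) (b + 1 - D),
    E p u (fun s => if Prd p c0 a b N0 D s then 0 else 1) with hS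
  set B := Real.log (2 * ((Δ : ℝ) + 1)) with hB
  have hw0 : ∀ u, 0 ≤ E p u (fun s => if Prd p c0 a b N0 D s then (0 : ℝ) else 1) := fun u =>
    F_nonneg hL.nonneg fun s _ => by split_ifs <;> norm_num
  have hδ0 : 0 < δ := by
    -- `δ ≥ 16 ε + (the rest, nonnegative)`: use `hpred` is not enough, so compute
    rw [hδ]
    unfold δc
    have hg0 : 0 ≤ Real.exp (-(c0 * N0)) / (1 - Real.exp (-c0)) := by
      have : Real.exp (-c0) < 1 := by
        rw [Real.exp_lt_one_iff]; linarith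
      have h2 : 0 < 1 - Real.exp (-c0) := by linarith
      positivity
    have hCL0 : 0 ≤ CLc Δ α P := by
      have hC2 : 0 ≤ cp α P + cm α P := by
        have h1 : 0 ≤ E p a (fun s => avg (fun y => |phi G p N s y|)) :=
          F_nonneg hL.nonneg fun s _ => avg_nonneg fun y => abs_nonneg _
        have h2 := h1.trans hη1
        by_contra hcon
        push Not at hcon
        have := div_neg_of_neg_of_pos hcon hMpos
        linarith
      have hpt := pair_total (N := N) hL hI hT hpar hE hΔ ha1 (show a ≤ b by omega) hbN hη1 hη2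
      have hcl := clusters (N := N) hL hD1 hD (a := a) (b := b) ha1 hbN
      have h0 : (0 : ℝ) ≤ ∑ l ∈ Finset.Ico a (b + 1 - D), ∑ l' ∈ Finset.Ico a (b + 1 - D),
          EE p l l' (fun s r => if age D (good G p N) s r = 0 then 1 else 0) := by
        refine Finset.sum_nonneg fun l _ => Finset.sum_nonneg fun l' _ => ?_
        unfold EE E
        refine F_nonneg hL.nonneg fun s _ => F_nonneg hL.nonneg fun r _ => ?_
        beta_reduce
        split_ifs <;> norm_num
      unfold CLc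
      have h1 : 4 * ((b : ℝ) - a) * ((cp α P + cm α P) / M) ≤ 16 * (cp α P + cm α P) := by
        have h2 : 4 * ((b : ℝ) - a) ≤ 16 * M := by linarith
        calc 4 * ((b : ℝ) - a) * ((cp α P + cm α P) / M) ≤ 16 * M * ((cp α P + cm α P) / M) :=
              mul_le_mul_of_nonneg_right h2 (by positivity)
          _ = 16 * (cp α P + cm α P) := by field_simp
      linarith
    positivity
  set β := 16 * δ * D with hβ
  have hβ0 : 0 < β := by positivity
  set Ex := Real.exp (-(6 * c0 * D + B * β)) with hEx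
  have hEx0 : 0 < Ex := Real.exp_pos _
  have hExeq : Real.exp (-((6 * c0 + 16 * B * δ) * D)) = Ex := by
    rw [hEx, hβ]
    congr 1
    ring
  rw [hExeq]
  -- the steps
  have hstep : ∀ t ∈ Finset.Ico (a + 2 * D) (b + 1 - 2 * D),
      7 / 8 * (Ex * (1 - E p (t + D) (fun s => if v G p N s ≤ 1 / 8 then 0 else 1) -
          E p (t + D) (fun s => if (bad p c0 a b N0 D D s : ℝ) ≤ β then 0 else 1))) ≤
      E p t (v G p N) - E p (t + 2 * D) (v G p N) := by
    intro t ht
    rw [Finset.mem_Ico] at ht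
    exact core_step hL hI hT hc0 ha1 (by omega) hN0 hN0' hD hΔ (by omega) (by omega)
  have hsum := Finset.sum_le_sum hstep
  have htel : ∑ t ∈ Finset.Ico (a + 2 * D) (b + 1 - 2 * D),
      (E p t (v G p N) - E p (t + 2 * D) (v G p N)) ≤ (2 * D : ℕ) * ε := by
    refine tele_Ico (fun t => E p t (v G p N)) (by omega)
      (fun t => F_nonneg hL.nonneg fun s _ => v_nonneg hL s) ?_
    intro t ht
    exact (E_v_le hL (by omega)).trans hε
  have hcard2 : ((b + 1 - 2 * D - (a + 2 * D) : ℕ) : ℝ) = (b : ℝ) + 1 - a - 4 * D := by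
    have : b + 1 - 2 * D - (a + 2 * D) = b + 1 - (a + 4 * D) := by omega
    rw [this, Nat.cast_sub (by omega)]
    push_cast
    ring
  have hg1 : ∑ t ∈ Finset.Ico (a + 2 * D) (b + 1 - 2 * D),
      E p (t + D) (fun s => if v G p N s ≤ 1 / 8 then (0 : ℝ) else 1) ≤
      ((b : ℝ) + 1 - a - 4 * D) * (1 / 4) := by
    calc ∑ t ∈ Finset.Ico (a + 2 * D) (b + 1 - 2 * D),
        E p (t + D) (fun s => if v G p N s ≤ 1 / 8 then (0 : ℝ) else 1)
        ≤ ∑ t ∈ Finset.Ico (a + 2 * D) (b + 1 - 2 * D), (1 / 4 : ℝ) := by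
          refine Finset.sum_le_sum fun t ht => ?_
          rw [Finset.mem_Ico] at ht
          have := markov_v (N := N) hL hε (u := t + D) (by omega)
          linarith
      _ = _ := by rw [Finset.sum_const, Nat.card_Ico, nsmul_eq_mul, hcard2]
  have hg2 : ∑ t ∈ Finset.Ico (a + 2 * D) (b + 1 - 2 * D),
      E p (t + D) (fun s => if (bad p c0 a b N0 D D s : ℝ) ≤ β then (0 : ℝ) else 1) ≤ M / 4 := by
    calc ∑ t ∈ Finset.Ico (a + 2 * D) (b + 1 - 2 * D),
        E p (t + D) (fun s => if (bad p c0 a b N0 D D s : ℝ) ≤ β then (0 : ℝ) else 1)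
        ≤ ∑ t ∈ Finset.Ico (a + 2 * D) (b + 1 - 2 * D), 1 / β * ∑ j ∈ Finset.range D,
          E p (t + (D - j)) (fun s => if Prd p c0 a b N0 D s then 0 else 1) :=
          Finset.sum_le_sum fun t _ => core_bad hL hβ0
      _ = 1 / β * ∑ j ∈ Finset.range D, ∑ t ∈ Finset.Ico (a + 2 * D) (b + 1 - 2 * D),
          E p (t + (D - j)) (fun s => if Prd p c0 a b N0 D s then 0 else 1) := by
          rw [← Finset.mul_sum, Finset.sum_comm]
      _ ≤ 1 / β * ∑ j ∈ Finset.range D, S := by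
          refine mul_le_mul_of_nonneg_left ?_ (by positivity)
          refine Finset.sum_le_sum fun j hj => ?_
          rw [Finset.mem_range] at hj
          rw [Finset.sum_Ico_add' (fun t => E p t (fun s => if Prd p c0 a b N0 D s then (0 : ℝ) else 1))]
          refine Finset.sum_le_sum_of_subset_of_nonneg ?_ fun u _ _ => hw0 u
          intro u hu
          rw [Finset.mem_Ico] at hu ⊢
          omega
      _ = 1 / β * (D * S) := by simp
      _ ≤ 1 / β * (D * (δ * ((b : ℝ) + 1 - a - 2 * D))) := by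
          refine mul_le_mul_of_nonneg_left ?_ (by positivity)
          exact mul_le_mul_of_nonneg_left hpred (by positivity)
      _ = ((b : ℝ) + 1 - a - 2 * D) / 16 := by
          rw [hβ]
          field_simp
      _ ≤ M / 4 := by linarith
  have hfin : 7 / 8 * (Ex * (M / 2)) ≤ ∑ t ∈ Finset.Ico (a + 2 * D) (b + 1 - 2 * D),
      7 / 8 * (Ex * (1 - E p (t + D) (fun s => if v G p N s ≤ 1 / 8 then (0 : ℝ) else 1) -
          E p (t + D) (fun s => if (bad p c0 a b N0 D D s : ℝ) ≤ β then 0 else 1))) := by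
    rw [← Finset.mul_sum, ← Finset.mul_sum]
    refine mul_le_mul_of_nonneg_left ?_ (by norm_num)
    refine mul_le_mul_of_nonneg_left ?_ hEx0.le
    rw [Finset.sum_sub_distrib, Finset.sum_sub_distrib, Finset.sum_const, Nat.card_Ico, nsmul_eq_mul,
      hcard2]
    linarith
  have h9 := hfin.trans (hsum.trans htel)
  push_cast at h9
  linarith

end Pool.Agent.H86.MT
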