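import Pool.Agent.H86.MT.Val

/-!
MT: all further definitions (except `med` in ExpA and the reduction).
-/

set_option autoImplicit false
set_option linter.unusedSectionVars false

open N6ef48c04

namespace Pool.Agent.H86.MT

variable {V : Type} [Fintype V] [Nonempty V] {G : SimpleGraph V} {p : List V → V → ℝ} {N : ℕ}

open Classical in
/-- `a` is a median of `f` -/
def IsMed (f : V → ℝ) (a : ℝ) : Prop :=
  2 * (Finset.univ.filter (fun y => a < f y)).card ≤ Fintype.card V ∧
  2 * (Finset.univ.filter (fun y => f y < a)).card ≤ Fintype.card V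

/-- the exponents -/
structure Par (Δ : ℕ) (α P q : ℝ) : Prop where
  hα : 0 < α
  hP : 2 ≤ P
  hpq : 1 / P + 1 / q = 1
  hq : 1 ≤ q
  hq2 : q ≤ 2
  hΔ : ((Δ : ℝ) + 1) ^ (1 / P) ≤ (1 + α) ^ ((1 : ℝ) / 4)

/-- `L = (1 + α) / α` -/
noncomputable def Lc (α : ℝ) : ℝ := (1 + α) / α

/-- bound for the sum of the negative parts -/
noncomputable def cm (α P : ℝ) : ℝ := (2 + 2 * Lc α) / (1 - (1 + α) ^ (-(1 / P)))

/-- bound for the sum of the positive parts -/
noncomputable def cp (α P : ℝ) : ℝ :=
  (2 + (1 + 2 * Lc α) + cm α P + Lc α) / (1 - (1 + α) ^ (-(1 / (4 : ℝ))))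

/-- current position (head) -/
noncomputable def hd : List V → V
  | [] => Classical.arbitrary V
  | x :: _ => x

/-- invariant functions -/
def Inv1 (G : SimpleGraph V) (f : List V → ℝ) : Prop := ∀ (g : G ≃g G) (h : List V), f (h.map g) = f h

def Inv2 (G : SimpleGraph V) (f : List V → V → ℝ) : Prop :=
  ∀ (g : G ≃g G) (h : List V) (y : V), f (h.map g) (g y) = f h y

variable (G p N) in
/-- regret: the cop was at `y`, the robber moved (history `s`), the cop moves to `y'` -/
noncomputable def eX (s : List V) (y y' : V) : ℝ := star G (U G p N s) y - U G p N s y'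

variable (G p N) in
/-- the pair potential -/
noncomputable def Phi (h h' : List V) : ℝ := phi G p N h (hd h') * phi G p N h' (hd h)

variable (G p N) in
noncomputable def lossP (h h' : List V) : ℝ :=
  ∑ x', ∑ y', p h x' * p h' y' * (eX G p N (x' :: h) (hd h') y' * php G p N (y' :: h') x' +
    eX G p N (y' :: h') (hd h) x' * php G p N (x' :: h) y' +
    eX G p N (x' :: h) (hd h') y' * eX G p N (y' :: h') (hd h) x')

variable (G p N) in
noncomputable def lossN (h h' : List V) : ℝ :=
  ∑ x', ∑ y', p h x' * p h' y' * (eX G p N (x' :: h) (hd h') y' * phm G p N (y' :: h') x' +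
    eX G p N (y' :: h') (hd h) x' * phm G p N (x' :: h) y')

variable (G p N) in
/-- the loss of the pair potential in one step -/
noncomputable def Loss (h h' : List V) : ℝ :=
  lossP G p N h h' + phm G p N h (hd h') * cc G p N h' + phm G p N h' (hd h) * cc G p N h

variable (G p N) in
noncomputable def ff (s : List V) (y : V) : ℝ := star G (star G (U G p N s)) y - U G p N s y

variable (G p N) in
/-- good coincidence -/
def good (h h' : List V) : Prop := hd h = hd h' ∧ v G p N h ≤ 1 / 8 ∧ v G p N h' ≤ 1 / 8

open Classical in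
/-- age of the present cluster (`D` = no cluster) -/
noncomputable def age (D : ℕ) (gd : List V → List V → Prop) : List V → List V → ℕ
  | x :: s, y :: r =>
      if age D gd s r + 1 < D then age D gd s r + 1 else if gd (x :: s) (y :: r) then 0 else D
  | [], _ => D
  | _ :: _, [] => D

variable (p) in
open Classical in
/-- joint distribution of the positions at the times `u - i` and `u` -/
noncomputable def joint (u i : ℕ) (x z : V) : ℝ :=
  E p u (fun s => if hd (s.drop i) = x ∧ hd s = z then 1 else 0)

variable (p) in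
/-- time averaged transition probability (lag `i`) -/
noncomputable def qb (a b i : ℕ) (x z : V) : ℝ :=
  (Fintype.card V : ℝ) / ((b : ℝ) - a) * ∑ u ∈ Finset.Ico (a + i) b, joint p u i x z

variable (p) in
open Classical in
/-- predicted set -/
noncomputable def Sset (c0 : ℝ) (a b i : ℕ) (x : V) : Finset V :=
  Finset.univ.filter (fun z => Real.exp (-(c0 * i)) ≤ qb p a b i x z)

variable (p) in
/-- the present position is predictable from a position in the past -/
def Prd (c0 : ℝ) (a b N0 D : ℕ) (s : List V) : Prop :=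
  ∃ i, N0 ≤ i ∧ i < D ∧ a + i ≤ s.length ∧ hd s ∈ Sset p c0 a b i (hd (s.drop i))

variable (G p) in
open Classical in
/-- guess distribution, `k` steps after the history `h0` -/
noncomputable def Gp (c0 : ℝ) (a b N0 D Δ : ℕ) (h0 : List V) (k : ℕ) (z : V) : ℝ :=
  if k = 0 then (if z = hd h0 then 1 else 0)
  else
    (∑ i ∈ Finset.Ico N0 D, (1 - Real.exp (-c0)) / 2 * Real.exp (-(c0 * i)) *
      ∑ x, (if z ∈ Sset p c0 a b i x then
        (if _h : 1 ≤ i ∧ i < k then Gp c0 a b N0 D Δ h0 (k - i) x
          else if x = hd (h0.drop (i - k)) then 1 else 0) / ((Sset p c0 a b i x).card : ℝ) else 0)) +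
    1 / 2 * ∑ x ∈ nb G z, (if _h : 1 < k then Gp c0 a b N0 D Δ h0 (k - 1) x
          else if x = hd h0 then 1 else 0) / ((Δ : ℝ) + 1)
  termination_by k
  decreasing_by all_goals omega

/-- consecutive positions are equal or adjacent -/
def Wk (G : SimpleGraph V) : List V → Prop
  | [] => True
  | [_] => True
  | x :: y :: s => Step G y x ∧ Wk G (y :: s)

open Classical in
/-- number of unpredictable times among the last `k` -/
noncomputable def bad (p : List V → V → ℝ) (c0 : ℝ) (a b N0 D : ℕ) (k : ℕ) (s : List V) : ℕ :=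
  ((Finset.range k).filter (fun j => ¬ Prd p c0 a b N0 D (s.drop j))).card

/-- bound for the number of clusters -/
noncomputable def CLc (Δ : ℕ) (α P : ℝ) : ℝ :=
  2 * (16 * (cp α P + cm α P) + 1 + 2 * (((Δ : ℝ) + 1) ^ 2 * cp α P + cm α P) * cm α P + 2 * cm α P)

/-- fraction of unpredictable times -/
noncomputable def δc (Δ : ℕ) (α P ε c0 : ℝ) (N0 M n : ℕ) : ℝ :=
  16 * ε + (n : ℝ) * N0 * CLc Δ α P / (M : ℝ) ^ 2 +
    16 * (Real.exp (-(c0 * N0)) / (1 - Real.exp (-c0)))

end Pool.Agent.H86.MT
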