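import Pool.Agent.H86.MT.Defs

/-!
MT-EXP. Expansion inequalities for `star f y = max_{N[y]} f`.
* `exists_med`: the median: let `a` be an element of the finite set `{f y}`, the least value `a` with
  `2 #{y | a < f y} ≤ n`; then `2 #{y | f y < a} ≤ n` because otherwise the largest value `b < a` of
  `f` satisfies `2 #{b < f} = 2 (n - #{f ≤ b}) = 2 (n - #{f < a}) < n`, contradicting minimality (if
  no value is below `a` the second set is empty). (Any other proof is fine.)
* `layer_rpow`: layer cake. Either through `∫` (`u ^ q = ∫_0^∞ q τ^(q-1) 1_{τ < u}`) or by finite sums: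
  let `0 = t_0 < t_1 < ... < t_m` be the values of `u` and `w`; `x ^ q = ∑_j (t_{j+1}^q - t_j^q) 1[t_j < x]`.
* `exp_pos`: `layer_rpow` with `u = (f - a)_+`, `w = (star f - a)_+`, `K = 1 + α`: with `A = {a + τ < f}`
  one has `A.biUnion nb ⊆ {a + τ < star f}` and `2 #A ≤ n`.
-/

set_option autoImplicit false
set_option linter.unusedSectionVars false

open N6ef48c04

namespace Pool.Agent.H86.MT

variable {V : Type} [Fintype V] [Nonempty V] {G : SimpleGraph V} {p : List V → V → ℝ} {N : ℕ}

theorem exists_med (f : V → ℝ) : ∃ a, IsMed f a := by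
  classical
  set n := Fintype.card V with hn
  let S : Finset ℝ := (Finset.univ.image f).filter
    (fun a => 2 * (Finset.univ.filter (fun y => a < f y)).card ≤ n)
  obtain ⟨ym, -, hym⟩ := Finset.exists_max_image (Finset.univ : Finset V) f Finset.univ_nonempty
  have hS : S.Nonempty := by
    refine ⟨f ym, ?_⟩
    simp only [S, Finset.mem_filter, Finset.mem_image, Finset.mem_univ, true_and]
    refine ⟨⟨ym, rfl⟩, ?_⟩
    have : (Finset.univ.filter (fun y => f ym < f y)) = ∅ := by
      apply Finset.filter_false_of_mem
      intro y _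
      exact not_lt.2 (hym y (Finset.mem_univ y))
    rw [this]; simp
  have ha := S.min'_mem hS
  set a := S.min' hS with hadef
  have ha2 : 2 * (Finset.univ.filter (fun y => a < f y)).card ≤ n := (Finset.mem_filter.1 ha).2
  refine ⟨a, ?_⟩
  unfold IsMed
  have key : 2 * (Finset.univ.filter (fun y => f y < a)).card ≤ n := by
    by_contra hcon
    push Not at hcon
    have hne : (Finset.univ.filter (fun y => f y < a)).Nonempty := by
      rw [← Finset.card_pos]; omega
    obtain ⟨yb, hyb, hmax⟩ := Finset.exists_max_image _ f hne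
    have hyb' : f yb < a := (Finset.mem_filter.1 hyb).2
    have hnot : n < 2 * (Finset.univ.filter (fun y => f yb < f y)).card := by
      by_contra hc
      push Not at hc
      have hmem : f yb ∈ S := by
        simp only [S, Finset.mem_filter, Finset.mem_image, Finset.mem_univ, true_and]
        exact ⟨⟨yb, rfl⟩, hc⟩
      exact absurd (S.min'_le _ hmem) (not_le.2 hyb')
    have hdisj : Disjoint (Finset.univ.filter (fun y => f yb < f y))
        (Finset.univ.filter (fun y => f y < a)) := by
      rw [Finset.disjoint_left]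
      intro y h1 h2
      have h3 := hmax y h2
      exact absurd h3 (not_le.2 (Finset.mem_filter.1 h1).2)
    have hle : (Finset.univ.filter (fun y => f yb < f y)).card +
        (Finset.univ.filter (fun y => f y < a)).card ≤ n := by
      rw [← Finset.card_union_of_disjoint hdisj, hn, ← Finset.card_univ]
      exact Finset.card_le_card (Finset.subset_univ _)
    omega
  constructor
  · convert ha2
  · convert key

/-- a median -/
noncomputable def med (f : V → ℝ) : ℝ := Classical.choose (exists_med f)

theorem med_spec (f : V → ℝ) : IsMed f (med f) := Classical.choose_spec (exists_med f)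

open Classical in
theorem layer_rpow {u w : V → ℝ} (hu : ∀ y, 0 ≤ u y) (hw : ∀ y, 0 ≤ w y) {K q : ℝ} (hK : 0 ≤ K)
    (hq : 1 ≤ q)
    (h : ∀ τ : ℝ, 0 ≤ τ → K * ((Finset.univ.filter (fun y => τ < u y)).card : ℝ) ≤
      ((Finset.univ.filter (fun y => τ < w y)).card : ℝ)) :
    K * ∑ y, u y ^ q ≤ ∑ y, w y ^ q := by
  letI : MeasurableSpace V := ⊤
  haveI : MeasurableSingletonClass V := ⟨fun _ => trivial⟩
  have hq0 : 0 < q := by linarith
  have meas : ∀ f : V → ℝ, Measurable f := fun f => measurable_from_top
  have cake : ∀ f : V → ℝ, (∀ y, 0 ≤ f y) → ENNReal.ofReal (∑ y, f y ^ q) =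
      ENNReal.ofReal q * ∫⁻ t in Set.Ioi (0:ℝ),
        ENNReal.ofReal ((Finset.univ.filter (fun y => t < f y)).card : ℝ) *
          ENNReal.ofReal (t ^ (q - 1)) := by
    intro f hf
    have h1 := MeasureTheory.lintegral_rpow_eq_lintegral_meas_lt_mul
      (MeasureTheory.Measure.count : MeasureTheory.Measure V)
      (Filter.Eventually.of_forall hf) (meas f).aemeasurable hq0
    have h2 : ∫⁻ y, ENNReal.ofReal (f y ^ q) ∂(MeasureTheory.Measure.count : MeasureTheory.Measure V)
        = ENNReal.ofReal (∑ y, f y ^ q) := by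
      rw [MeasureTheory.lintegral_count, tsum_fintype, ENNReal.ofReal_sum_of_nonneg]
      intro y _
      exact Real.rpow_nonneg (hf y) q
    rw [← h2, h1]
    congr 1
    apply MeasureTheory.lintegral_congr
    intro t
    congr 1
    have : {a : V | t < f a} = ((Finset.univ.filter (fun y => t < f y) : Finset V) : Set V) := by
      ext y; simp
    rw [this, MeasureTheory.Measure.count_apply_finset, ENNReal.ofReal_natCast]
  have hsu : 0 ≤ ∑ y, u y ^ q := Finset.sum_nonneg (fun y _ => Real.rpow_nonneg (hu y) q)
  have hsw : 0 ≤ ∑ y, w y ^ q := Finset.sum_nonneg (fun y _ => Real.rpow_nonneg (hw y) q)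
  rw [← ENNReal.ofReal_le_ofReal_iff hsw, ENNReal.ofReal_mul hK, cake u hu, cake w hw,
    ← mul_assoc, mul_comm (ENNReal.ofReal K), mul_assoc]
  gcongr
  rw [← MeasureTheory.lintegral_const_mul' _ _ ENNReal.ofReal_ne_top]
  apply MeasureTheory.setLIntegral_mono' measurableSet_Ioi
  intro t ht
  rw [← mul_assoc]
  gcongr
  rw [← ENNReal.ofReal_mul hK]
  exact ENNReal.ofReal_le_ofReal (h t (le_of_lt ht))

end Pool.Agent.H86.MT
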