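import Pool.Agent.H86.MT.RedDefs

/-!
MT-RED. From laws to the game.

`hist t x = [x (t-1), ..., x 0]`. For a finite nonempty set `S` of walks, `cnt S h` is the number of
pairs `(x, g)`, `x ∈ S`, `g ∈ Aut G`, such that the walk `g ∘ x` starts with `h`; `lawOf` is the
corresponding invariant law.

* `card_walks_le'`: number of walks of length `T` is `≤ n (Δ+1)^T` (induction on `T`, or an injection into `V × (Fin T → Fin (Δ+1))`).
* `copsWin_of_fraction'`: copy of `Pool.Agent.H94.Mey.copsWin_of_fraction` with `card_walks_le'` in place of `card_walks_le`.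
* `copsWin_of_val`: `fraction` and `copsWin_of_fraction'` with `T - 1` in the place of `T`.
-/

set_option autoImplicit false
set_option linter.unusedSectionVars false

open N6ef48c04 Pool.Agent.H94.Mey

namespace Pool.Agent.H86.MT

variable {V : Type} [Fintype V] [Nonempty V] {G : SimpleGraph V} {p : List V → V → ℝ} {N : ℕ}

theorem eq_min_of_mem {T : ℕ} {x : ℕ → V} (hx : x ∈ walks G T) (s : ℕ) : x s = x (min s T) := by
  classical
  unfold walks at hx
  obtain ⟨hx1, -⟩ := Finset.mem_filter.mp hx
  obtain ⟨a, -, rfl⟩ := Finset.mem_image.mp hx1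
  simp

theorem card_walks_le' {Δ : ℕ} (hΔ : ∀ y, (nb G y).card ≤ Δ + 1) (T : ℕ) :
    (walks G T).card ≤ Fintype.card V * (Δ + 1) ^ T := by
  classical
  induction T with
  | zero => simpa using card_walks_le G 0
  | succ T ih =>
    have hsub : walks G (T + 1) ⊆ (walks G T).biUnion
        (fun x => (nb G (x T)).image (fun z s => if s ≤ T then x s else z)) := by
      intro x hx
      have hw := isWalk_of_mem hx
      refine Finset.mem_biUnion.mpr ⟨fun s => x (min s T), trunc_mem T hw, ?_⟩
      refine Finset.mem_image.mpr ⟨x (T + 1), ?_, ?_⟩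
      · simp only [nb, Finset.mem_filter, Finset.mem_univ, true_and, min_self]
        exact hw T
      · funext s
        by_cases hs : s ≤ T
        · simp [hs]
        · rw [if_neg hs, eq_min_of_mem hx s, min_eq_right (by omega : T + 1 ≤ s)]
    calc (walks G (T + 1)).card ≤ _ := Finset.card_le_card hsub
      _ ≤ ∑ x ∈ walks G T, ((nb G (x T)).image (fun z s => if s ≤ T then x s else z)).card :=
        Finset.card_biUnion_le
      _ ≤ ∑ x ∈ walks G T, (Δ + 1) := Finset.sum_le_sum fun x _ =>
        Finset.card_image_le.trans (hΔ _)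
      _ = (walks G T).card * (Δ + 1) := by simp
      _ ≤ (Fintype.card V * (Δ + 1) ^ T) * (Δ + 1) := Nat.mul_le_mul_right _ ih
      _ = _ := by ring

theorem copsWin_of_fraction' {Δ : ℕ} (hΔ : ∀ y, (nb G y).card ≤ Δ + 1) {T m : ℕ} {ε : ℝ}
    (hε : ε ≤ 1)
    (h : ∀ S : Finset (ℕ → V), S.Nonempty → (∀ x ∈ S, IsWalk G x) →
      ∃ (st : ℕ → (ℕ → V) → V) (W : Finset (ℕ → V)), IsStrat G st ∧ W ⊆ S ∧
        (∀ x ∈ W, Caught st T x) ∧ ε * S.card ≤ W.card)
    (hm : Real.log (Fintype.card V) + T * Real.log ((Δ : ℝ) + 1) < ε * m) : CopsWin G m := by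
  classical
  have key : ∀ M : ℕ, ∃ (y : Fin M → ℕ → (ℕ → V) → V) (U : Finset (ℕ → V)), (∀ i, IsStrat G (y i)) ∧
      U ⊆ walks G T ∧ (∀ x ∈ walks G T, x ∉ U → ∃ i, Caught (y i) T x) ∧
      (U.card : ℝ) ≤ (1 - ε) ^ M * (walks G T).card := by
    intro M
    induction M with
    | zero =>
      exact ⟨fun i => i.elim0, walks G T, fun i => i.elim0, Finset.Subset.refl _,
        fun x hx hx' => absurd hx hx', by simp⟩
    | succ M ih =>
      obtain ⟨y, U, h1, h2, h3, h4⟩ := ih
      rcases U.eq_empty_or_nonempty with hU | hU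
      · obtain ⟨v0⟩ := (inferInstance : Nonempty V)
        refine ⟨Fin.cons (fun _ _ => v0) y, U, ?_, h2, ?_, ?_⟩
        · intro i
          refine Fin.cases ?_ (fun j => ?_) i
          · simp only [Fin.cons_zero]
            exact ⟨fun _ _ => Or.inl rfl, fun _ _ _ _ => rfl⟩
          · simp only [Fin.cons_succ]
            exact h1 j
        · intro x hx hxU
          obtain ⟨i, hi⟩ := h3 x hx hxU
          exact ⟨i.succ, by simpa using hi⟩
        · rw [hU]
          simp only [Finset.card_empty, Nat.cast_zero]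
          have : 0 ≤ 1 - ε := by linarith
          positivity
      · obtain ⟨y', W, h5, h6, h7, h8⟩ := h U hU (fun x hx => isWalk_of_mem (h2 hx))
        refine ⟨Fin.cons y' y, U \ W, ?_, ?_, ?_, ?_⟩
        · intro i
          refine Fin.cases ?_ (fun j => ?_) i
          · simp only [Fin.cons_zero]
            exact h5
          · simp only [Fin.cons_succ]
            exact h1 j
        · exact (Finset.sdiff_subset).trans h2
        · intro x hx hxU
          by_cases hxU' : x ∈ U
          · have : x ∈ W := by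
              by_contra hxW
              exact hxU (Finset.mem_sdiff.mpr ⟨hxU', hxW⟩)
            exact ⟨0, by simpa using h7 x this⟩
          · obtain ⟨i, hi⟩ := h3 x hx hxU'
            exact ⟨i.succ, by simpa using hi⟩
        · have h9 : ((U \ W).card : ℝ) = U.card - W.card := by
            rw [Finset.card_sdiff_of_subset h6, Nat.cast_sub (Finset.card_le_card h6)]
          rw [h9]
          have : 0 ≤ 1 - ε := by linarith
          calc (U.card : ℝ) - W.card ≤ (1 - ε) * U.card := by linarith
            _ ≤ (1 - ε) * ((1 - ε) ^ M * (walks G T).card) := by gcongr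
            _ = _ := by ring
  obtain ⟨y, U, h1, h2, h3, h4⟩ := key m
  have hn : (0 : ℝ) < Fintype.card V := by exact_mod_cast Fintype.card_pos
  have hd : (0 : ℝ) < (Δ : ℝ) + 1 := by positivity
  have hU : U = ∅ := by
    rw [← Finset.card_eq_zero]
    have h5 : (U.card : ℝ) < 1 := by
      have h6 : (1 - ε) ^ m ≤ Real.exp (-(ε * m)) := by
        have h7 : 1 - ε ≤ Real.exp (-ε) := Real.one_sub_le_exp_neg ε
        have h8 : 0 ≤ 1 - ε := by linarith
        calc (1 - ε) ^ m ≤ (Real.exp (-ε)) ^ m := by gcongr
          _ = Real.exp (-(ε * m)) := by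
            rw [← Real.exp_nat_mul]
            ring_nf
      have h9 : ((walks G T).card : ℝ) ≤
          Real.exp (Real.log (Fintype.card V) + T * Real.log ((Δ : ℝ) + 1)) := by
        calc ((walks G T).card : ℝ) ≤ (Fintype.card V : ℝ) * ((Δ : ℝ) + 1) ^ T := by
              exact_mod_cast card_walks_le' hΔ T
          _ = Real.exp (Real.log (Fintype.card V) + T * Real.log ((Δ : ℝ) + 1)) := by
            rw [Real.exp_add, Real.exp_log hn, mul_comm (T : ℝ), Real.exp_mul, Real.exp_log hd]
            norm_cast
      calc (U.card : ℝ) ≤ (1 - ε) ^ m * (walks G T).card := h4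
        _ ≤ Real.exp (-(ε * m)) *
            Real.exp (Real.log (Fintype.card V) + T * Real.log ((Δ : ℝ) + 1)) := by
          gcongr
        _ = Real.exp (Real.log (Fintype.card V) + T * Real.log ((Δ : ℝ) + 1) - ε * m) := by
          rw [← Real.exp_add]
          ring_nf
        _ < 1 := by
          rw [Real.exp_lt_one_iff]
          linarith
    have : U.card < 1 := by exact_mod_cast h5
    omega
  refine copsWin_of_strats y h1 fun x hx => ?_
  obtain ⟨i, hi⟩ := h3 _ (trunc_mem T hx) (by rw [hU]; simp)
  have h5 : Caught (y i) T x := by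
    refine (caught_congr (h1 i) fun j hj => ?_).mp hi
    simp [min_eq_left hj]
  obtain ⟨t, -, ht⟩ := h5
  exact ⟨i, t, ht⟩

end Pool.Agent.H86.MT
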