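import Pool.Agent.H86.MT.ReC
import Pool.Agent.H86.MT.ReD

/-!
MT-RED. From laws to the game.

`hist t x = [x (t-1), ..., x 0]`. For a finite nonempty set `S` of walks, `cnt S h` is the number of
pairs `(x, g)`, `x ∈ S`, `g ∈ Aut G`, such that the walk `g ∘ x` starts with `h`; `lawOf` is the
corresponding invariant law.

* `copsWin_of_val`: `fraction` and `copsWin_of_fraction'` with `T - 1` in the place of `T`.
-/

set_option autoImplicit false
set_option linter.unusedSectionVars false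

open N6ef48c04 Pool.Agent.H94.Mey

namespace Pool.Agent.H86.MT

variable {V : Type} [Fintype V] [Nonempty V] {G : SimpleGraph V} {p : List V → V → ℝ} {N : ℕ}

theorem copsWin_of_val {Δ : ℕ} (hΔ : ∀ y, (nb G y).card ≤ Δ + 1) {T m : ℕ} (hT : 1 ≤ T) {ε : ℝ}
    (hε : ε ≤ 1)
    (h : ∀ p : List V → V → ℝ, IsLaw G p → IsInv G p → ∃ y, ε ≤ val G p T [] y)
    (hm : Real.log (Fintype.card V) + T * Real.log ((Δ : ℝ) + 1) < ε * m) : CopsWin G m := by
  have hlog : 0 ≤ Real.log ((Δ : ℝ) + 1) := Real.log_nonneg (by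
    have : (0 : ℝ) ≤ (Δ : ℝ) := Nat.cast_nonneg _
    linarith)
  refine copsWin_of_fraction' hΔ (T := T - 1) hε ?_ ?_
  · intro S hS hw
    obtain ⟨y, hy⟩ := h (lawOf G S) (lawOf_isLaw hS hw) (lawOf_inv S)
    exact fraction hS hw hT hy
  · have h1 : ((T - 1 : ℕ) : ℝ) ≤ (T : ℝ) := Nat.cast_le.2 (Nat.sub_le _ _)
    have h2 := mul_le_mul_of_nonneg_right h1 hlog
    linarith

end Pool.Agent.H86.MT
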