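import Pool.Agent.H86.MT.PaC
import Pool.Agent.H86.MT.ReE

/-!
MT-FIN. The final theorem.
-/

set_option autoImplicit false
set_option linter.unusedSectionVars false

open N6ef48c04

namespace Pool.Agent.H86.MT

theorem card_nb_le {V : Type} [Fintype V] {G : SimpleGraph V} {Δ : ℕ}
    (h : ∀ x : V, {y | G.Adj x y}.ncard ≤ Δ) (y : V) : (nb G y).card ≤ Δ + 1 := by
  classical
  have h1 : nb G y ⊆ insert y (Finset.univ.filter (fun z => G.Adj y z)) := by
    intro z hz
    rw [mem_nb] at hz
    rcases hz with hz | hz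
    · rw [hz]; exact Finset.mem_insert_self _ _
    · exact Finset.mem_insert_of_mem (Finset.mem_filter.2 ⟨Finset.mem_univ _, hz⟩)
  have h2 : (Finset.univ.filter (fun z => G.Adj y z)).card ≤ Δ := by
    have := h y
    rwa [Set.ncard_eq_toFinset_card', Set.toFinset_ofPred] at this
  calc (nb G y).card ≤ _ := Finset.card_le_card h1
    _ ≤ _ := Finset.card_insert_le _ _
    _ ≤ _ := by omega

open Classical in
theorem expd_of {V : Type} [Fintype V] {G : SimpleGraph V} {α : ℝ}
    (h : ∀ A : Finset V, 2 * A.card ≤ Fintype.card V →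
      α * (A.card : ℝ) ≤ ((Finset.univ.filter (fun y => y ∉ A ∧ ∃ x ∈ A, G.Adj x y)).card : ℝ)) :
    Expd G α := by
  intro A hA
  have h1 := h A hA
  have h2 : A.card + (Finset.univ.filter (fun y => y ∉ A ∧ ∃ x ∈ A, G.Adj x y)).card ≤
      (A.biUnion (nb G)).card := by
    rw [← Finset.card_union_of_disjoint]
    · refine Finset.card_le_card ?_
      intro y hy
      rw [Finset.mem_union] at hy
      rw [Finset.mem_biUnion]
      rcases hy with hy | hy
      · exact ⟨y, hy, nb_self G y⟩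
      · obtain ⟨-, x, hx, hxy⟩ := (Finset.mem_filter.1 hy).2
        exact ⟨x, hx, (mem_nb G).2 (Or.inr hxy)⟩
    · rw [Finset.disjoint_left]
      intro y hy hy'
      exact (Finset.mem_filter.1 hy').2.1 hy
  have h3 : (A.card : ℝ) + ((Finset.univ.filter (fun y => y ∉ A ∧ ∃ x ∈ A, G.Adj x y)).card : ℝ) ≤
      ((A.biUnion (nb G)).card : ℝ) := by exact_mod_cast h2
  linarith

theorem copsWin_card {V : Type} [Fintype V] (G : SimpleGraph V) :
    CopsWin G (Fintype.card V) := by
  refine ⟨(Fintype.equivFin V).symm, fun r => ⟨0, ?_⟩⟩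
  exact ⟨Fintype.equivFin V r, by simp⟩

theorem copNumber_le {V : Type} {G : SimpleGraph V} {k : ℕ} (h : CopsWin G k) :
    copNumber G ≤ k := Nat.sInf_le h

/-- Meyniel's bound for vertex-transitive expanders of bounded degree -/
theorem main (Δ : ℕ) {α : ℝ} (hα : 0 < α) : ∃ C : ℝ, ∀ (V : Type) [Fintype V] [Nonempty V]
    (G : SimpleGraph V), VT G → Expd G α → (∀ y, (nb G y).card ≤ Δ + 1) →
      (copNumber G : ℝ) ≤ C * Real.sqrt (Fintype.card V) := by
  obtain ⟨ε, K1, n0, hε, hε1, hK1, hn0, H⟩ := value_thm Δ hα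
  have hlogΔ : 0 ≤ Real.log ((Δ : ℝ) + 1) := Real.log_nonneg (by
    have : (0 : ℝ) ≤ Δ := Nat.cast_nonneg _
    linarith)
  refine ⟨n0 + ((1 + 4 * (K1 + 1) * Real.log ((Δ : ℝ) + 1)) / ε + 2), ?_⟩
  intro V _ _ G hT hE hΔ
  set n := Fintype.card V with hn
  have hnpos : (1 : ℝ) ≤ n := by
    have : 1 ≤ n := Fintype.card_pos
    exact_mod_cast this
  have hs1 : 1 ≤ Real.sqrt n := Real.one_le_sqrt.2 hnpos
  have hs2 : Real.sqrt n * Real.sqrt n = n := Real.mul_self_sqrt (by linarith)
  have hc : 0 ≤ (1 + 4 * (K1 + 1) * Real.log ((Δ : ℝ) + 1)) / ε + 2 := by positivity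
  by_cases hn1 : n0 ≤ n
  · set T := 4 * ⌈K1 * Real.sqrt n⌉₊ with hT'
    have hT1 : 1 ≤ T := by
      have : 0 < ⌈K1 * Real.sqrt n⌉₊ := Nat.ceil_pos.2 (by positivity)
      omega
    have hTle : (T : ℝ) ≤ 4 * (K1 + 1) * Real.sqrt n := by
      have := (Nat.ceil_lt_add_one (show 0 ≤ K1 * Real.sqrt n by positivity)).le
      rw [hT']
      push_cast
      nlinarith
    set X := (Real.log n + T * Real.log ((Δ : ℝ) + 1)) / ε with hX
    have hlogn : Real.log n ≤ Real.sqrt n := by
      have h1 : Real.log n = 2 * Real.log (Real.sqrt n) := by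
        rw [Real.log_sqrt (by linarith)]; ring
      have h2 := Real.log_le_sub_one_of_pos (show 0 < Real.sqrt n / 2 by positivity)
      have h3 : Real.log (Real.sqrt n / 2) = Real.log (Real.sqrt n) - Real.log 2 :=
        Real.log_div (by positivity) (by norm_num)
      have h4 : Real.log 2 < 1 := by
        have := Real.log_two_lt_d9
        linarith
      linarith
    have hX0 : 0 ≤ X := by
      have : 0 ≤ Real.log n := Real.log_nonneg hnpos
      positivity
    have hXle : X ≤ (1 + 4 * (K1 + 1) * Real.log ((Δ : ℝ) + 1)) / ε * Real.sqrt n := by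
      rw [hX, div_mul_eq_mul_div]
      refine div_le_div_of_nonneg_right ?_ hε.le
      have := mul_le_mul_of_nonneg_right hTle hlogΔ
      nlinarith
    have hw : CopsWin G (⌈X⌉₊ + 1) := by
      refine copsWin_of_val hΔ hT1 hε1 (fun p hL hI => ?_) ?_
      · exact H V G hT hE hΔ hn1 p hL hI
      · have h1 : X < (⌈X⌉₊ + 1 : ℕ) := by
          push_cast
          have := Nat.le_ceil X
          linarith
        rw [hX, div_lt_iff₀ hε] at h1
        rw [mul_comm ε]
        exact h1
    have h1 : (copNumber G : ℝ) ≤ (⌈X⌉₊ + 1 : ℕ) := by exact_mod_cast copNumber_le hw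
    have h2 := (Nat.ceil_lt_add_one hX0).le
    push_cast at h1
    have h3 : (0 : ℝ) ≤ n0 * Real.sqrt n := by positivity
    nlinarith
  · push Not at hn1
    have h1 : (copNumber G : ℝ) ≤ n := by exact_mod_cast copNumber_le (copsWin_card G)
    have h2 : (n : ℝ) ≤ n0 := by exact_mod_cast hn1.le
    have h3 : (n0 : ℝ) ≤ n0 * Real.sqrt n := by
      have : (0 : ℝ) ≤ n0 := Nat.cast_nonneg _
      nlinarith
    have h4 : 0 ≤ ((1 + 4 * (K1 + 1) * Real.log ((Δ : ℝ) + 1)) / ε + 2) * Real.sqrt n := by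
      positivity
    nlinarith

end Pool.Agent.H86.MT
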