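import Pool.Agent.H86.MT.Defs

/-!
MT-GUESS. The guessing cop (section 7 of h86_transitive.md).

`Gp k z` is the weight given, knowing the history `h0`, to the event that the robber is at `z` after
`k` more steps. `prev k i x` = the weight of position `x` at time `k - i` (a point mass when `k - i ≤ 0`).
* `Gp_nonneg`, `sum_Gp`: strong induction on `k`; total mass of `prev k i` is at most `1`; for `k ≥ 1` the mass is
  at most `∑_{i ∈ [N0, D)} c1 exp(-c0 i) + 1/2 ≤ 1` (`c1 = (1 - exp(-c0))/2`, geometric series; and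
  `∑_z ∑_{x ∈ nb z} prev x / (Δ+1) ≤ 1`).
* `Wk G s`: consecutive positions of the list are adjacent or equal. `F_Wk`: `F p k f h ≤ F p k g h` if `f s ≤ g s` for the
  extensions `s` of `h` with `Wk s` (`supp`).
-/

set_option autoImplicit false
set_option linter.unusedSectionVars false

open N6ef48c04

namespace Pool.Agent.H86.MT

variable {V : Type} [Fintype V] [Nonempty V] {G : SimpleGraph V} {p : List V → V → ℝ} {N : ℕ}

theorem F_Wk (hL : IsLaw G p) {k : ℕ} {f g : List V → ℝ} {h : List V} (h0 : h ≠ [])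
    (hfg : ∀ s : List V, s.length = h.length + k → s.drop k = h →
      (∀ j < k, ∃ x y t, s.drop j = x :: y :: t ∧ Step G y x) → f s ≤ g s) :
    F p k f h ≤ F p k g h := by
  induction k generalizing h with
  | zero => exact hfg h rfl rfl (fun j hj => absurd hj (Nat.not_lt_zero j))
  | succ k ih =>
    obtain ⟨y, t, rfl⟩ : ∃ y t, h = y :: t := by
      cases h with
      | nil => exact absurd rfl h0
      | cons y t => exact ⟨y, t, rfl⟩
    rw [F_succ, F_succ]
    refine Finset.sum_le_sum fun x _ => ?_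
    by_cases hx : p (y :: t) x = 0
    · rw [hx, zero_mul, zero_mul]
    · have hst : Step G y x := hL.supp y t x hx
      refine mul_le_mul_of_nonneg_left (ih (List.cons_ne_nil _ _) ?_) (hL.nonneg _ _)
      intro s hs1 hs2 hs3
      refine hfg s ?_ ?_ ?_
      · rw [hs1]; simp only [List.length_cons]; ring
      · rw [← List.drop_drop, hs2]
        first
          | rfl
          | simp
      · intro j hj
        rcases Nat.lt_succ_iff_lt_or_eq.1 hj with hj | hj
        · exact hs3 j hj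
        · exact ⟨x, y, t, by rw [hj, hs2], hst⟩

variable (G p) in
open Classical in
/-- weight of the position `i` steps before the time `k` -/
noncomputable def gprev (c0 : ℝ) (a b N0 D Δ : ℕ) (h0 : List V) (k i : ℕ) (x : V) : ℝ :=
  if 1 ≤ i ∧ i < k then Gp G p c0 a b N0 D Δ h0 (k - i) x
    else if x = hd (h0.drop (i - k)) then 1 else 0

open Classical in
theorem Gp_zero' (c0 : ℝ) (a b N0 D Δ : ℕ) (h0 : List V) (z : V) :
    Gp G p c0 a b N0 D Δ h0 0 z = if z = hd h0 then 1 else 0 := by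
  rw [Gp]
  simp

open Classical in
theorem Gp_pos' (c0 : ℝ) (a b N0 D Δ : ℕ) (h0 : List V) {k : ℕ} (hk : k ≠ 0) (z : V) :
    Gp G p c0 a b N0 D Δ h0 k z =
    (∑ i ∈ Finset.Ico N0 D, (1 - Real.exp (-c0)) / 2 * Real.exp (-(c0 * i)) *
      ∑ x, (if z ∈ Sset p c0 a b i x then
        gprev G p c0 a b N0 D Δ h0 k i x / ((Sset p c0 a b i x).card : ℝ) else 0)) +
    1 / 2 * ∑ x ∈ nb G z, gprev G p c0 a b N0 D Δ h0 k 1 x / ((Δ : ℝ) + 1) := by
  rw [Gp, if_neg hk]
  congr 1
  congr 1
  refine Finset.sum_congr rfl fun x _ => ?_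
  congr 1
  unfold gprev
  by_cases h1 : 1 < k
  · rw [dif_pos h1, if_pos ⟨le_rfl, h1⟩]
  · have h2 : ¬ (1 ≤ 1 ∧ 1 < k) := fun h => h1 h.2
    have h3 : 1 - k = 0 := by omega
    rw [dif_neg h1, if_neg h2, h3, List.drop_zero]

theorem gprev_nonneg_of {c0 : ℝ} (a b N0 D Δ : ℕ) (h0 : List V) (k : ℕ)
    (ih : ∀ m < k, ∀ z, 0 ≤ Gp G p c0 a b N0 D Δ h0 m z) (i : ℕ) (x : V) :
    0 ≤ gprev G p c0 a b N0 D Δ h0 k i x := by
  unfold gprev
  split_ifs with h1 h2
  · exact ih _ (by omega) x
  · exact zero_le_one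
  · exact le_rfl

theorem Gp_nonneg {c0 : ℝ} (hc0 : 0 < c0) (a b N0 D Δ : ℕ) (h0 : List V) (k : ℕ) (z : V) :
    0 ≤ Gp G p c0 a b N0 D Δ h0 k z := by
  classical
  induction k using Nat.strong_induction_on generalizing z with
  | _ k ih =>
    by_cases hk : k = 0
    · subst hk
      rw [Gp_zero']
      split_ifs
      · exact zero_le_one
      · exact le_rfl
    · have hp := gprev_nonneg_of (G := G) (p := p) (c0 := c0) a b N0 D Δ h0 k ih
      rw [Gp_pos' c0 a b N0 D Δ h0 hk z]
      have he : 0 ≤ (1 - Real.exp (-c0)) / 2 := by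
        have : Real.exp (-c0) ≤ 1 := Real.exp_le_one_iff.2 (by linarith)
        linarith
      refine add_nonneg ?_ ?_
      · refine Finset.sum_nonneg fun i _ => mul_nonneg (mul_nonneg he (Real.exp_pos _).le) ?_
        refine Finset.sum_nonneg fun x _ => ?_
        split_ifs
        · exact div_nonneg (hp i x) (Nat.cast_nonneg _)
        · exact le_rfl
      · refine mul_nonneg (by norm_num) (Finset.sum_nonneg fun x _ => ?_)
        exact div_nonneg (hp 1 x) (by positivity)

theorem gprev_nonneg {c0 : ℝ} (hc0 : 0 < c0) (a b N0 D Δ : ℕ) (h0 : List V) (k i : ℕ) (x : V) :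
    0 ≤ gprev G p c0 a b N0 D Δ h0 k i x :=
  gprev_nonneg_of a b N0 D Δ h0 k (fun m _ z => Gp_nonneg hc0 a b N0 D Δ h0 m z) i x

theorem gprev_sum_of {c0 : ℝ} (a b N0 D Δ : ℕ) (h0 : List V) (k : ℕ)
    (ih : ∀ m < k, ∑ z, Gp G p c0 a b N0 D Δ h0 m z ≤ 1) (i : ℕ) :
    ∑ x, gprev G p c0 a b N0 D Δ h0 k i x ≤ 1 := by
  classical
  unfold gprev
  by_cases h1 : 1 ≤ i ∧ i < k
  · simp only [if_pos h1]
    exact ih _ (by omega)
  · simp only [if_neg h1]
    simp

theorem geo_half {c0 : ℝ} (hc0 : 0 < c0) (N0 D : ℕ) :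
    ∑ i ∈ Finset.Ico N0 D, (1 - Real.exp (-c0)) / 2 * Real.exp (-(c0 * i)) ≤ 1 / 2 := by
  have hr0 : 0 < Real.exp (-c0) := Real.exp_pos _
  have hr1 : Real.exp (-c0) < 1 := by
    rw [← Real.exp_zero]; exact Real.exp_lt_exp.2 (by linarith)
  set r := Real.exp (-c0) with hr
  have he : ∀ i : ℕ, Real.exp (-(c0 * i)) = r ^ i := by
    intro i
    rw [hr, ← Real.exp_nat_mul]
    congr 1
    ring
  simp only [he]
  rw [← Finset.mul_sum]
  have h1 : ∑ i ∈ Finset.Ico N0 D, r ^ i ≤ ∑ i ∈ Finset.range D, r ^ i := by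
    refine Finset.sum_le_sum_of_subset_of_nonneg ?_ (fun i _ _ => by positivity)
    intro i hi
    rw [Finset.mem_Ico] at hi
    exact Finset.mem_range.2 hi.2
  have h2 : (1 - r) * ∑ i ∈ Finset.range D, r ^ i = 1 - r ^ D := by
    exact mul_neg_geom_sum r D
  have h3 : (1 - r) * ∑ i ∈ Finset.Ico N0 D, r ^ i ≤ 1 := by
    calc (1 - r) * ∑ i ∈ Finset.Ico N0 D, r ^ i ≤ (1 - r) * ∑ i ∈ Finset.range D, r ^ i :=
          mul_le_mul_of_nonneg_left h1 (by linarith)
      _ = 1 - r ^ D := h2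
      _ ≤ 1 := by linarith [pow_pos hr0 D]
  linarith

theorem sum_Gp {c0 : ℝ} (hc0 : 0 < c0) (a b : ℕ) {N0 : ℕ} (hN0 : 1 ≤ N0) (D : ℕ) {Δ : ℕ}
    (hΔ : ∀ y, (nb G y).card ≤ Δ + 1) (h0 : List V) (k : ℕ) :
    ∑ z, Gp G p c0 a b N0 D Δ h0 k z ≤ 1 := by
  classical
  induction k using Nat.strong_induction_on with
  | _ k ih =>
    by_cases hk : k = 0
    · subst hk
      simp only [Gp_zero']
      simp
    · have hs := gprev_sum_of (G := G) (p := p) (c0 := c0) a b N0 D Δ h0 k ih
      have hn := gprev_nonneg (G := G) (p := p) hc0 a b N0 D Δ h0 k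
      simp only [Gp_pos' c0 a b N0 D Δ h0 hk]
      rw [Finset.sum_add_distrib, Finset.sum_comm, ← Finset.mul_sum]
      have he : 0 ≤ (1 - Real.exp (-c0)) / 2 := by
        have : Real.exp (-c0) ≤ 1 := Real.exp_le_one_iff.2 (by linarith)
        linarith
      have h1 : ∑ i ∈ Finset.Ico N0 D, ∑ z, (1 - Real.exp (-c0)) / 2 * Real.exp (-(c0 * i)) *
          ∑ x, (if z ∈ Sset p c0 a b i x then
            gprev G p c0 a b N0 D Δ h0 k i x / ((Sset p c0 a b i x).card : ℝ) else 0) ≤ 1 / 2 := by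
        refine le_trans (Finset.sum_le_sum fun i _ => ?_) (geo_half hc0 N0 D)
        rw [← Finset.mul_sum]
        have h2 : ∑ z, ∑ x, (if z ∈ Sset p c0 a b i x then
            gprev G p c0 a b N0 D Δ h0 k i x / ((Sset p c0 a b i x).card : ℝ) else 0) ≤ 1 := by
          rw [Finset.sum_comm]
          refine le_trans (Finset.sum_le_sum fun x _ => ?_) (hs i)
          rw [← Finset.sum_filter, Finset.sum_const, nsmul_eq_mul]
          have h3 : (Finset.univ.filter (fun z => z ∈ Sset p c0 a b i x)) = Sset p c0 a b i x := by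
            ext z; simp
          rw [h3]
          by_cases h4 : ((Sset p c0 a b i x).card : ℝ) = 0
          · rw [h4, zero_mul]; exact hn i x
          · rw [mul_div_cancel₀ _ h4]
        calc (1 - Real.exp (-c0)) / 2 * Real.exp (-(c0 * i)) * _
            ≤ (1 - Real.exp (-c0)) / 2 * Real.exp (-(c0 * i)) * 1 :=
              mul_le_mul_of_nonneg_left h2 (mul_nonneg he (Real.exp_pos _).le)
          _ = _ := mul_one _
      have h2 : ∑ z, ∑ x ∈ nb G z, gprev G p c0 a b N0 D Δ h0 k 1 x / ((Δ : ℝ) + 1) ≤ 1 := by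
        have hD : (0 : ℝ) < (Δ : ℝ) + 1 := by positivity
        calc ∑ z, ∑ x ∈ nb G z, gprev G p c0 a b N0 D Δ h0 k 1 x / ((Δ : ℝ) + 1)
            = ∑ z, ∑ x, (if x ∈ nb G z then
                gprev G p c0 a b N0 D Δ h0 k 1 x / ((Δ : ℝ) + 1) else 0) := by
              refine Finset.sum_congr rfl fun z _ => ?_
              rw [← Finset.sum_filter]
              congr 1
              ext x; simp
          _ = ∑ x, ∑ z, (if z ∈ nb G x then
                gprev G p c0 a b N0 D Δ h0 k 1 x / ((Δ : ℝ) + 1) else 0) := by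
              rw [Finset.sum_comm]
              refine Finset.sum_congr rfl fun x _ => Finset.sum_congr rfl fun z _ => ?_
              simp only [mem_nb_comm G (y := z) (z := x)]
          _ = ∑ x, ((nb G x).card : ℝ) * (gprev G p c0 a b N0 D Δ h0 k 1 x / ((Δ : ℝ) + 1)) := by
              refine Finset.sum_congr rfl fun x _ => ?_
              rw [← Finset.sum_filter, Finset.sum_const, nsmul_eq_mul]
              congr 3
              ext z; simp
          _ ≤ ∑ x, gprev G p c0 a b N0 D Δ h0 k 1 x := by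
              refine Finset.sum_le_sum fun x _ => ?_
              have h3 : ((nb G x).card : ℝ) ≤ (Δ : ℝ) + 1 := by exact_mod_cast hΔ x
              calc ((nb G x).card : ℝ) * (gprev G p c0 a b N0 D Δ h0 k 1 x / ((Δ : ℝ) + 1))
                  ≤ ((Δ : ℝ) + 1) * (gprev G p c0 a b N0 D Δ h0 k 1 x / ((Δ : ℝ) + 1)) :=
                    mul_le_mul_of_nonneg_right h3 (div_nonneg (hn 1 x) hD.le)
                _ = _ := mul_div_cancel₀ _ hD.ne'
          _ ≤ 1 := hs 1
      linarith

end Pool.Agent.H86.MT
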