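import Pool.Agent.H86.MT.InvB

/-!
MT-PRED. Coincidences are predictable (section 6 of h86_transitive.md).

* `joint_inv`: `E_map`. `sum_joint`: `∑_z joint u i x z = 1 / n` for `i < u` (`E_at`).
* `sum_qb`: `∑_z qb i x z ≤ 1`. `card_S`: from `sum_qb` and the definition of `Sset`.
* `Prd_map`: invariance of the predicate `Prd` (`qb_inv`; `hd (s.map g) = g (hd s)` for nonempty lists).
-/

set_option autoImplicit false
set_option linter.unusedSectionVars false

open N6ef48c04

namespace Pool.Agent.H86.MT

variable {V : Type} [Fintype V] [Nonempty V] {G : SimpleGraph V} {p : List V → V → ℝ} {N : ℕ}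

private theorem hd_map' (g : G ≃g G) {s : List V} (h : s ≠ []) : hd (s.map g) = g (hd s) := by
  cases s with
  | nil => exact absurd rfl h
  | cons x s => rfl

theorem joint_nonneg (hL : IsLaw G p) (u i : ℕ) (x z : V) : 0 ≤ joint p u i x z := by
  unfold joint E
  refine F_nonneg hL.nonneg fun s _ => ?_
  split_ifs <;> norm_num

theorem joint_inv (hI : IsInv G p) (g : G ≃g G) {u i : ℕ} (hi : i < u) (x z : V) :
    joint p u i (g x) (g z) = joint p u i x z := by
  classical
  unfold joint
  rw [← E_map hI g u]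
  unfold E
  refine F_congr_of fun s hs => ?_
  have hs' : s.length = u := by simpa using hs
  have h1 : s ≠ [] := by
    intro h
    rw [h] at hs'
    simp only [List.length_nil] at hs'
    omega
  have h2 : s.drop i ≠ [] := by
    intro h
    have := congrArg List.length h
    rw [List.length_drop, List.length_nil] at this
    omega
  rw [← List.map_drop, hd_map' g h1, hd_map' g h2, EmbeddingLike.apply_eq_iff_eq,
    EmbeddingLike.apply_eq_iff_eq]

theorem sum_joint (hL : IsLaw G p) (hI : IsInv G p) (hT : VT G) {u i : ℕ} (hi : i < u) (x : V) :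
    ∑ z, joint p u i x z = 1 / Fintype.card V := by
  classical
  have h1 : ∑ z, joint p u i x z = E p u (fun s => if hd (s.drop i) = x then (1 : ℝ) else 0) := by
    unfold joint E
    rw [← F_sum]
    congr 1
    funext s
    by_cases h : hd (s.drop i) = x
    · simp [h]
    · simp [h]
  have h2 := E_at (p := p) hI hT (A := fun _ => (1 : ℝ)) (fun _ _ => rfl) u
    (fun s => hd (s.drop i)) (fun g s hs => ?_) x
  · have h3 : E p u (fun _ => (1 : ℝ)) = 1 := F_const hL.sum_one _ _ _
    rw [h3] at h2
    rw [h1]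
    convert h2 using 2
  · have h2 : s.drop i ≠ [] := by
      intro h
      have := congrArg List.length h
      rw [List.length_drop, List.length_nil] at this
      omega
    show hd ((s.map g).drop i) = _
    rw [← List.map_drop, hd_map' g h2]

theorem qb_nonneg (hL : IsLaw G p) {a b : ℕ} (hab : a < b) (i : ℕ) (x z : V) :
    0 ≤ qb p a b i x z := by
  unfold qb
  have h : (a : ℝ) < b := by exact_mod_cast hab
  exact mul_nonneg (div_nonneg (Nat.cast_nonneg _) (by linarith))
    (Finset.sum_nonneg fun u _ => joint_nonneg hL _ _ _ _)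

theorem sum_qb (hL : IsLaw G p) (hI : IsInv G p) (hT : VT G) {a b : ℕ} (ha : 1 ≤ a) (hab : a < b)
    (i : ℕ) (x : V) : ∑ z, qb p a b i x z ≤ 1 := by
  have hn : (0 : ℝ) < Fintype.card V := by exact_mod_cast Fintype.card_pos
  have hba : (a : ℝ) < b := by exact_mod_cast hab
  have h1 : ∑ z, qb p a b i x z =
      (Fintype.card V : ℝ) / ((b : ℝ) - a) * ∑ u ∈ Finset.Ico (a + i) b, ∑ z, joint p u i x z := by
    unfold qb
    rw [← Finset.mul_sum, Finset.sum_comm]
  have h2 : ∑ u ∈ Finset.Ico (a + i) b, ∑ z, joint p u i x z =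
      ((b - (a + i) : ℕ) : ℝ) * (1 / Fintype.card V) := by
    rw [Finset.sum_congr rfl fun u hu => sum_joint hL hI hT (i := i)
      (by have := (Finset.mem_Ico.1 hu).1; omega) x]
    rw [Finset.sum_const, Nat.card_Ico, nsmul_eq_mul]
  have h3 : ((b - (a + i) : ℕ) : ℝ) ≤ (b : ℝ) - a := by
    have : ((b - (a + i) : ℕ) : ℝ) ≤ ((b - a : ℕ) : ℝ) := by
      exact_mod_cast (by omega : b - (a + i) ≤ b - a)
    rwa [Nat.cast_sub hab.le] at this
  rw [h1, h2]
  have h4 : (0 : ℝ) < (b : ℝ) - a := by linarith
  rw [div_mul_eq_mul_div, div_le_one h4]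
  calc (Fintype.card V : ℝ) * (((b - (a + i) : ℕ) : ℝ) * (1 / Fintype.card V))
      = ((b - (a + i) : ℕ) : ℝ) := by field_simp
    _ ≤ _ := h3

theorem card_S (hL : IsLaw G p) (hI : IsInv G p) (hT : VT G) {a b : ℕ} (ha : 1 ≤ a) (hab : a < b)
    (c0 : ℝ) (i : ℕ) (x : V) : ((Sset p c0 a b i x).card : ℝ) ≤ Real.exp (c0 * i) := by
  have h1 : ((Sset p c0 a b i x).card : ℝ) * Real.exp (-(c0 * i)) ≤ 1 := by
    calc ((Sset p c0 a b i x).card : ℝ) * Real.exp (-(c0 * i))
        = ∑ _z ∈ Sset p c0 a b i x, Real.exp (-(c0 * i)) := by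
          rw [Finset.sum_const, nsmul_eq_mul]
      _ ≤ ∑ z ∈ Sset p c0 a b i x, qb p a b i x z := by
          refine Finset.sum_le_sum fun z hz => ?_
          unfold Sset at hz
          exact (Finset.mem_filter.1 hz).2
      _ ≤ ∑ z, qb p a b i x z :=
          Finset.sum_le_univ_sum_of_nonneg fun z => qb_nonneg hL hab i x z
      _ ≤ 1 := sum_qb hL hI hT ha hab i x
  have h2 := Real.exp_pos (c0 * i)
  calc ((Sset p c0 a b i x).card : ℝ)
      = ((Sset p c0 a b i x).card : ℝ) * Real.exp (-(c0 * i)) * Real.exp (c0 * i) := by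
        rw [mul_assoc, ← Real.exp_add]
        simp
    _ ≤ 1 * Real.exp (c0 * i) := mul_le_mul_of_nonneg_right h1 h2.le
    _ = _ := one_mul _

theorem Prd_map (hI : IsInv G p) {c0 : ℝ} {a b N0 D : ℕ} (ha : 1 ≤ a) (g : G ≃g G) (s : List V) :
    Prd p c0 a b N0 D (s.map g) ↔ Prd p c0 a b N0 D s := by
  have hq : ∀ (i : ℕ) (x z : V), qb p a b i (g x) (g z) = qb p a b i x z := by
    intro i x z
    unfold qb
    congr 1
    refine Finset.sum_congr rfl fun u hu => joint_inv hI g ?_ x z
    have := (Finset.mem_Ico.1 hu).1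
    omega
  unfold Prd
  refine exists_congr fun i => and_congr_right fun _ => and_congr_right fun _ => ?_
  rw [List.length_map]
  refine and_congr_right fun hl => ?_
  have h1 : s ≠ [] := by
    intro h
    rw [h] at hl
    simp only [List.length_nil] at hl
    omega
  have h2 : s.drop i ≠ [] := by
    intro h
    have := congrArg List.length h
    rw [List.length_drop, List.length_nil] at this
    omega
  rw [← List.map_drop, hd_map' g h1, hd_map' g h2]
  unfold Sset
  rw [Finset.mem_filter, Finset.mem_filter, hq]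
  simp

end Pool.Agent.H86.MT
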