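import Pool.Agent.H86.MT.GuA
import Pool.Agent.H86.MT.PrA

/-!
MT-GUESS. The guessing cop (section 7 of h86_transitive.md).

`Gp k z` is the weight given, knowing the history `h0`, to the event that the robber is at `z` after
`k` more steps. `prev k i x` = the weight of position `x` at time `k - i` (a point mass when `k - i ≤ 0`).
* `Gp_lower`: for `s` of length `h0.length + k` with `s.drop k = h0`:
  `Gp k (hd s) ≥ exp (-(3 c0 (k + D) + B bad))`, `bad = #{j < k | ¬ Prd (s.drop j)}`, `B = log (2 (Δ + 1))`.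
  Strong induction on `k`. `k = 0`: `hd s = hd h0`, `Gp = 1`. `k ≥ 1`, `Prd s` with lag `i`:
  `Gp k (hd s) ≥ c1 exp(-c0 i) / #S * prev k i (hd (s.drop i))`, `#S ≤ exp (c0 i)`, `exp (-c0 i) ≤ exp(-c0 N0) ≤ c1`, so the factor
  is `≥ exp (-3 c0 i)`; if `i < k` use the induction hypothesis for `s.drop i` (bad decreases), if `i ≥ k` then
  `s.drop i = h0.drop (i - k)`, `prev = 1` and `i < D ≤ k + D`. `k ≥ 1`, `¬ Prd s`: the second term with
  `x = hd (s.drop 1)`: here one needs `Step G x (hd s)`, which holds for all `s` of positive probability: this is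
  why the final statement `guess_main` is in terms of `F p D`, and `Gp_lower` has the hypothesis `Wk s`.
-/

set_option autoImplicit false
set_option linter.unusedSectionVars false

open N6ef48c04

namespace Pool.Agent.H86.MT

variable {V : Type} [Fintype V] [Nonempty V] {G : SimpleGraph V} {p : List V → V → ℝ} {N : ℕ}

theorem bad_drop_le (c0 : ℝ) (a b N0 D : ℕ) {k i : ℕ} (hi : i ≤ k) (s : List V) :
    bad p c0 a b N0 D (k - i) (s.drop i) ≤ bad p c0 a b N0 D k s := by
  classical
  unfold bad
  refine Finset.card_le_card_of_injOn (fun j => i + j) ?_ ?_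
  · intro j hj
    have hj' := Finset.mem_filter.1 (Finset.mem_coe.1 hj)
    have hj1 := Finset.mem_range.1 hj'.1
    have hj2 : i + j < k := by omega
    refine Finset.mem_coe.2 (Finset.mem_filter.2 ⟨Finset.mem_range.2 hj2, ?_⟩)
    have := hj'.2
    rw [List.drop_drop] at this
    exact this
  · intro x _ y _ hxy
    have hxy' : i + x = i + y := hxy
    omega

theorem bad_drop_one (c0 : ℝ) (a b N0 D : ℕ) {k : ℕ} (hk : 1 ≤ k) (s : List V)
    (hs : ¬ Prd p c0 a b N0 D s) :
    bad p c0 a b N0 D (k - 1) (s.drop 1) + 1 ≤ bad p c0 a b N0 D k s := by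
  classical
  unfold bad
  have h1 : ((Finset.range (k - 1)).filter
      (fun j => ¬ Prd p c0 a b N0 D ((s.drop 1).drop j))).card ≤
      (((Finset.range k).filter (fun j => ¬ Prd p c0 a b N0 D (s.drop j))).erase 0).card := by
    refine Finset.card_le_card_of_injOn (fun j => 1 + j) ?_ ?_
    · intro j hj
      have hj' := Finset.mem_filter.1 (Finset.mem_coe.1 hj)
      have hj1 := Finset.mem_range.1 hj'.1
      have hj2 : 1 + j ≠ 0 := by omega
      have hj3 : 1 + j < k := by omega
      refine Finset.mem_coe.2 (Finset.mem_erase.2 ⟨hj2,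
        Finset.mem_filter.2 ⟨Finset.mem_range.2 hj3, ?_⟩⟩)
      have := hj'.2
      rw [List.drop_drop] at this
      exact this
    · intro x _ y _ hxy
      have hxy' : 1 + x = 1 + y := hxy
      omega
  have h0 : (0 : ℕ) ∈ (Finset.range k).filter (fun j => ¬ Prd p c0 a b N0 D (s.drop j)) := by
    refine Finset.mem_filter.2 ⟨Finset.mem_range.2 (by omega), ?_⟩
    rw [List.drop_zero]
    exact hs
  have h2 := Finset.card_erase_add_one h0
  omega

open Classical in
/-- weight of a position at time `k - i` -/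
noncomputable def prevG (G : SimpleGraph V) (p : List V → V → ℝ) (c0 : ℝ) (a b N0 D Δ : ℕ)
    (h0 : List V) (k i : ℕ) (x : V) : ℝ :=
  if 1 ≤ i ∧ i < k then Gp G p c0 a b N0 D Δ h0 (k - i) x
    else if x = hd (h0.drop (i - k)) then 1 else 0

theorem prevG_nonneg {c0 : ℝ} (hc0 : 0 < c0) (a b N0 D Δ : ℕ) (h0 : List V) (k i : ℕ) (x : V) :
    0 ≤ prevG G p c0 a b N0 D Δ h0 k i x := by
  unfold prevG
  split_ifs
  · exact Gp_nonneg hc0 _ _ _ _ _ _ _ _
  · exact zero_le_one
  · exact le_rfl

open Classical in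
theorem Gp_eq {c0 : ℝ} (a b N0 D Δ : ℕ) (h0 : List V) {k : ℕ} (hk : k ≠ 0) (z : V) :
    Gp G p c0 a b N0 D Δ h0 k z =
      (∑ i ∈ Finset.Ico N0 D, (1 - Real.exp (-c0)) / 2 * Real.exp (-(c0 * i)) *
        ∑ x, (if z ∈ Sset p c0 a b i x then
          prevG G p c0 a b N0 D Δ h0 k i x / ((Sset p c0 a b i x).card : ℝ) else 0)) +
      1 / 2 * ∑ x ∈ nb G z, (if 1 < k then Gp G p c0 a b N0 D Δ h0 (k - 1) x
          else if x = hd h0 then 1 else 0) / ((Δ : ℝ) + 1) := by
  rw [Gp, if_neg hk]
  simp only [prevG, dite_eq_ite]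

/-- the first term of `Gp`, one summand -/
theorem Gp_ge_first {c0 : ℝ} (hc0 : 0 < c0) (a b N0 D Δ : ℕ) (h0 : List V) {k : ℕ} (hk : k ≠ 0)
    {z : V} {i : ℕ} (hi : N0 ≤ i) (hi' : i < D) {x : V} (hx : z ∈ Sset p c0 a b i x) :
    (1 - Real.exp (-c0)) / 2 * Real.exp (-(c0 * i)) *
      (prevG G p c0 a b N0 D Δ h0 k i x / ((Sset p c0 a b i x).card : ℝ)) ≤
      Gp G p c0 a b N0 D Δ h0 k z := by
  classical
  rw [Gp_eq a b N0 D Δ h0 hk]
  have hc1 : 0 ≤ (1 - Real.exp (-c0)) / 2 := by
    have : Real.exp (-c0) ≤ 1 := Real.exp_le_one_iff.2 (by linarith)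
    linarith
  have hin : ∀ (j : ℕ) (x' : V), 0 ≤ (if z ∈ Sset p c0 a b j x' then
      prevG G p c0 a b N0 D Δ h0 k j x' / ((Sset p c0 a b j x').card : ℝ) else 0) := by
    intro j x'
    split_ifs
    · exact div_nonneg (prevG_nonneg hc0 _ _ _ _ _ _ _ _ _) (Nat.cast_nonneg _)
    · exact le_rfl
  have hsec : 0 ≤ 1 / 2 * ∑ x ∈ nb G z, (if 1 < k then Gp G p c0 a b N0 D Δ h0 (k - 1) x
          else if x = hd h0 then 1 else 0) / ((Δ : ℝ) + 1) := by
    refine mul_nonneg (by norm_num) (Finset.sum_nonneg fun x' _ => div_nonneg ?_ (by positivity))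
    split_ifs
    · exact Gp_nonneg hc0 _ _ _ _ _ _ _ _
    · exact zero_le_one
    · exact le_rfl
  have h1 : (1 - Real.exp (-c0)) / 2 * Real.exp (-(c0 * i)) *
      (prevG G p c0 a b N0 D Δ h0 k i x / ((Sset p c0 a b i x).card : ℝ)) ≤
      (1 - Real.exp (-c0)) / 2 * Real.exp (-(c0 * i)) *
        ∑ x', (if z ∈ Sset p c0 a b i x' then
          prevG G p c0 a b N0 D Δ h0 k i x' / ((Sset p c0 a b i x').card : ℝ) else 0) := by
    refine mul_le_mul_of_nonneg_left ?_ (mul_nonneg hc1 (Real.exp_pos _).le)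
    have := Finset.single_le_sum (fun x' _ => hin i x') (Finset.mem_univ x)
    rw [if_pos hx] at this
    exact this
  have h2 := Finset.single_le_sum (f := fun j : ℕ => (1 - Real.exp (-c0)) / 2 *
      Real.exp (-(c0 * j)) * ∑ x', (if z ∈ Sset p c0 a b j x' then
        prevG G p c0 a b N0 D Δ h0 k j x' / ((Sset p c0 a b j x').card : ℝ) else 0))
    (fun j _ => mul_nonneg (mul_nonneg hc1 (Real.exp_pos _).le)
      (Finset.sum_nonneg fun x' _ => hin j x')) (Finset.mem_Ico.2 ⟨hi, hi'⟩)
  have h3 := h1.trans h2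
  linarith

/-- the second term of `Gp`, one summand -/
theorem Gp_ge_second {c0 : ℝ} (hc0 : 0 < c0) (a b N0 D Δ : ℕ) (h0 : List V) {k : ℕ} (hk : k ≠ 0)
    {z x : V} (hx : x ∈ nb G z) {m : ℝ} (hm : 1 < k → m ≤ Gp G p c0 a b N0 D Δ h0 (k - 1) x)
    (hm' : ¬ 1 < k → x = hd h0 ∧ m ≤ 1) :
    1 / 2 * (m / ((Δ : ℝ) + 1)) ≤ Gp G p c0 a b N0 D Δ h0 k z := by
  classical
  rw [Gp_eq a b N0 D Δ h0 hk]
  have hc1 : 0 ≤ (1 - Real.exp (-c0)) / 2 := by
    have : Real.exp (-c0) ≤ 1 := Real.exp_le_one_iff.2 (by linarith)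
    linarith
  have hfirst : 0 ≤ (∑ i ∈ Finset.Ico N0 D, (1 - Real.exp (-c0)) / 2 * Real.exp (-(c0 * i)) *
        ∑ x, (if z ∈ Sset p c0 a b i x then
          prevG G p c0 a b N0 D Δ h0 k i x / ((Sset p c0 a b i x).card : ℝ) else 0)) := by
    refine Finset.sum_nonneg fun i _ => mul_nonneg (mul_nonneg hc1 (Real.exp_pos _).le)
      (Finset.sum_nonneg fun x' _ => ?_)
    split_ifs
    · exact div_nonneg (prevG_nonneg hc0 _ _ _ _ _ _ _ _ _) (Nat.cast_nonneg _)
    · exact le_rfl
  have hin : ∀ x' ∈ nb G z, 0 ≤ (if 1 < k then Gp G p c0 a b N0 D Δ h0 (k - 1) x'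
          else if x' = hd h0 then 1 else 0) / ((Δ : ℝ) + 1) := by
    intro x' _
    refine div_nonneg ?_ (by positivity)
    split_ifs
    · exact Gp_nonneg hc0 _ _ _ _ _ _ _ _
    · exact zero_le_one
    · exact le_rfl
  have h1 := Finset.single_le_sum hin hx
  have h2 : m / ((Δ : ℝ) + 1) ≤ (if 1 < k then Gp G p c0 a b N0 D Δ h0 (k - 1) x
          else if x = hd h0 then 1 else 0) / ((Δ : ℝ) + 1) := by
    refine div_le_div_of_nonneg_right ?_ (by positivity)
    by_cases hk1 : 1 < k
    · rw [if_pos hk1]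
      exact hm hk1
    · rw [if_neg hk1, if_pos (hm' hk1).1]
      exact (hm' hk1).2
  linarith

theorem Gp_lower (hL : IsLaw G p) (hI : IsInv G p) (hT : VT G) {c0 : ℝ} (hc0 : 0 < c0) {a b : ℕ}
    (ha : 1 ≤ a) (hab : a < b) {N0 : ℕ} (hN0 : 1 ≤ N0)
    (hN0' : Real.exp (-(c0 * N0)) ≤ (1 - Real.exp (-c0)) / 2) (D Δ : ℕ) {h0 : List V}
    (hh0 : h0 ≠ []) (k : ℕ) (s : List V) (hs : s.length = h0.length + k) (hs' : s.drop k = h0)
    (hw : ∀ j < k, ∃ x y t, s.drop j = x :: y :: t ∧ Step G y x) :
    Real.exp (-(3 * c0 * (k + D) + Real.log (2 * (Δ + 1)) * bad p c0 a b N0 D k s)) ≤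
      Gp G p c0 a b N0 D Δ h0 k (hd s) := by
  classical
  have hB : 0 ≤ Real.log (2 * ((Δ : ℝ) + 1)) := by
    refine Real.log_nonneg ?_
    have : (0 : ℝ) ≤ Δ := Nat.cast_nonneg _
    linarith
  induction k using Nat.strong_induction_on generalizing s with
  | _ k ih =>
    rcases Nat.eq_zero_or_pos k with hk0 | hkpos
    · subst hk0
      rw [List.drop_zero] at hs'
      have h1 : Gp G p c0 a b N0 D Δ h0 0 (hd s) = 1 := by
        rw [Gp, if_pos rfl, hs', if_pos rfl]
      rw [h1]
      refine Real.exp_le_one_iff.2 ?_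
      have h2 : 0 ≤ 3 * c0 * (((0 : ℕ) : ℝ) + D) := by positivity
      have h3 : 0 ≤ Real.log (2 * ((Δ : ℝ) + 1)) * (bad p c0 a b N0 D 0 s : ℝ) :=
        mul_nonneg hB (Nat.cast_nonneg _)
      linarith
    · have hk : k ≠ 0 := by omega
      by_cases hP : Prd p c0 a b N0 D s
      · obtain ⟨i, hi1, hi2, hi3, hi4⟩ := hP
        refine le_trans ?_ (Gp_ge_first hc0 a b N0 D Δ h0 hk hi1 hi2 hi4)
        set S := Sset p c0 a b i (hd (s.drop i)) with hS
        have hcard : ((S.card : ℕ) : ℝ) ≤ Real.exp (c0 * i) := card_S hL hI hT ha hab c0 i _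
        have hcardpos : (0 : ℝ) < (S.card : ℝ) := by
          exact_mod_cast Finset.card_pos.2 ⟨_, hi4⟩
        have hc1 : Real.exp (-(c0 * i)) ≤ (1 - Real.exp (-c0)) / 2 := by
          refine le_trans (Real.exp_le_exp.2 ?_) hN0'
          have : (N0 : ℝ) ≤ i := by exact_mod_cast hi1
          nlinarith
        have hinv : Real.exp (-(c0 * i)) ≤ 1 / (S.card : ℝ) := by
          rw [Real.exp_neg, ← one_div]
          exact one_div_le_one_div_of_le hcardpos hcard
        -- the weight of the past position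
        have hprev : Real.exp (-(3 * c0 * ((k : ℝ) + D - i) +
            Real.log (2 * (Δ + 1)) * bad p c0 a b N0 D k s)) ≤
            prevG G p c0 a b N0 D Δ h0 k i (hd (s.drop i)) := by
          unfold prevG
          by_cases hik : i < k
          · rw [if_pos ⟨by omega, hik⟩]
            have h1 := ih (k - i) (by omega) (s.drop i) (by rw [List.length_drop]; omega)
              (by rw [List.drop_drop, show i + (k - i) = k by omega]; exact hs')
              (fun j hj => by
                obtain ⟨x, y, t, h1, h2⟩ := hw (i + j) (by omega)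
                refine ⟨x, y, t, ?_, h2⟩
                rw [List.drop_drop]
                exact h1)
            refine le_trans (Real.exp_le_exp.2 ?_) h1
            have h2 : (bad p c0 a b N0 D (k - i) (s.drop i) : ℝ) ≤ bad p c0 a b N0 D k s := by
              exact_mod_cast bad_drop_le c0 a b N0 D hik.le s
            have h3 := mul_le_mul_of_nonneg_left h2 hB
            have h4 : ((k - i : ℕ) : ℝ) = (k : ℝ) - i := by
              rw [Nat.cast_sub hik.le]
            rw [h4]
            have h5 : 3 * c0 * ((k : ℝ) - i + D) = 3 * c0 * ((k : ℝ) + D - i) := by ring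
            linarith
          · rw [if_neg (by omega)]
            have h1 : s.drop i = h0.drop (i - k) := by
              rw [← hs', List.drop_drop, show k + (i - k) = i by omega]
            rw [if_pos (by rw [h1])]
            refine Real.exp_le_one_iff.2 ?_
            have h2 : (0 : ℝ) ≤ (k : ℝ) + D - i := by
              have : (i : ℝ) ≤ D := by exact_mod_cast hi2.le
              have : (0 : ℝ) ≤ k := Nat.cast_nonneg _
              linarith
            have h3 : 0 ≤ 3 * c0 * ((k : ℝ) + D - i) := by positivity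
            have h4 : 0 ≤ Real.log (2 * ((Δ : ℝ) + 1)) * (bad p c0 a b N0 D k s : ℝ) :=
              mul_nonneg hB (Nat.cast_nonneg _)
            linarith
        have e1 : Real.exp (-(3 * c0 * ((k : ℝ) + D) +
            Real.log (2 * (Δ + 1)) * bad p c0 a b N0 D k s)) =
            Real.exp (-(c0 * i)) * Real.exp (-(c0 * i)) *
              (Real.exp (-(3 * c0 * ((k : ℝ) + D - i) +
                Real.log (2 * (Δ + 1)) * bad p c0 a b N0 D k s)) * Real.exp (-(c0 * i))) := by
          rw [← Real.exp_add, ← Real.exp_add, ← Real.exp_add]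
          congr 1
          ring
        have e3 : prevG G p c0 a b N0 D Δ h0 k i (hd (s.drop i)) / (S.card : ℝ) =
            prevG G p c0 a b N0 D Δ h0 k i (hd (s.drop i)) * (1 / (S.card : ℝ)) :=
          div_eq_mul_one_div _ _
        rw [e1, e3]
        refine mul_le_mul ?_ ?_ (mul_nonneg (Real.exp_pos _).le (Real.exp_pos _).le) ?_
        · exact mul_le_mul_of_nonneg_right hc1 (Real.exp_pos _).le
        · exact mul_le_mul hprev hinv (Real.exp_pos _).le
            (prevG_nonneg hc0 _ _ _ _ _ _ _ _ _)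
        · exact mul_nonneg ((Real.exp_pos _).le.trans hc1) (Real.exp_pos _).le
      · obtain ⟨x, y, t, h1, h2⟩ := hw 0 hkpos
        rw [List.drop_zero] at h1
        have hhd : hd s = x := by rw [h1]; rfl
        have hd1 : s.drop 1 = y :: t := by rw [h1]; rfl
        have hhd1 : hd (s.drop 1) = y := by rw [hd1]; rfl
        have hy : y ∈ nb G (hd s) := by
          rw [hhd]
          exact (mem_nb_comm G).1 ((mem_nb G).2 h2)
        have hbad : (bad p c0 a b N0 D (k - 1) (s.drop 1) : ℝ) + 1 ≤ bad p c0 a b N0 D k s := by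
          exact_mod_cast bad_drop_one c0 a b N0 D hkpos s hP
        have hkc : ((k - 1 : ℕ) : ℝ) = (k : ℝ) - 1 := by
          rw [Nat.cast_sub hkpos, Nat.cast_one]
        have key := Gp_ge_second (G := G) (p := p) hc0 a b N0 D Δ h0 hk (z := hd s) (x := y) hy
          (m := Real.exp (-(3 * c0 * ((k : ℝ) + D) + Real.log (2 * (Δ + 1)) *
            ((bad p c0 a b N0 D k s : ℝ) - 1)))) ?_ ?_
        · refine le_trans (le_of_eq ?_) key
          have e2 : Real.exp (-(3 * c0 * ((k : ℝ) + D) +
              Real.log (2 * (Δ + 1)) * bad p c0 a b N0 D k s)) =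
              Real.exp (-(3 * c0 * ((k : ℝ) + D) + Real.log (2 * (Δ + 1)) *
                ((bad p c0 a b N0 D k s : ℝ) - 1))) * Real.exp (-Real.log (2 * ((Δ : ℝ) + 1))) := by
            rw [← Real.exp_add]
            congr 1
            ring
          rw [e2, Real.exp_neg (Real.log _), Real.exp_log (by positivity)]
          field_simp
        · intro hk1
          have h3 := ih (k - 1) (by omega) (s.drop 1) (by rw [List.length_drop]; omega)
            (by rw [List.drop_drop, show 1 + (k - 1) = k by omega]; exact hs')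
            (fun j hj => by
              obtain ⟨x, y, t, h1, h2⟩ := hw (1 + j) (by omega)
              refine ⟨x, y, t, ?_, h2⟩
              rw [List.drop_drop]
              exact h1)
          rw [hhd1] at h3
          refine le_trans (Real.exp_le_exp.2 ?_) h3
          have h4 : (bad p c0 a b N0 D (k - 1) (s.drop 1) : ℝ) ≤
              (bad p c0 a b N0 D k s : ℝ) - 1 := by linarith
          have h5 := mul_le_mul_of_nonneg_left h4 hB
          have h6 : 3 * c0 * (((k - 1 : ℕ) : ℝ) + D) ≤ 3 * c0 * ((k : ℝ) + D) := by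
            rw [hkc]
            nlinarith
          linarith
        · intro hk1
          have hk1' : k = 1 := by omega
          refine ⟨?_, ?_⟩
          · rw [← hhd1, ← hs', hk1']
          · refine Real.exp_le_one_iff.2 ?_
            have h4 : (0 : ℝ) ≤ (bad p c0 a b N0 D k s : ℝ) - 1 := by
              have : (0 : ℝ) ≤ bad p c0 a b N0 D (k - 1) (s.drop 1) := Nat.cast_nonneg _
              linarith
            have h5 := mul_nonneg hB h4
            have h6 : 0 ≤ 3 * c0 * ((k : ℝ) + D) := by positivity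
            linarith

end Pool.Agent.H86.MT
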