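import Pool.Agent.H86.MT.Defs

/-!
MT-INV. Invariance under the automorphism group, and the pairing lemma (sections 1.8 and 4.3 of
h86_transitive.md).

* `F_map`: induction on `k`, generalising `h`; reindex the sum over `x` by the bijection `g`
  (`Equiv.sum_comp g.toEquiv`), `IsInv`. `E_map`: `[].map g = []`.
* `star_map`: `nb G (g y) = (nb G y).image g` (automorphisms preserve `Step`).
* `val_map`: induction on the number of steps, `star_map`.
* `E_pos`: for an invariant `f`, `E l (f · y) = E l (f · (g y))` by `E_map`; use transitivity.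
-/

set_option autoImplicit false
set_option linter.unusedSectionVars false

open N6ef48c04

namespace Pool.Agent.H86.MT

variable {V : Type} [Fintype V] [Nonempty V] {G : SimpleGraph V} {p : List V → V → ℝ} {N : ℕ}

theorem F_map (hI : IsInv G p) (g : G ≃g G) (k : ℕ) (f : List V → ℝ) (h : List V) :
    F p k (fun s => f (s.map g)) h = F p k f (h.map g) := by
  induction k generalizing h with
  | zero => rfl
  | succ k ih =>
    rw [F_succ, F_succ, ← Equiv.sum_comp g.toEquiv (fun x => p (h.map g) x *
      F p k f (x :: h.map g))]
    refine Finset.sum_congr rfl fun x _ => ?_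
    have h1 : p (h.map g) (g.toEquiv x) = p h x := hI g h x
    rw [ih, h1]
    rfl

theorem E_map (hI : IsInv G p) (g : G ≃g G) (l : ℕ) (f : List V → ℝ) :
    E p l (fun s => f (s.map g)) = E p l f := F_map hI g l f []

lemma invA_step (g : G ≃g G) (a b : V) : Step G (g a) (g b) ↔ Step G a b := by
  unfold Step
  rw [g.injective.eq_iff]
  exact or_congr Iff.rfl g.map_rel_iff

theorem star_map (g : G ≃g G) (f : V → ℝ) (y : V) : star G f (g y) = star G (fun z => f (g z)) y := by
  apply le_antisymm
  · refine star_le G _ fun z hz => ?_
    have h1 : g (g.symm z) = z := g.apply_symm_apply z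
    have h2 : g.symm z ∈ nb G y := by
      rw [mem_nb, ← invA_step g, h1, ← mem_nb]
      exact hz
    have h3 := le_star G (fun z => f (g z)) h2
    simp only [h1] at h3
    exact h3
  · refine star_le G _ fun z hz => ?_
    refine le_star G f ?_
    rw [mem_nb, invA_step g, ← mem_nb]
    exact hz

theorem val_map (hI : IsInv G p) (g : G ≃g G) (k : ℕ) (h : List V) (y : V) :
    val G p k (h.map g) (g y) = val G p k h y := by
  induction k generalizing h y with
  | zero =>
    unfold val
    cases h with
    | nil => rfl
    | cons x t =>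
      have h1 : ((x :: t).map g).head? = some (g y) ↔ (x :: t).head? = some y := by
        rw [List.map_cons, List.head?_cons, List.head?_cons, Option.some.injEq, Option.some.injEq,
          g.injective.eq_iff]
      by_cases h2 : (x :: t).head? = some y
      · rw [if_pos h2, if_pos (h1.2 h2)]
      · rw [if_neg h2, if_neg (fun h3 => h2 (h1.1 h3))]
  | succ k ih =>
    unfold val
    rw [← Equiv.sum_comp g.toEquiv (fun x => p (h.map g) x *
      star G (val G p k (x :: h.map g)) (g y))]
    refine Finset.sum_congr rfl fun x _ => ?_
    have h1 : p (h.map g) (g.toEquiv x) = p h x := hI g h x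
    rw [h1, star_map]
    congr 2
    funext z
    exact ih (x :: h) z

theorem U_inv (hI : IsInv G p) : Inv2 G (U G p N) := by
  intro g h y
  unfold U
  rw [List.length_map]
  exact val_map hI g _ h y

lemma invA_avg (g : G ≃g G) (f : V → ℝ) : avg (fun y => f (g y)) = avg f := by
  unfold avg
  rw [← Equiv.sum_comp g.toEquiv f]
  rfl

theorem v_inv (hI : IsInv G p) : Inv1 G (v G p N) := by
  intro g h
  unfold v
  rw [← invA_avg g]
  congr 1
  funext y
  exact U_inv hI g h y

theorem phi_inv (hI : IsInv G p) : Inv2 G (phi G p N) := by
  intro g h y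
  unfold phi
  rw [U_inv hI g h y, v_inv hI g h]

theorem php_inv (hI : IsInv G p) : Inv2 G (php G p N) := by
  intro g h y
  unfold php
  rw [phi_inv hI g h y]

theorem phm_inv (hI : IsInv G p) : Inv2 G (phm G p N) := by
  intro g h y
  unfold phm
  rw [phi_inv hI g h y]

theorem cc_inv (hI : IsInv G p) : Inv1 G (cc G p N) := by
  intro g h
  unfold cc
  rw [← F_map hI g 1 (v G p N) h, v_inv hI g h]
  congr 2
  funext s
  exact v_inv hI g s

theorem nrm_inv {f : List V → V → ℝ} (hf : Inv2 G f) (s : ℝ) : Inv1 G (fun h => nrm s (f h)) := by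
  intro g h
  simp only [nrm]
  rw [← invA_avg g]
  congr 2
  funext y
  rw [hf g h y]

end Pool.Agent.H86.MT
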