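import Pool.Agent.H86.MT.Defs

/-!
MT-NRM. The normalised norms `nrm s f = (avg |f|^s)^(1/s)`.
* `nrm_add`: Minkowski (`Real.Lp_add_le`), divide by `n^(1/s)`; `nrm_sum`: induction.
* `nrm_F`: `F p 1 f h = ∑ x, p h x * f (x :: h)`, `nrm_sum`, `nrm_mul`.
-/

set_option autoImplicit false
set_option linter.unusedSectionVars false

open N6ef48c04

namespace Pool.Agent.H86.MT

variable {V : Type} [Fintype V] [Nonempty V] {G : SimpleGraph V} {p : List V → V → ℝ} {N : ℕ}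

lemma nrmA_avg_nonneg {f : V → ℝ} (h : ∀ y, 0 ≤ f y) : 0 ≤ avg f :=
  div_nonneg (Finset.sum_nonneg fun y _ => h y) (Nat.cast_nonneg _)

lemma nrmA_avg_mono {f g : V → ℝ} (h : ∀ y, f y ≤ g y) : avg f ≤ avg g :=
  div_le_div_of_nonneg_right (Finset.sum_le_sum fun y _ => h y) (Nat.cast_nonneg _)

lemma nrmA_avg_const (a : ℝ) : avg (fun _ : V => a) = a := by
  have hn : (Fintype.card V : ℝ) ≠ 0 := by exact_mod_cast Fintype.card_ne_zero
  rw [avg, Finset.sum_const, nsmul_eq_mul, Finset.card_univ]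
  field_simp

theorem nrm_nonneg (s : ℝ) (f : V → ℝ) : 0 ≤ nrm s f :=
  Real.rpow_nonneg (nrmA_avg_nonneg fun _ => Real.rpow_nonneg (abs_nonneg _) _) _

theorem nrm_mono {s : ℝ} (hs : 0 < s) {f g : V → ℝ} (h : ∀ y, |f y| ≤ g y) : nrm s f ≤ nrm s g := by
  refine Real.rpow_le_rpow (nrmA_avg_nonneg fun _ => Real.rpow_nonneg (abs_nonneg _) _)
    (nrmA_avg_mono fun y => ?_) (by positivity)
  exact Real.rpow_le_rpow (abs_nonneg _) ((h y).trans (le_abs_self _)) hs.le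

theorem nrm_const {s : ℝ} (hs : 0 < s) {a : ℝ} (ha : 0 ≤ a) : nrm s (fun _ : V => a) = a := by
  rw [nrm, nrmA_avg_const, abs_of_nonneg ha, ← Real.rpow_mul ha, mul_one_div_cancel hs.ne',
    Real.rpow_one]

theorem nrm_mul {s : ℝ} (hs : 0 < s) {a : ℝ} (ha : 0 ≤ a) (f : V → ℝ) :
    nrm s (fun y => a * f y) = a * nrm s f := by
  have h1 : avg (fun y => |a * f y| ^ s) = a ^ s * avg (fun y => |f y| ^ s) := by
    rw [avg, avg, ← mul_div_assoc, Finset.mul_sum]
    congr 1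
    refine Finset.sum_congr rfl fun y _ => ?_
    rw [abs_mul, abs_of_nonneg ha, Real.mul_rpow ha (abs_nonneg _)]
  rw [nrm, nrm, h1, Real.mul_rpow (Real.rpow_nonneg ha _)
    (nrmA_avg_nonneg fun _ => Real.rpow_nonneg (abs_nonneg _) _), ← Real.rpow_mul ha,
    mul_one_div_cancel hs.ne', Real.rpow_one]

theorem nrm_add {s : ℝ} (hs : 1 ≤ s) (f g : V → ℝ) :
    nrm s (fun y => f y + g y) ≤ nrm s f + nrm s g := by
  have h0 : ∀ u : V → ℝ, nrm s u =
      (∑ y, |u y| ^ s) ^ (1 / s) / (Fintype.card V : ℝ) ^ (1 / s) := by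
    intro u
    rw [nrm, avg, Real.div_rpow (Finset.sum_nonneg fun y _ => Real.rpow_nonneg (abs_nonneg _) _)
      (Nat.cast_nonneg _)]
  rw [h0, h0, h0, ← add_div]
  exact div_le_div_of_nonneg_right (Real.Lp_add_le Finset.univ f g hs)
    (Real.rpow_nonneg (Nat.cast_nonneg _) _)

theorem nrm_sum {s : ℝ} (hs : 1 ≤ s) {ι : Type*} (S : Finset ι) (f : ι → V → ℝ) :
    nrm s (fun y => ∑ i ∈ S, f i y) ≤ ∑ i ∈ S, nrm s (f i) := by
  classical
  induction S using Finset.induction_on with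
  | empty =>
    simp only [Finset.sum_empty]
    exact (nrm_const (V := V) (lt_of_lt_of_le one_pos hs) le_rfl).le
  | insert a S ha ih =>
    simp only [Finset.sum_insert ha]
    exact (nrm_add hs _ _).trans (by linarith)

theorem nrm_F (hp : ∀ h x, 0 ≤ p h x) {s : ℝ} (hs : 1 ≤ s) (f : List V → V → ℝ) (h : List V) :
    nrm s (fun y => F p 1 (fun t => f t y) h) ≤ F p 1 (fun t => nrm s (f t)) h := by
  simp only [F_one]
  refine (nrm_sum hs Finset.univ (fun x y => p h x * f (x :: h) y)).trans ?_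
  refine Finset.sum_le_sum fun x _ => ?_
  rw [nrm_mul (lt_of_lt_of_le one_pos hs) (hp h x)]

theorem nrm_one (f : V → ℝ) : nrm 1 f = avg (fun y => |f y|) := by
  simp only [nrm, Real.rpow_one, div_one]

theorem nrm_le_one {s : ℝ} (hs : 0 < s) {f : V → ℝ} (h : ∀ y, |f y| ≤ 1) : nrm s f ≤ 1 :=
  (nrm_mono hs h).trans (nrm_const hs zero_le_one).le

end Pool.Agent.H86.MT
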