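import Pool.Agent.H86.MT.InvA
import Pool.Agent.H86.MT.NrmA

/-!
MT-INV. Invariance under the automorphism group, and the pairing lemma (sections 1.8 and 4.3 of
h86_transitive.md).

* `E_pos`: for an invariant `f`, `E l (f · y) = E l (f · (g y))` by `E_map`; use transitivity.
* `E_pos_avg`: average `E_pos` over the vertices (`avg_F`).
* `E_at`: for an equivariant position `q` (`q (s.map g) = g (q s)` for lists of length `l`) and an
  invariant weight `A`: `E l (if q s = x then A s else 0)` does not depend on `x` (`E_map`,
  transitivity) and the sum over `x` is `E l A`.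
-/

set_option autoImplicit false
set_option linter.unusedSectionVars false

open N6ef48c04

namespace Pool.Agent.H86.MT

variable {V : Type} [Fintype V] [Nonempty V] {G : SimpleGraph V} {p : List V → V → ℝ} {N : ℕ}

theorem invB_nrm (hL : IsLaw G p) {s : ℝ} (hs : 1 ≤ s) (k : ℕ) (f : List V → V → ℝ)
    (h : List V) :
    nrm s (fun y => F p k (fun t => f t y) h) ≤ F p k (fun t => nrm s (f t)) h := by
  induction k generalizing h with
  | zero => exact le_rfl
  | succ k ih =>
    have h1 := nrm_F hL.nonneg hs (fun t y => F p k (fun r => f r y) t) h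
    have h2 : F p 1 (fun t => nrm s (fun y => F p k (fun r => f r y) t)) h ≤
        F p 1 (fun t => F p k (fun r => nrm s (f r)) t) h :=
      F_mono hL.nonneg fun t => ih t
    exact h1.trans h2

theorem E_pos (hI : IsInv G p) (hT : VT G) {f : List V → V → ℝ} (hf : Inv2 G f) (l : ℕ) (y y' : V) :
    E p l (fun s => f s y) = E p l (fun s => f s y') := by
  obtain ⟨g, rfl⟩ := hT y y'
  rw [← E_map hI g l (fun s => f s (g y))]
  congr 1
  funext s
  exact (hf g s y).symm

theorem E_pos_avg (hI : IsInv G p) (hT : VT G) {f : List V → V → ℝ} (hf : Inv2 G f) (l : ℕ) (y : V) :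
    E p l (fun s => f s y) = E p l (fun s => avg (f s)) := by
  have h1 : avg (fun y' : V => E p l (fun s => f s y')) = E p l (fun s => avg (f s)) :=
    avg_F l f []
  rw [← h1]
  have h2 : (fun y' : V => E p l (fun s => f s y')) = fun _ => E p l (fun s => f s y) := by
    funext y'
    exact E_pos hI hT hf l y' y
  rw [h2, avg_const]

/-- (1.8) -/
theorem E_phi (hI : IsInv G p) (hT : VT G) (l : ℕ) (y : V) :
    E p l (fun s => phi G p N s y) = 0 := by
  rw [E_pos_avg hI hT (phi_inv hI) l y]
  have h1 : (fun s => avg (phi G p N s)) = fun _ : List V => (0 : ℝ) * 0 := by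
    funext s
    have h2 := avg_sub (U G p N s) (fun _ : V => v G p N s)
    rw [avg_const] at h2
    have h3 : avg (phi G p N s) = avg (fun y => U G p N s y - v G p N s) := rfl
    rw [h3, h2]
    unfold v
    ring
  rw [h1]
  unfold E
  rw [F_mul (p := p) l 0 (fun _ => (0 : ℝ)) []]
  ring

open Classical in
theorem E_at (hI : IsInv G p) (hT : VT G) {A : List V → ℝ} (hA : Inv1 G A) (l : ℕ) (q : List V → V)
    (hq : ∀ (g : G ≃g G) (s : List V), s.length = l → q (s.map g) = g (q s)) (x : V) :
    E p l (fun s => if q s = x then A s else 0) = E p l A / Fintype.card V := by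
  have h1 : ∀ x x' : V, E p l (fun s => if q s = x then A s else 0) =
      E p l (fun s => if q s = x' then A s else 0) := by
    intro x x'
    obtain ⟨g, rfl⟩ := hT x x'
    rw [← E_map hI g l (fun s => if q s = g x then A s else 0)]
    unfold E
    refine F_congr_of fun s hs => ?_
    have hs' : s.length = l := by simpa using hs
    rw [hq g s hs', hA g s]
    have h2 : (g (q s) = g x) = (q s = x) := propext g.injective.eq_iff
    simp only [h2]
  have h3 : ∑ x' : V, E p l (fun s => if q s = x' then A s else 0) = E p l A := by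
    unfold E
    rw [← F_sum]
    congr 1
    funext s
    rw [Finset.sum_ite_eq]
    simp
  have h4 : ∑ x' : V, E p l (fun s => if q s = x' then A s else 0) =
      (Fintype.card V : ℝ) * E p l (fun s => if q s = x then A s else 0) := by
    rw [Finset.sum_congr rfl (fun x' _ => h1 x' x), Finset.sum_const, Finset.card_univ,
      nsmul_eq_mul]
  have hn : (Fintype.card V : ℝ) ≠ 0 := Nat.cast_ne_zero.2 Fintype.card_ne_zero
  rw [← h3, h4]
  field_simp

theorem nrm_E (hL : IsLaw G p) {s : ℝ} (hs : 1 ≤ s) (l : ℕ) (f : List V → V → ℝ) :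
    nrm s (fun y => E p l (fun t => f t y)) ≤ E p l (fun t => nrm s (f t)) := by
  exact invB_nrm hL hs l f []

end Pool.Agent.H86.MT
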