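import Pool.Agent.H86.MT.InvB
import Pool.Agent.H86.MT.NrmB

/-!
MT-INV. Invariance under the automorphism group, and the pairing lemma (sections 1.8 and 4.3 of
h86_transitive.md).

* `pairing`: put `K x y = E l (fun h => if hd h = x then f h y else 0)`,
  `M y x = E l' (fun h' => if hd h' = y then g h' x else 0)`. The left side is `∑ x, ∑ y, K x y * M y x`.
  `holder` on `V × V`. For each `x`: `(∑ y, K x y ^ q)^(1/q) ≤ E l (if hd h = x then n^(1/q) nrm q (f h) else 0)
  = n^(1/q) / n * E l (nrm q (f h))` (Minkowski for the operator `E l`, i.e. `nrm_E`, and `E_at`), so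
  `(∑ x, ∑ y, K x y ^ q)^(1/q) ≤ n^(1/q) * n^(1/q) / n * E l (nrm q (f h))`; the same for `M` with `P`;
  `n^(2/q - 1) * n^(2/P - 1) = 1`.
-/

set_option autoImplicit false
set_option linter.unusedSectionVars false

open N6ef48c04

namespace Pool.Agent.H86.MT

variable {V : Type} [Fintype V] [Nonempty V] {G : SimpleGraph V} {p : List V → V → ℝ} {N : ℕ}

open Classical in
/-- the part of `f` at the position `x` -/
noncomputable def KK (p : List V → V → ℝ) (l : ℕ) (f : List V → V → ℝ) (x y : V) : ℝ :=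
  E p l (fun t => if hd t = x then f t y else 0)

theorem KK_nonneg (hL : IsLaw G p) {f : List V → V → ℝ} (hf0 : ∀ h y, 0 ≤ f h y) (l : ℕ) (x y : V) :
    0 ≤ KK p l f x y := by
  unfold KK E
  refine F_nonneg hL.nonneg fun s _ => ?_
  split_ifs
  · exact hf0 _ _
  · exact le_rfl

theorem hd_map (g : G ≃g G) {l : ℕ} (hl : 1 ≤ l) (s : List V) (hs : s.length = l) :
    hd (s.map g) = g (hd s) := by
  cases s with
  | nil => simp at hs; omega
  | cons x s => rfl

theorem KK_row (hL : IsLaw G p) (hI : IsInv G p) (hT : VT G) {s : ℝ} (hs : 1 ≤ s)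
    {f : List V → V → ℝ} (hf : Inv2 G f) (hf0 : ∀ h y, 0 ≤ f h y) {l : ℕ} (hl : 1 ≤ l) (x : V) :
    ∑ y, (KK p l f x y) ^ s ≤
      (Fintype.card V : ℝ) * (E p l (fun t => nrm s (f t)) / Fintype.card V) ^ s := by
  classical
  have hs0 : 0 < s := lt_of_lt_of_le one_pos hs
  have hn : (0 : ℝ) < Fintype.card V := Nat.cast_pos.2 Fintype.card_pos
  have h1 : nrm s (fun y => KK p l f x y) ≤ E p l (fun t => nrm s (f t)) / Fintype.card V := by
    unfold KK
    refine (nrm_E hL hs l (fun t y => if hd t = x then f t y else 0)).trans (le_of_eq ?_)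
    rw [← E_at hI hT (nrm_inv hf s) l hd (fun g t ht => hd_map g hl t ht) x]
    congr 1
    funext t
    by_cases h : hd t = x
    · simp [h]
    · simp only [if_neg h]
      exact nrm_const hs0 le_rfl
  have h2 : (nrm s (fun y => KK p l f x y)) ^ s = (∑ y, (KK p l f x y) ^ s) / Fintype.card V := by
    unfold nrm
    have h3 : 0 ≤ avg (fun y => |KK p l f x y| ^ s) :=
      avg_nonneg fun y => Real.rpow_nonneg (abs_nonneg _) _
    rw [← Real.rpow_mul h3, one_div, inv_mul_cancel₀ hs0.ne', Real.rpow_one]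
    unfold avg
    congr 1
    refine Finset.sum_congr rfl fun y _ => ?_
    show |KK p l f x y| ^ s = KK p l f x y ^ s
    rw [abs_of_nonneg (KK_nonneg hL hf0 l x y)]
  have h3 : (∑ y, (KK p l f x y) ^ s) / Fintype.card V ≤
      (E p l (fun t => nrm s (f t)) / Fintype.card V) ^ s := by
    rw [← h2]
    exact Real.rpow_le_rpow (nrm_nonneg _ _) h1 hs0.le
  rw [div_le_iff₀ hn] at h3
  rw [mul_comm]
  exact h3

theorem KK_sum (hL : IsLaw G p) (hI : IsInv G p) (hT : VT G) {s : ℝ} (hs : 1 ≤ s)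
    {f : List V → V → ℝ} (hf : Inv2 G f) (hf0 : ∀ h y, 0 ≤ f h y) {l : ℕ} (hl : 1 ≤ l) :
    (∑ x, ∑ y, (KK p l f x y) ^ s) ^ (1 / s) ≤
      ((Fintype.card V : ℝ) ^ 2) ^ (1 / s) * (E p l (fun t => nrm s (f t)) / Fintype.card V) := by
  have hs0 : 0 < s := lt_of_lt_of_le one_pos hs
  have hn : (0 : ℝ) < Fintype.card V := Nat.cast_pos.2 Fintype.card_pos
  have hA : 0 ≤ E p l (fun t => nrm s (f t)) / Fintype.card V := by
    refine div_nonneg ?_ hn.le
    unfold E
    exact F_nonneg hL.nonneg fun t _ => nrm_nonneg _ _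
  have h1 : ∑ x, ∑ y, (KK p l f x y) ^ s ≤
      (Fintype.card V : ℝ) ^ 2 * (E p l (fun t => nrm s (f t)) / Fintype.card V) ^ s := by
    refine (Finset.sum_le_sum fun x _ => KK_row hL hI hT hs hf hf0 hl x).trans (le_of_eq ?_)
    rw [Finset.sum_const, Finset.card_univ, nsmul_eq_mul]
    ring
  have h0 : 0 ≤ ∑ x, ∑ y, (KK p l f x y) ^ s :=
    Finset.sum_nonneg fun x _ => Finset.sum_nonneg fun y _ =>
      Real.rpow_nonneg (KK_nonneg hL hf0 l x y) _
  refine (Real.rpow_le_rpow h0 h1 (by positivity)).trans (le_of_eq ?_)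
  rw [Real.mul_rpow (by positivity) (Real.rpow_nonneg hA _), ← Real.rpow_mul hA,
    mul_one_div, div_self hs0.ne', Real.rpow_one]

/-- (4.3) the pairing lemma -/
theorem pairing (hL : IsLaw G p) (hI : IsInv G p) (hT : VT G) {P q : ℝ} (hP : 1 < P)
    (hpq : 1 / P + 1 / q = 1) {f g : List V → V → ℝ} (hf : Inv2 G f) (hg : Inv2 G g)
    (hf0 : ∀ h y, 0 ≤ f h y) (hg0 : ∀ h y, 0 ≤ g h y) {l l' : ℕ} (hl : 1 ≤ l) (hl' : 1 ≤ l') :
    EE p l l' (fun s r => f s (hd r) * g r (hd s)) ≤
      E p l (fun s => nrm q (f s)) * E p l' (fun r => nrm P (g r)) := by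
  classical
  have hn : (0 : ℝ) < Fintype.card V := Nat.cast_pos.2 Fintype.card_pos
  have hP0 : 0 < P := lt_trans one_pos hP
  have hPi : 0 < 1 / P := one_div_pos.2 hP0
  have hPi1 : 1 / P < 1 := by rw [div_lt_one hP0]; exact hP
  have hq0 : 0 < q := by
    have : 0 < 1 / q := by linarith
    exact one_div_pos.1 this
  have hq : 1 ≤ q := by
    by_contra h
    push Not at h
    have := one_le_one_div hq0 h.le
    linarith
  -- the left side as a sum over pairs of positions
  have key : EE p l l' (fun s r => f s (hd r) * g r (hd s)) =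
      ∑ z : V × V, KK p l f z.1 z.2 * KK p l' g z.2 z.1 := by
    unfold EE
    have e1 : ∀ s r : List V, f s (hd r) * g r (hd s) =
        ∑ z : V × V, (if hd s = z.1 then f s z.2 else 0) * (if hd r = z.2 then g r z.1 else 0) := by
      intro s r
      rw [Finset.sum_eq_single (hd s, hd r)]
      · simp
      · rintro ⟨x, y⟩ _ hne
        by_cases h1 : hd s = x
        · by_cases h2 : hd r = y
          · exact absurd (by rw [h1, h2]) hne
          · simp [h2]
        · simp [h1]
      · intro h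
        exact absurd (Finset.mem_univ _) h
    have e2 : ∀ s, E p l' (fun r => f s (hd r) * g r (hd s)) =
        ∑ z : V × V, (if hd s = z.1 then f s z.2 else 0) * KK p l' g z.2 z.1 := by
      intro s
      simp only [e1]
      unfold E
      rw [F_sum]
      refine Finset.sum_congr rfl fun z _ => ?_
      rw [F_mul]
      rfl
    simp only [e2]
    unfold E
    rw [F_sum]
    refine Finset.sum_congr rfl fun z _ => ?_
    rw [F_mul_right]
    rfl
  rw [key]
  refine (holder Finset.univ hP hpq (fun z : V × V => KK_nonneg hL hf0 l z.1 z.2)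
    (fun z : V × V => KK_nonneg hL hg0 l' z.2 z.1)).trans ?_
  have s1 : ∑ z : V × V, (KK p l f z.1 z.2) ^ q = ∑ x, ∑ y, (KK p l f x y) ^ q :=
    Fintype.sum_prod_type _
  have s2 : ∑ z : V × V, (KK p l' g z.2 z.1) ^ P = ∑ x, ∑ y, (KK p l' g x y) ^ P :=
    Fintype.sum_prod_type_right _
  rw [s1, s2]
  have b1 := KK_sum hL hI hT hq hf hf0 hl
  have b2 := KK_sum hL hI hT hP.le hg hg0 hl'
  set A := E p l (fun s => nrm q (f s)) with hA
  set B := E p l' (fun r => nrm P (g r)) with hB
  have hA0 : 0 ≤ A := by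
    rw [hA]; unfold E
    exact F_nonneg hL.nonneg fun t _ => nrm_nonneg _ _
  have hB0 : 0 ≤ B := by
    rw [hB]; unfold E
    exact F_nonneg hL.nonneg fun t _ => nrm_nonneg _ _
  have h0 : 0 ≤ (∑ x, ∑ y, (KK p l' g x y) ^ P) ^ (1 / P) :=
    Real.rpow_nonneg (Finset.sum_nonneg fun x _ => Finset.sum_nonneg fun y _ =>
      Real.rpow_nonneg (KK_nonneg hL hg0 l' x y) _) _
  refine (mul_le_mul b1 b2 h0 (by positivity)).trans (le_of_eq ?_)
  have e : ((Fintype.card V : ℝ) ^ 2) ^ (1 / q) * ((Fintype.card V : ℝ) ^ 2) ^ (1 / P) =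
      (Fintype.card V : ℝ) ^ 2 := by
    rw [← Real.rpow_add (by positivity), add_comm, hpq, Real.rpow_one]
  calc ((Fintype.card V : ℝ) ^ 2) ^ (1 / q) * (A / Fintype.card V) *
        (((Fintype.card V : ℝ) ^ 2) ^ (1 / P) * (B / Fintype.card V))
      = (((Fintype.card V : ℝ) ^ 2) ^ (1 / q) * ((Fintype.card V : ℝ) ^ 2) ^ (1 / P)) *
        ((A / Fintype.card V) * (B / Fintype.card V)) := by ring
    _ = A * B := by
        rw [e]
        field_simp

end Pool.Agent.H86.MT
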