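import Pool.Agent.H86.MT.NrmB

/-!
MT-LP. The `L^P` bound for the negative part and the `L^q` bound for the positive part of the centred
value `phi`, section 3 of h86_transitive.md. `L = (1 + α)/α`.

* `F_med`: `F 1 (avg |U s - med|) h ≤ L * cc h`: `exp_one` for `f = U s`, divided by `n`, and `cc_eq`.
* `abs_v_med`: `|v s - med (U s)| ≤ avg |U s - med (U s)|`.
* `neg_step` (3.1). Let `a s = med (U s)`. From `U_succ`, `U h y = F 1 (star (U s) y) h`, so
  `F 1 a h - U h y ≤ F 1 (fun s => max (a s - star (U s) y) 0) h`;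
  `v h - F 1 a h = cc h + F 1 (v s - a s) h ≤ cc h + F 1 |v - a| h`. Hence pointwise
  `phm h y ≤ F 1 (fun s => max (a s - star (U s) y) 0) h + (cc h + F 1 |v - a| h)`. Take `nrm P`
  (`nrm_mono`, `nrm_add`, `nrm_F`, `nrm_const`), use `nrm_exp_neg`:
  `nrm P (max (a - star U) 0) ≤ (1+α)^(-1/P) nrm P (max (a - U) 0)` and
  `max (a s - U s y) 0 ≤ phm s y + |v s - a s|`. Sum: coefficient of `F 1 |v - a|` is
  `(1 + α)^(-1/P) + 1 ≤ 2`, and `F 1 |v - a| ≤ L cc`.
-/

set_option autoImplicit false
set_option linter.unusedSectionVars false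

open N6ef48c04

namespace Pool.Agent.H86.MT

variable {V : Type} [Fintype V] [Nonempty V] {G : SimpleGraph V} {p : List V → V → ℝ} {N : ℕ}

theorem F_med (hL : IsLaw G p) {α : ℝ} (hα : 0 < α) (hE : Expd G α) {h : List V}
    (hh : h.length < N) :
    F p 1 (fun s => avg (fun y => |U G p N s y - med (U G p N s)|)) h ≤ Lc α * cc G p N h := by
  rw [cc_eq hh, ← F_mul]
  refine F_mono hL.nonneg fun s => ?_
  have h1 := exp_one hE hα.le (U G p N s) (med (U G p N s)) (med_spec _)
  have hn : (0 : ℝ) ≤ (Fintype.card V : ℝ) := Nat.cast_nonneg _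
  have h2 : ∑ y, |U G p N s y - med (U G p N s)| ≤
      Lc α * ∑ y, (star G (U G p N s) y - U G p N s y) := by
    have h3 : Lc α * (α / (1 + α) * ∑ y, |U G p N s y - med (U G p N s)|) =
        ∑ y, |U G p N s y - med (U G p N s)| := by
      unfold Lc
      field_simp
    rw [← h3]
    exact mul_le_mul_of_nonneg_left h1 (by unfold Lc; positivity)
  unfold avg
  rw [← mul_div_assoc]
  exact div_le_div_of_nonneg_right h2 hn

theorem abs_v_med (s : List V) :
    |v G p N s - med (U G p N s)| ≤ avg (fun y => |U G p N s y - med (U G p N s)|) := by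
  have h1 : v G p N s - med (U G p N s) = avg (fun y => U G p N s y - med (U G p N s)) := by
    have h2 := avg_sub (U G p N s) (fun _ : V => med (U G p N s))
    rw [avg_const] at h2
    unfold v
    rw [← h2]
  rw [h1]
  unfold avg
  rw [abs_div, abs_of_nonneg (Nat.cast_nonneg (α := ℝ) (Fintype.card V))]
  exact div_le_div_of_nonneg_right (Finset.abs_sum_le_sum_abs _ _) (Nat.cast_nonneg _)

/-- (3.1) -/
theorem neg_step (hL : IsLaw G p) {α P : ℝ} (hα : 0 < α) (hP : 1 ≤ P) (hE : Expd G α) {h : List V}
    (hh : h.length < N) :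
    nrm P (phm G p N h) ≤ (1 + α) ^ (-(1 / P)) * F p 1 (fun s => nrm P (phm G p N s)) h +
      (1 + 2 * Lc α) * cc G p N h := by
  have hP0 : 0 < P := by linarith
  have hcc := cc_nonneg (N := N) hL hh
  set W : List V → ℝ := fun s => |v G p N s - med (U G p N s)| with hW
  set K : ℝ := F p 1 W h with hK
  have hK0 : 0 ≤ K := F_nonneg hL.nonneg fun s _ => abs_nonneg _
  have hKL : K ≤ Lc α * cc G p N h :=
    (F_mono hL.nonneg fun s => abs_v_med s).trans (F_med hL hα hE hh)
  set κ : ℝ := (1 + α) ^ (-(1 / P)) with hκ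
  have hκ0 : 0 ≤ κ := Real.rpow_nonneg (by linarith) _
  have hκ1 : κ ≤ 1 := Real.rpow_le_one_of_one_le_of_nonpos (by linarith)
    (by have : 0 ≤ 1 / P := by positivity
        linarith)
  -- pointwise bound
  have hpt : ∀ y, |phm G p N h y| ≤
      F p 1 (fun s => max (med (U G p N s) - star G (U G p N s) y) 0) h + (cc G p N h + K) := by
    intro y
    rw [abs_of_nonneg (phm_nonneg h y)]
    have hF0 : 0 ≤ F p 1 (fun s => max (med (U G p N s) - star G (U G p N s) y) 0) h :=
      F_nonneg hL.nonneg fun s _ => le_max_right _ _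
    unfold phm
    refine max_le ?_ (by linarith)
    unfold phi
    have h1 : v G p N h = cc G p N h + F p 1 (v G p N) h := by unfold cc; ring
    rw [h1, U_succ hh y]
    have h2 : F p 1 (v G p N) h - F p 1 (fun s => star G (U G p N s) y) h ≤
        F p 1 (fun s => max (med (U G p N s) - star G (U G p N s) y) 0) h + K := by
      rw [← F_sub, hK, ← F_add]
      refine F_mono hL.nonneg fun s => ?_
      have h3 := le_max_left (med (U G p N s) - star G (U G p N s) y) 0
      have h4 := le_abs_self (v G p N s - med (U G p N s))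
      simp only [hW]
      linarith
    linarith
  -- norms
  have hn1 : nrm P (phm G p N h) ≤
      nrm P (fun y => F p 1 (fun s => max (med (U G p N s) - star G (U G p N s) y) 0) h) +
        (cc G p N h + K) := by
    refine (nrm_mono hP0 hpt).trans ((nrm_add hP _ _).trans ?_)
    rw [nrm_const hP0 (by linarith)]
  have hn2 : nrm P (fun y => F p 1 (fun s => max (med (U G p N s) - star G (U G p N s) y) 0) h) ≤
      F p 1 (fun s => nrm P (fun y => max (med (U G p N s) - star G (U G p N s) y) 0)) h :=
    nrm_F hL.nonneg hP (fun s y => max (med (U G p N s) - star G (U G p N s) y) 0) h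
  have hn3 : F p 1 (fun s => nrm P (fun y => max (med (U G p N s) - star G (U G p N s) y) 0)) h ≤
      F p 1 (fun s => κ * nrm P (phm G p N s) + W s) h := by
    refine F_mono hL.nonneg fun s => ?_
    have hm := (med_spec (U G p N s)).2
    have h1 := nrm_exp_neg hE hα.le hP (U G p N s) (med (U G p N s)) hm
    have h2 : nrm P (fun y => max (med (U G p N s) - star G (U G p N s) y) 0) ≤
        κ * nrm P (fun y => max (med (U G p N s) - U G p N s y) 0) := by
      have h3 : κ * ((1 + α) ^ (1 / P) *
          nrm P (fun y => max (med (U G p N s) - star G (U G p N s) y) 0)) =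
          nrm P (fun y => max (med (U G p N s) - star G (U G p N s) y) 0) := by
        rw [hκ, Real.rpow_neg (by linarith), ← mul_assoc, inv_mul_cancel₀, one_mul]
        exact (Real.rpow_pos_of_pos (by linarith) _).ne'
      rw [← h3]
      exact mul_le_mul_of_nonneg_left h1 hκ0
    have h4 : nrm P (fun y => max (med (U G p N s) - U G p N s y) 0) ≤
        nrm P (phm G p N s) + W s := by
      have h5 : ∀ y, |max (med (U G p N s) - U G p N s y) 0| ≤ phm G p N s y + W s := by
        intro y
        rw [abs_of_nonneg (le_max_right _ _)]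
        have h6 := phm_nonneg (G := G) (p := p) (N := N) s y
        have h7 : 0 ≤ W s := abs_nonneg _
        refine max_le ?_ (by linarith)
        have h8 : -phi G p N s y ≤ phm G p N s y := le_max_left _ _
        have h9 := neg_abs_le (v G p N s - med (U G p N s))
        unfold phi at h8
        simp only [hW]
        linarith
      refine (nrm_mono hP0 h5).trans ((nrm_add hP _ _).trans ?_)
      rw [nrm_const hP0 (abs_nonneg _)]
    have h10 : 0 ≤ W s := abs_nonneg _
    calc nrm P (fun y => max (med (U G p N s) - star G (U G p N s) y) 0)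
        ≤ κ * nrm P (fun y => max (med (U G p N s) - U G p N s y) 0) := h2
      _ ≤ κ * (nrm P (phm G p N s) + W s) := mul_le_mul_of_nonneg_left h4 hκ0
      _ ≤ κ * nrm P (phm G p N s) + W s := by nlinarith
  rw [F_add, F_mul] at hn3
  have hK2 : F p 1 W h = K := rfl
  rw [hK2] at hn3
  linarith

end Pool.Agent.H86.MT
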