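import Pool.Agent.H86.MT.LpA

/-!
MT-LP. The `L^P` bound for the negative part and the `L^q` bound for the positive part of the centred
value `phi`, section 3 of h86_transitive.md. `L = (1 + α)/α`.

* `pos_step` (3.2). `q`-norm version. Put `f_x y = p h x * max (star (U (x::h)) y - a (x::h)) 0`. Then
  `∑_x f_x y = F 1 (fun s => max (star (U s) y - a s) 0) h = U h y - F 1 a h + F 1 (max (a s - star (U s) y) 0) h
   ≤ e y := php h y + cc h + 2 F 1 |v - a| h + F 1 (phm s y) h`
  (`max (a - star U) 0 ≤ max (a - U) 0 ≤ phm + |v - a|`). Only the `x` in a set `S` of at most `Δ + 1`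
  letters have `p h x ≠ 0` when `h ≠ []`. For `h = []` the support is all of `V`: this is why the
  statement is for `x :: h`; the step from `[]` is not needed (`nrm q (php) ≤ 1`).
  `nrm_pieces` and `nrm_exp_pos`: `F 1 (nrm q (max (U s - a s) 0)) h ≤ (Δ+1)^(1-1/q) (1+α)^(-1/q) nrm q e`
  and `(Δ+1)^(1/P) (1+α)^(-1/q) ≤ (1+α)^(1/4) (1+α)^(-1/2) = (1+α)^(-1/4)` (`1/q ≥ 1/2`).
  Finally `php s y ≤ max (U s y - a s) 0 + |v s - a s|`.
-/

set_option autoImplicit false
set_option linter.unusedSectionVars false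

open N6ef48c04

namespace Pool.Agent.H86.MT

variable {V : Type} [Fintype V] [Nonempty V] {G : SimpleGraph V} {p : List V → V → ℝ} {N : ℕ}

/-- (3.2) -/
theorem pos_step (hL : IsLaw G p) {Δ : ℕ} {α P q : ℝ} (hpar : Par Δ α P q) (hE : Expd G α)
    (hΔ : ∀ y, (nb G y).card ≤ Δ + 1) {x : V} {h : List V} (hh : (x :: h).length < N) :
    F p 1 (fun s => nrm q (php G p N s)) (x :: h) ≤
      (1 + α) ^ (-(1 / (4 : ℝ))) * (nrm q (php G p N (x :: h)) +
        (1 + 2 * Lc α) * cc G p N (x :: h) + F p 1 (fun s => nrm q (phm G p N s)) (x :: h)) +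
      Lc α * cc G p N (x :: h) := by
  have hα := hpar.hα
  have hq := hpar.hq
  have hq0 : 0 < q := by linarith
  have hcc := cc_nonneg (N := N) hL hh
  set H : List V := x :: h with hH
  set W : List V → ℝ := fun s => |v G p N s - med (U G p N s)| with hW
  set K : ℝ := F p 1 W H with hK
  have hK0 : 0 ≤ K := F_nonneg hL.nonneg fun s _ => abs_nonneg _
  have hKL : K ≤ Lc α * cc G p N H :=
    (F_mono hL.nonneg fun s => abs_v_med s).trans (F_med hL hα hE hh)
  set κ : ℝ := (1 + α) ^ (-(1 / (4 : ℝ))) with hκ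
  have hκ0 : 0 ≤ κ := Real.rpow_nonneg (by linarith) _
  have h1α : (1 : ℝ) ≤ 1 + α := by linarith
  have h1α0 : (0 : ℝ) < 1 + α := by linarith
  -- the coefficient
  have hcoef : (1 + α) ^ (-(1 / q)) * (((Δ + 1 : ℕ) : ℝ) ^ (1 - 1 / q)) ≤ κ := by
    have e1 : 1 - 1 / q = 1 / P := by linarith [hpar.hpq]
    have e2 : (((Δ + 1 : ℕ) : ℝ) ^ (1 - 1 / q)) ≤ (1 + α) ^ ((1 : ℝ) / 4) := by
      rw [e1]
      push_cast
      exact hpar.hΔ
    have e3 : (1 + α) ^ (-(1 / q)) ≤ (1 + α) ^ (-(1 / (2 : ℝ))) := by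
      refine Real.rpow_le_rpow_of_exponent_le h1α ?_
      have : 1 / (2 : ℝ) ≤ 1 / q := one_div_le_one_div_of_le hq0 hpar.hq2
      linarith
    calc (1 + α) ^ (-(1 / q)) * (((Δ + 1 : ℕ) : ℝ) ^ (1 - 1 / q))
        ≤ (1 + α) ^ (-(1 / (2 : ℝ))) * (1 + α) ^ ((1 : ℝ) / 4) :=
          mul_le_mul e3 e2 (Real.rpow_nonneg (Nat.cast_nonneg _) _)
            (Real.rpow_nonneg h1α0.le _)
      _ = κ := by
          rw [← Real.rpow_add h1α0, hκ]
          norm_num
  -- pointwise bound
  set f : V → V → ℝ := fun x' y => p H x' * max (star G (U G p N (x' :: H)) y -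
    med (U G p N (x' :: H))) 0 with hf
  have hf0 : ∀ x' y, 0 ≤ f x' y := fun x' y => mul_nonneg (hL.nonneg _ _) (le_max_right _ _)
  set S : Finset V := nb G x with hS
  have hS0 : ∀ x', x' ∉ S → p H x' = 0 := by
    intro x' hx'
    by_contra h0
    exact hx' ((mem_nb G).2 (hL.supp x h x' h0))
  have hpt : ∀ y, |∑ x' ∈ S, f x' y| ≤ (php G p N H y +
      F p 1 (fun s => phm G p N s y) H) + (cc G p N H + 2 * K) := by
    intro y
    rw [abs_of_nonneg (Finset.sum_nonneg fun x' _ => hf0 x' y)]
    have g1 : ∑ x' ∈ S, f x' y =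
        F p 1 (fun s => max (star G (U G p N s) y - med (U G p N s)) 0) H := by
      rw [F_one]
      refine Finset.sum_subset (Finset.subset_univ _) (fun x' _ hx' => ?_)
      simp only [hf]
      rw [hS0 x' hx', zero_mul]
    rw [g1]
    have g2 : U G p N H y = F p 1 (fun s => star G (U G p N s) y) H := U_succ hh y
    have g3 : F p 1 (fun s => max (star G (U G p N s) y - med (U G p N s)) 0) H ≤
        F p 1 (fun s => ((star G (U G p N s) y - v G p N s) + 2 * W s) + phm G p N s y) H := by
      refine F_mono hL.nonneg fun s => ?_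
      have k1 := le_abs_self (v G p N s - med (U G p N s))
      have k2 := neg_abs_le (v G p N s - med (U G p N s))
      have k3 : -phi G p N s y ≤ phm G p N s y := le_max_left _ _
      have k4 := le_star_self G (U G p N s) y
      have k5 := phm_nonneg (G := G) (p := p) (N := N) s y
      unfold phi at k3
      simp only [hW]
      refine max_le ?_ ?_
      · linarith [abs_nonneg (v G p N s - med (U G p N s))]
      · linarith [abs_nonneg (v G p N s - med (U G p N s))]
    rw [F_add, F_add, F_sub, F_mul, ← g2] at g3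
    have g4 : F p 1 (v G p N) H = v G p N H - cc G p N H := by unfold cc; ring
    have g5 : phi G p N H y ≤ php G p N H y := le_max_left _ _
    have g6 : F p 1 W H = K := rfl
    unfold phi at g5
    have g7 : F p 1 (fun s => v G p N s) H = F p 1 (v G p N) H := rfl
    rw [g7, g4, g6] at g3
    linarith
  have hnorm : nrm q (fun y => ∑ x' ∈ S, f x' y) ≤ nrm q (php G p N H) +
      (1 + 2 * Lc α) * cc G p N H + F p 1 (fun s => nrm q (phm G p N s)) H := by
    refine (nrm_mono hq0 hpt).trans ((nrm_add hq _ _).trans ?_)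
    rw [nrm_const hq0 (by linarith)]
    have m1 := nrm_add hq (php G p N H) (fun y => F p 1 (fun s => phm G p N s y) H)
    have m2 := nrm_F hL.nonneg hq (fun s y => phm G p N s y) H
    have m3 : F p 1 (fun t => nrm q (fun y => phm G p N t y)) H =
      F p 1 (fun s => nrm q (phm G p N s)) H := rfl
    rw [m3] at m2
    linarith
  have hmain : F p 1 (fun s => nrm q (fun y => max (U G p N s y - med (U G p N s)) 0)) H ≤
      κ * (nrm q (php G p N H) + (1 + 2 * Lc α) * cc G p N H +
        F p 1 (fun s => nrm q (phm G p N s)) H) := by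
    have n1 : ∀ s, nrm q (fun y => max (U G p N s y - med (U G p N s)) 0) ≤
        (1 + α) ^ (-(1 / q)) *
          nrm q (fun y => max (star G (U G p N s) y - med (U G p N s)) 0) := by
      intro s
      have k1 := nrm_exp_pos hE hα.le hq (U G p N s) (med (U G p N s)) (med_spec _).1
      have k2 : (1 + α) ^ (-(1 / q)) * ((1 + α) ^ (1 / q) *
          nrm q (fun y => max (U G p N s y - med (U G p N s)) 0)) =
          nrm q (fun y => max (U G p N s y - med (U G p N s)) 0) := by
        rw [Real.rpow_neg h1α0.le, ← mul_assoc, inv_mul_cancel₀, one_mul]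
        exact (Real.rpow_pos_of_pos h1α0 _).ne'
      rw [← k2]
      exact mul_le_mul_of_nonneg_left k1 (Real.rpow_nonneg h1α0.le _)
    have n2 : F p 1 (fun s => (1 + α) ^ (-(1 / q)) *
          nrm q (fun y => max (star G (U G p N s) y - med (U G p N s)) 0)) H =
        (1 + α) ^ (-(1 / q)) * ∑ x' ∈ S, nrm q (f x') := by
      rw [F_mul, F_one]
      congr 1
      rw [← Finset.sum_subset (Finset.subset_univ S)]
      · refine Finset.sum_congr rfl (fun x' _ => ?_)
        simp only [hf]
        exact (nrm_mul hq0 (hL.nonneg _ _) _).symm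
      · intro x' _ hx'
        rw [hS0 x' hx', zero_mul]
    have n3 := nrm_pieces hq S (hΔ x) f hf0
    have hc0 : 0 ≤ (1 + α) ^ (-(1 / q)) := Real.rpow_nonneg h1α0.le _
    calc F p 1 (fun s => nrm q (fun y => max (U G p N s y - med (U G p N s)) 0)) H
        ≤ F p 1 (fun s => (1 + α) ^ (-(1 / q)) *
          nrm q (fun y => max (star G (U G p N s) y - med (U G p N s)) 0)) H :=
          F_mono hL.nonneg fun s => n1 s
      _ = (1 + α) ^ (-(1 / q)) * ∑ x' ∈ S, nrm q (f x') := n2
      _ ≤ (1 + α) ^ (-(1 / q)) * ((((Δ + 1 : ℕ) : ℝ) ^ (1 - 1 / q)) *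
            nrm q (fun y => ∑ x' ∈ S, f x' y)) := mul_le_mul_of_nonneg_left n3 hc0
      _ = ((1 + α) ^ (-(1 / q)) * (((Δ + 1 : ℕ) : ℝ) ^ (1 - 1 / q))) *
            nrm q (fun y => ∑ x' ∈ S, f x' y) := by ring
      _ ≤ κ * nrm q (fun y => ∑ x' ∈ S, f x' y) :=
          mul_le_mul_of_nonneg_right hcoef (nrm_nonneg _ _)
      _ ≤ _ := mul_le_mul_of_nonneg_left hnorm hκ0
  have hlast : F p 1 (fun s => nrm q (php G p N s)) H ≤
      F p 1 (fun s => nrm q (fun y => max (U G p N s y - med (U G p N s)) 0) + W s) H := by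
    refine F_mono hL.nonneg fun s => ?_
    have h5 : ∀ y, |php G p N s y| ≤ max (U G p N s y - med (U G p N s)) 0 + W s := by
      intro y
      rw [abs_of_nonneg (php_nonneg s y)]
      have k1 := le_max_left (U G p N s y - med (U G p N s)) 0
      have k2 := le_max_right (U G p N s y - med (U G p N s)) 0
      have k3 := neg_abs_le (v G p N s - med (U G p N s))
      unfold php phi
      simp only [hW]
      refine max_le ?_ ?_
      · linarith
      · linarith [abs_nonneg (v G p N s - med (U G p N s))]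
    refine (nrm_mono hq0 h5).trans ((nrm_add hq _ _).trans ?_)
    rw [nrm_const hq0 (abs_nonneg _)]
  rw [F_add] at hlast
  have hK2 : F p 1 W H = K := rfl
  rw [hK2] at hlast
  linarith

end Pool.Agent.H86.MT
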