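import Pool.Agent.H86.MT.Defs

/-!
MT-PARAM. Choice of the constants and the value theorem.

* `near_of_expd`: `B k y = {z | Near G k y z}`, `B (k+1) y ⊇ (B k y).biUnion nb` (Near with the last step
  moved to the front; `Near_trans`, `Near_symm`), so either `2 #B k > n` or `#B k ≥ (1 + α)^k`. If
  `n ≤ (1 + α)^k` then `2 #B k y > n` for all `y`, so `B k y` and `B k z` meet and `Near (2k) y z`.
* `value_thm`: `near_of_expd` with `k = ⌈log n / log (1+α)⌉`, `D = 2k` (or `D = 2k + 1`), `core`, `numeric`; if `val G p N [] y < ε` for all `y`
  then `v G p N [] ≤ ε` (`U G p N [] y = val G p N [] y`).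
-/

set_option autoImplicit false
set_option linter.unusedSectionVars false

open N6ef48c04

namespace Pool.Agent.H86.MT

variable {V : Type} [Fintype V] [Nonempty V] {G : SimpleGraph V} {p : List V → V → ℝ} {N : ℕ}

theorem Near_trans {a b : ℕ} {x y z : V} (h1 : Near G a x y) (h2 : Near G b y z) :
    Near G (a + b) x z := by
  induction a generalizing x with
  | zero =>
    have : x = y := h1
    rw [this, Nat.zero_add]
    exact h2
  | succ a ih =>
    obtain ⟨x', h3, h4⟩ := h1
    rw [show a + 1 + b = (a + b) + 1 by ring]
    exact ⟨x', h3, ih h4⟩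

theorem Near_one {x y : V} (h : Step G x y) : Near G 1 x y := ⟨y, h, rfl⟩

theorem Step_symm' {x y : V} (h : Step G x y) : Step G y x := by
  rw [← mem_nb] at h ⊢
  rwa [mem_nb_comm] at h

theorem Near_symm {a : ℕ} {x y : V} (h : Near G a x y) : Near G a y x := by
  induction a generalizing x with
  | zero => exact (h : x = y).symm
  | succ a ih =>
    obtain ⟨x', h3, h4⟩ := h
    exact Near_trans (ih h4) (Near_one (Step_symm' h3))

open Classical in
theorem ball_grow {α : ℝ} (hα : 0 < α) (hE : Expd G α) (y : V) (k : ℕ) :
    Fintype.card V < 2 * (Finset.univ.filter (fun z => Near G k y z)).card ∨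
      (1 + α) ^ k ≤ ((Finset.univ.filter (fun z => Near G k y z)).card : ℝ) := by
  induction k with
  | zero =>
    right
    rw [pow_zero]
    have : 0 < (Finset.univ.filter (fun z => Near G 0 y z)).card :=
      Finset.card_pos.2 ⟨y, Finset.mem_filter.2 ⟨Finset.mem_univ _, rfl⟩⟩
    exact_mod_cast this
  | succ k ih =>
    have hsub : (Finset.univ.filter (fun z => Near G k y z)).biUnion (nb G) ⊆
        Finset.univ.filter (fun z => Near G (k + 1) y z) := by
      intro z hz
      rw [Finset.mem_biUnion] at hz
      obtain ⟨w, hw, hz⟩ := hz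
      rw [Finset.mem_filter] at hw ⊢
      exact ⟨Finset.mem_univ _, Near_trans hw.2 (Near_one ((mem_nb G).1 hz))⟩
    have hsub' : (Finset.univ.filter (fun z => Near G k y z)) ⊆
        Finset.univ.filter (fun z => Near G (k + 1) y z) := by
      intro z hz
      rw [Finset.mem_filter] at hz ⊢
      exact ⟨Finset.mem_univ _, Near_trans hz.2 (Near_one (Or.inl rfl))⟩
    by_cases h : Fintype.card V < 2 * (Finset.univ.filter (fun z => Near G k y z)).card
    · left
      have := Finset.card_le_card hsub'
      omega
    · rcases ih with h1 | h1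
      · exact absurd h1 h
      · right
        have h2 := hE (Finset.univ.filter (fun z => Near G k y z)) (by omega)
        have h3 : (((Finset.univ.filter (fun z => Near G k y z)).biUnion (nb G)).card : ℝ) ≤
            ((Finset.univ.filter (fun z => Near G (k + 1) y z)).card : ℝ) := by
          exact_mod_cast Finset.card_le_card hsub
        have h4 : (1 + α) ^ (k + 1) ≤
            (1 + α) * ((Finset.univ.filter (fun z => Near G k y z)).card : ℝ) := by
          rw [pow_succ, mul_comm]
          exact mul_le_mul_of_nonneg_left h1 (by linarith)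
        linarith

theorem near_of_expd {α : ℝ} (hα : 0 < α) (hE : Expd G α) {k : ℕ}
    (hk : (Fintype.card V : ℝ) ≤ (1 + α) ^ k) (y z : V) : Near G (2 * k) y z := by
  classical
  have key : ∀ y : V, Fintype.card V < 2 * (Finset.univ.filter (fun z => Near G k y z)).card := by
    intro y
    rcases ball_grow hα hE y k with h | h
    · exact h
    · have h1 : (Fintype.card V : ℝ) ≤
          ((Finset.univ.filter (fun z => Near G k y z)).card : ℝ) := hk.trans h
      have h2 : Fintype.card V ≤ (Finset.univ.filter (fun z => Near G k y z)).card := by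
        exact_mod_cast h1
      have h3 : 0 < Fintype.card V := Fintype.card_pos
      omega
  have hne : ¬ Disjoint (Finset.univ.filter (fun w => Near G k y w))
      (Finset.univ.filter (fun w => Near G k z w)) := by
    intro hd
    have h1 := Finset.card_union_of_disjoint hd
    have h2 : ((Finset.univ.filter (fun w => Near G k y w)) ∪
      (Finset.univ.filter (fun w => Near G k z w))).card ≤ Fintype.card V := Finset.card_le_univ _
    have h3 := key y
    have h4 := key z
    omega
  rw [Finset.not_disjoint_iff] at hne
  obtain ⟨w, h1, h2⟩ := hne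
  rw [Finset.mem_filter] at h1 h2
  rw [two_mul]
  exact Near_trans h1.2 (Near_symm h2.2)

end Pool.Agent.H86.MT
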