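import Pool.Agent.H86.MT.Defs

/-!
MT-PARAM. Choice of the constants and the value theorem.

* `exists_par`: `P` large, `q = P/(P-1)`.
* `numeric`: with `Bc = log (2 (Δ+1))`, `CD > 0` and `CL` given: `c0 = 1/(60 (CD+1))`, `δ0 = 1/(160 (Bc+1) (CD+1))`,
  `N0` large with `exp(-c0 N0) ≤ (1 - exp(-c0))/2` and `16 exp(-c0 N0)/(1-exp(-c0)) ≤ δ0/4`, `ε = min (δ0/64) (1/32)`, `K1` with
  `N0 CL / K1^2 ≤ δ0/4`. Then for `n ≥ n0`, `M = ⌈K1 √n⌉`, any `D ≤ CD log n + 3`: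
  `(6 c0 + 16 Bc δ) D ≤ (0.1 + 0.1) log n + O(1)` and the inequality fails since `M exp(-0.2 log n - O(1)) ≫ D`.
  It is enough to know that `log n / n^(1/10) → 0` (`isLittleO_log_rpow_atTop`).
* `value_thm`: `near_of_expd` with `k = ⌈log n / log (1+α)⌉`, `D = 2k` (or `D = 2k + 1`), `core`, `numeric`; if `val G p N [] y < ε` for all `y`
  then `v G p N [] ≤ ε` (`U G p N [] y = val G p N [] y`).
-/

set_option autoImplicit false
set_option linter.unusedSectionVars false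

open N6ef48c04

namespace Pool.Agent.H86.MT

variable {V : Type} [Fintype V] [Nonempty V] {G : SimpleGraph V} {p : List V → V → ℝ} {N : ℕ}

theorem exists_par (Δ : ℕ) {α : ℝ} (hα : 0 < α) : ∃ P q : ℝ, Par Δ α P q := by
  set a : ℝ := Real.log ((Δ : ℝ) + 1) with ha
  set l : ℝ := Real.log (1 + α) with hl
  have hΔ0 : (0 : ℝ) ≤ Δ := Nat.cast_nonneg _
  have ha0 : 0 ≤ a := Real.log_nonneg (by linarith)
  have hl0 : 0 < l := Real.log_pos (by linarith)
  set P : ℝ := max 2 (4 * a / l) with hP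
  have hP2 : 2 ≤ P := le_max_left _ _
  have hPa : 4 * a / l ≤ P := le_max_right _ _
  have hP0 : 0 < P := by linarith
  have hP1 : 0 < P - 1 := by linarith
  refine ⟨P, P / (P - 1), hα, hP2, ?_, ?_, ?_, ?_⟩
  · field_simp
    ring
  · rw [le_div_iff₀ hP1]
    linarith
  · rw [div_le_iff₀ hP1]
    linarith
  · rw [Real.rpow_def_of_pos (by linarith), Real.rpow_def_of_pos (by linarith)]
    refine Real.exp_le_exp.2 ?_
    rw [← ha, ← hl]
    rw [div_le_iff₀ hl0] at hPa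
    rw [mul_one_div, div_le_iff₀ hP0]
    linarith

theorem CLc_nonneg (Δ : ℕ) {α P : ℝ} (hα : 0 < α) (hP : 0 < P) : 0 ≤ CLc Δ α P := by
  have h1 : (1 + α) ^ (-(1 / P)) < 1 :=
    Real.rpow_lt_one_of_one_lt_of_neg (by linarith) (by
      have : 0 < 1 / P := by positivity
      linarith)
  have h2 : (1 + α) ^ (-(1 / (4 : ℝ))) < 1 :=
    Real.rpow_lt_one_of_one_lt_of_neg (by linarith) (by norm_num)
  have hL : 0 ≤ Lc α := by
    unfold Lc
    positivity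
  have hcm : 0 ≤ cm α P := by
    unfold cm
    have : 0 < 1 - (1 + α) ^ (-(1 / P)) := by linarith
    positivity
  have hcp : 0 ≤ cp α P := by
    unfold cp
    have : 0 < 1 - (1 + α) ^ (-(1 / (4 : ℝ))) := by linarith
    positivity
  unfold CLc
  positivity

theorem log_growth {CD : ℝ} (hCD : 0 < CD) : ∃ n0 : ℕ, 1 ≤ n0 ∧ ∀ n : ℕ, n0 ≤ n →
    CD * Real.log n + 3 ≤ 1 / 16 * (n : ℝ) ^ ((3 : ℝ) / 10) := by
  have h1 : ∀ᶠ x : ℝ in Filter.atTop, ‖Real.log x‖ ≤ (1 / (32 * CD)) * ‖x ^ ((3 : ℝ) / 10)‖ :=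
    (isLittleO_log_rpow_atTop (r := (3 : ℝ) / 10) (by norm_num)).def (by positivity)
  have h2 : ∀ᶠ x : ℝ in Filter.atTop, 96 ≤ x ^ ((3 : ℝ) / 10) :=
    (tendsto_rpow_atTop (y := (3 : ℝ) / 10) (by norm_num)).eventually_ge_atTop 96
  have h3 := tendsto_natCast_atTop_atTop (R := ℝ) |>.eventually (h1.and h2)
  obtain ⟨n0, hn0⟩ := Filter.eventually_atTop.1 h3
  refine ⟨max n0 1, le_max_right _ _, fun n hn => ?_⟩
  obtain ⟨h4, h5⟩ := hn0 n ((le_max_left _ _).trans hn)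
  have hn1 : (1 : ℝ) ≤ n := by
    exact_mod_cast (le_max_right n0 1).trans hn
  rw [Real.norm_of_nonneg (Real.log_nonneg hn1), Real.norm_of_nonneg (by positivity)] at h4
  have h6 : CD * Real.log n ≤ 1 / 32 * (n : ℝ) ^ ((3 : ℝ) / 10) := by
    calc CD * Real.log n ≤ CD * ((1 / (32 * CD)) * (n : ℝ) ^ ((3 : ℝ) / 10)) :=
          mul_le_mul_of_nonneg_left h4 hCD.le
      _ = _ := by field_simp
  linarith

theorem numeric (Δ : ℕ) {α P CD : ℝ} (hCD : 0 < CD) (hCL : 0 ≤ CLc Δ α P) :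
    ∃ (ε c0 K1 : ℝ) (N0 n0 : ℕ), 0 < ε ∧ ε ≤ 1 / 32 ∧ 0 < c0 ∧ 0 < K1 ∧ 1 ≤ N0 ∧ 1 ≤ n0 ∧
      Real.exp (-(c0 * N0)) ≤ (1 - Real.exp (-c0)) / 2 ∧
      ∀ n : ℕ, n0 ≤ n → ∀ D : ℕ, 1 ≤ D → (D : ℝ) ≤ CD * Real.log n + 3 →
        8 * D ≤ ⌈K1 * Real.sqrt n⌉₊ ∧
        2 * D * ε < 7 / 16 * (⌈K1 * Real.sqrt n⌉₊ : ℝ) *
          Real.exp (-((6 * c0 + 16 * Real.log (2 * (Δ + 1)) *
            δc Δ α P ε c0 N0 ⌈K1 * Real.sqrt n⌉₊ n) * D)) := by
  set B : ℝ := Real.log (2 * ((Δ : ℝ) + 1)) with hB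
  have hB0 : 0 ≤ B := Real.log_nonneg (by
    have : (0 : ℝ) ≤ Δ := Nat.cast_nonneg _
    linarith)
  set c0 : ℝ := 1 / (60 * (CD + 1)) with hc0
  have hc0pos : 0 < c0 := by positivity
  set δ0 : ℝ := 1 / (160 * (B + 1) * (CD + 1)) with hδ0
  have hδ0pos : 0 < δ0 := by positivity
  have he1 : Real.exp (-c0) < 1 := by
    rw [Real.exp_lt_one_iff]; linarith
  set e : ℝ := 1 - Real.exp (-c0) with he
  have he0 : 0 < e := by linarith
  obtain ⟨N0, hN01, hN0⟩ : ∃ N0 : ℕ, 1 ≤ N0 ∧ Real.exp (-(c0 * N0)) ≤ min (e / 2) (δ0 * e / 64) := by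
    have ht : Filter.Tendsto (fun k : ℕ => Real.exp (-c0) ^ k) Filter.atTop (nhds 0) :=
      tendsto_pow_atTop_nhds_zero_of_lt_one (Real.exp_pos _).le he1
    have hm : 0 < min (e / 2) (δ0 * e / 64) := lt_min (by positivity) (by positivity)
    have h1 := (ht.eventually (gt_mem_nhds hm)).and (Filter.eventually_ge_atTop 1)
    obtain ⟨k, hk, hk1⟩ := h1.exists
    refine ⟨k, hk1, ?_⟩
    have h2 : Real.exp (-(c0 * k)) = Real.exp (-c0) ^ k := by
      rw [← Real.exp_nat_mul]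
      congr 1
      ring
    rw [h2]
    exact hk.le
  have hN0a := hN0.trans (min_le_left _ _)
  have hN0b := hN0.trans (min_le_right _ _)
  set ε : ℝ := min (δ0 / 64) (1 / 32) with hε
  have hεpos : 0 < ε := lt_min (by positivity) (by norm_num)
  have hε1 : ε ≤ δ0 / 64 := min_le_left _ _
  have hε2 : ε ≤ 1 / 32 := min_le_right _ _
  set K1 : ℝ := 4 * N0 * CLc Δ α P / δ0 + 1 with hK1
  have hX0 : 0 ≤ 4 * N0 * CLc Δ α P / δ0 := by positivity
  have hK11 : 1 ≤ K1 := by linarith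
  obtain ⟨n0, hn01, hn0⟩ := log_growth hCD
  refine ⟨ε, c0, K1, N0, n0, hεpos, hε2, hc0pos, by linarith, hN01, hn01, hN0a, ?_⟩
  intro n hn D hD1 hD
  have hn1 : (1 : ℝ) ≤ n := by exact_mod_cast hn01.trans hn
  have hg := hn0 n hn
  set M : ℝ := (⌈K1 * Real.sqrt n⌉₊ : ℝ) with hM
  have hs1 : 1 ≤ Real.sqrt n := Real.one_le_sqrt.2 hn1
  have hMK : K1 * Real.sqrt n ≤ M := Nat.le_ceil _
  have hMs : Real.sqrt n ≤ M := by nlinarith
  have hMpos : 0 < M := by linarith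
  have hsq : (n : ℝ) ^ ((3 : ℝ) / 10) ≤ Real.sqrt n := by
    rw [Real.sqrt_eq_rpow]
    exact Real.rpow_le_rpow_of_exponent_le hn1 (by norm_num)
  have hD1' : (1 : ℝ) ≤ D := by exact_mod_cast hD1
  constructor
  · have h1 : (8 : ℝ) * D ≤ M := by linarith
    rw [hM] at h1
    exact_mod_cast h1
  · -- bound for δc
    have hδ : δc Δ α P ε c0 N0 ⌈K1 * Real.sqrt n⌉₊ n ≤ δ0 := by
      unfold δc
      rw [← hM, ← he]
      have h1 : (n : ℝ) * N0 * CLc Δ α P / M ^ 2 ≤ δ0 / 4 := by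
        rw [div_le_iff₀ (by positivity)]
        have h2 : K1 ^ 2 * n ≤ M ^ 2 := by
          have h3 : (K1 * Real.sqrt n) ^ 2 ≤ M ^ 2 := pow_le_pow_left₀ (by positivity) hMK 2
          rw [mul_pow, Real.sq_sqrt (by linarith)] at h3
          exact h3
        have h4 : 4 * N0 * CLc Δ α P ≤ δ0 * K1 ^ 2 := by
          have h5 : 4 * N0 * CLc Δ α P / δ0 ≤ K1 ^ 2 := by nlinarith
          rw [div_le_iff₀ hδ0pos] at h5
          linarith
        have h6 : 4 * N0 * CLc Δ α P * n ≤ δ0 * K1 ^ 2 * n := mul_le_mul_of_nonneg_right h4 (by linarith)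
        have h7 : δ0 * (K1 ^ 2 * n) ≤ δ0 * M ^ 2 := mul_le_mul_of_nonneg_left h2 hδ0pos.le
        linarith
      have h2 : 16 * (Real.exp (-(c0 * N0)) / e) ≤ δ0 / 4 := by
        have h3 : Real.exp (-(c0 * N0)) / e ≤ δ0 / 64 := by
          rw [div_le_iff₀ he0]
          linarith
        linarith
      linarith
    have hexp : (6 * c0 + 16 * B * δc Δ α P ε c0 N0 ⌈K1 * Real.sqrt n⌉₊ n) * D ≤
        1 / 5 * Real.log n + 3 / 5 := by
      have h1 : 16 * B * δc Δ α P ε c0 N0 ⌈K1 * Real.sqrt n⌉₊ n ≤ 1 / 10 / (CD + 1) := by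
        calc 16 * B * δc Δ α P ε c0 N0 ⌈K1 * Real.sqrt n⌉₊ n ≤ 16 * B * δ0 :=
              mul_le_mul_of_nonneg_left hδ (by positivity)
          _ ≤ 16 * (B + 1) * δ0 := by
              refine mul_le_mul_of_nonneg_right ?_ hδ0pos.le
              linarith
          _ = 1 / 10 / (CD + 1) := by
              rw [hδ0]
              field_simp
              norm_num
      have h2 : 6 * c0 = 1 / 10 / (CD + 1) := by
        rw [hc0]
        field_simp
        norm_num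
      have h3 : 6 * c0 + 16 * B * δc Δ α P ε c0 N0 ⌈K1 * Real.sqrt n⌉₊ n ≤ 1 / 5 / (CD + 1) := by
        have : 1 / 5 / (CD + 1) = 1 / 10 / (CD + 1) + 1 / 10 / (CD + 1) := by ring
        linarith
      calc (6 * c0 + 16 * B * δc Δ α P ε c0 N0 ⌈K1 * Real.sqrt n⌉₊ n) * D
          ≤ 1 / 5 / (CD + 1) * D := mul_le_mul_of_nonneg_right h3 (by positivity)
        _ ≤ 1 / 5 / (CD + 1) * (CD * Real.log n + 3) := mul_le_mul_of_nonneg_left hD (by positivity)
        _ ≤ 1 / 5 / (CD + 1) * ((CD + 1) * (Real.log n + 3)) := by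
            refine mul_le_mul_of_nonneg_left ?_ (by positivity)
            have := Real.log_nonneg hn1
            nlinarith
        _ = 1 / 5 * Real.log n + 3 / 5 := by
            field_simp
    have hE : Real.exp (-(1 / 5 * Real.log n + 3 / 5)) ≤
        Real.exp (-((6 * c0 + 16 * B * δc Δ α P ε c0 N0 ⌈K1 * Real.sqrt n⌉₊ n) * D)) :=
      Real.exp_le_exp.2 (by linarith)
    refine lt_of_lt_of_le ?_ (mul_le_mul_of_nonneg_left hE (by positivity))
    have h1 : Real.exp (-(1 / 5 * Real.log n + 3 / 5)) =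
        (n : ℝ) ^ (-((1 : ℝ) / 5)) * Real.exp (-(3 / 5)) := by
      rw [Real.rpow_def_of_pos (by linarith), ← Real.exp_add]
      congr 1
      ring
    rw [h1]
    have h2 : (2 : ℝ) / 5 ≤ Real.exp (-(3 / 5)) := by
      have := Real.add_one_le_exp (-(3 / 5 : ℝ))
      linarith
    have h3 : (n : ℝ) ^ ((3 : ℝ) / 10) = Real.sqrt n * (n : ℝ) ^ (-((1 : ℝ) / 5)) := by
      rw [Real.sqrt_eq_rpow, ← Real.rpow_add (by linarith)]
      congr 1
      norm_num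
    have h4 : 0 < (n : ℝ) ^ (-((1 : ℝ) / 5)) := by positivity
    have h5 : 0 < (n : ℝ) ^ ((3 : ℝ) / 10) := by positivity
    calc 2 * D * ε ≤ 2 * D * (1 / 32) := mul_le_mul_of_nonneg_left hε2 (by positivity)
      _ ≤ 1 / 16 * (CD * Real.log n + 3) := by linarith
      _ ≤ 1 / 16 * (1 / 16 * (n : ℝ) ^ ((3 : ℝ) / 10)) := by linarith
      _ < 7 / 16 * ((2 : ℝ) / 5 * (n : ℝ) ^ ((3 : ℝ) / 10)) := by linarith
      _ = 7 / 16 * Real.sqrt n * ((n : ℝ) ^ (-((1 : ℝ) / 5)) * (2 / 5)) := by rw [h3]; ring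
      _ ≤ 7 / 16 * M * ((n : ℝ) ^ (-((1 : ℝ) / 5)) * Real.exp (-(3 / 5))) := by
          refine mul_le_mul ?_ ?_ (by positivity) (by positivity)
          · linarith
          · exact mul_le_mul_of_nonneg_left h2 h4.le

end Pool.Agent.H86.MT
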