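import Pool.Agent.H86.MT.PaA
import Pool.Agent.H86.MT.PaB
import Pool.Agent.H86.MT.CoB

/-!
MT-PARAM. Choice of the constants and the value theorem.

* `value_thm`: `near_of_expd` with `k = ⌈log n / log (1+α)⌉`, `D = 2k` (or `D = 2k + 1`), `core`, `numeric`; if `val G p N [] y < ε` for all `y`
  then `v G p N [] ≤ ε` (`U G p N [] y = val G p N [] y`).
-/

set_option autoImplicit false
set_option linter.unusedSectionVars false

open N6ef48c04

namespace Pool.Agent.H86.MT

variable {V : Type} [Fintype V] [Nonempty V] {G : SimpleGraph V} {p : List V → V → ℝ} {N : ℕ}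

/-- the value of the single cop is bounded below: claim (M) -/
theorem value_thm (Δ : ℕ) {α : ℝ} (hα : 0 < α) :
    ∃ (ε K1 : ℝ) (n0 : ℕ), 0 < ε ∧ ε ≤ 1 ∧ 0 < K1 ∧ 1 ≤ n0 ∧
      ∀ (V : Type) [Fintype V] [Nonempty V] (G : SimpleGraph V), VT G → Expd G α →
        (∀ y, (nb G y).card ≤ Δ + 1) → n0 ≤ Fintype.card V →
        ∀ p : List V → V → ℝ, IsLaw G p → IsInv G p →
          ∃ y, ε ≤ val G p (4 * ⌈K1 * Real.sqrt (Fintype.card V)⌉₊) [] y := by
  obtain ⟨P, q, hpar⟩ := exists_par Δ hα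
  have hP : 0 < P := lt_of_lt_of_le (by norm_num) hpar.hP
  have hlog : 0 < Real.log (1 + α) := Real.log_pos (by linarith)
  have hCD : 0 < 2 / Real.log (1 + α) := by positivity
  obtain ⟨ε, c0, K1, N0, n0, hε, hε1, hc0, hK1, hN0, hn0, hexp, hnum⟩ :=
    numeric (P := P) (α := α) Δ hCD (CLc_nonneg Δ hα hP)
  refine ⟨ε, K1, max n0 2, hε, by linarith, hK1, le_trans hn0 (le_max_left _ _), ?_⟩
  intro V _ _ G hT hE hΔ hn p hL hI
  by_contra hcon
  push Not at hcon
  set n := Fintype.card V with hnV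
  have hn1 : n0 ≤ n := (le_max_left _ _).trans hn
  have hn2 : 2 ≤ n := (le_max_right _ _).trans hn
  have hnR : (2 : ℝ) ≤ n := by exact_mod_cast hn2
  have hlogn : 0 < Real.log n := Real.log_pos (by linarith)
  set k := ⌈Real.log n / Real.log (1 + α)⌉₊ with hk
  have hk1 : 1 ≤ k := Nat.one_le_ceil_iff.2 (by positivity)
  have hk2 : Real.log n / Real.log (1 + α) ≤ k := Nat.le_ceil _
  have hk3 : (k : ℝ) < Real.log n / Real.log (1 + α) + 1 := Nat.ceil_lt_add_one (by positivity)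
  have hk4 : (n : ℝ) ≤ (1 + α) ^ k := by
    have h1 : Real.log n ≤ k * Real.log (1 + α) := by
      rwa [div_le_iff₀ hlog] at hk2
    rw [← Real.log_pow] at h1
    exact (Real.log_le_log_iff (by linarith) (by positivity)).1 h1
  have hD : ∀ y z, Near G (2 * k) y z := near_of_expd hα hE hk4
  have hDb : ((2 * k : ℕ) : ℝ) ≤ 2 / Real.log (1 + α) * Real.log n + 3 := by
    push_cast
    have e : 2 / Real.log (1 + α) * Real.log n = 2 * (Real.log n / Real.log (1 + α)) := by ring
    rw [e]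
    linarith
  obtain ⟨h8, hlt⟩ := hnum n hn1 (2 * k) (by omega) hDb
  have hv : v G p (4 * ⌈K1 * Real.sqrt n⌉₊) [] ≤ ε := by
    unfold v
    calc avg (U G p (4 * ⌈K1 * Real.sqrt n⌉₊) []) ≤ avg (fun _ : V => ε) := by
          refine avg_mono fun y => ?_
          unfold U
          simpa using (hcon y).le
      _ = ε := avg_const _
  have hcore := core (N := 4 * ⌈K1 * Real.sqrt n⌉₊) (D := 2 * k) (N0 := N0) hL hI hT hpar hE hΔ rfl
    (by omega) h8 hD hv hε hε1 hc0 hN0 hexp
  exact absurd (hcore.trans_lt hlt) (lt_irrefl _)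

end Pool.Agent.H86.MT
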