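import Pool.Agent.H86.MT.Defs

/-!
MT-PAIR. The pair identity and the total loss (section 4 of h86_transitive.md).
`s, r` are two independent histories; `hd` is the current position.

* `FF_one_Phi` (4.1), exact: with `mX x' = star (U (x'::h)) (hd h') - v (x'::h)` one has
  `phi (x'::h) y' = mX x' - eX (x'::h) (hd h') y'`, `F 1 mX h = phi h (hd h') + cc h` (`U_succ`, definition
  of `cc`), the same for the other history, and
  `(mX - eX) (mY - eY) = mX mY - eX φY' - eY φX' - eX eY` with `φ = php - phm`; sum over `x', y'`.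
* `Phi_sub_le` (4.1'): from `FF_one_Phi`, `lossN ≥ 0`, `cc ≥ 0`, `phi ≥ -phm`.
-/

set_option autoImplicit false
set_option linter.unusedSectionVars false

open N6ef48c04

namespace Pool.Agent.H86.MT

variable {V : Type} [Fintype V] [Nonempty V] {G : SimpleGraph V} {p : List V → V → ℝ} {N : ℕ}

theorem FF_one (f : List V → List V → ℝ) (h h' : List V) :
    FF p 1 f h h' = ∑ x', ∑ y', p h x' * p h' y' * f (x' :: h) (y' :: h') := by
  unfold FF
  rw [F_one]
  refine Finset.sum_congr rfl fun x' _ => ?_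
  rw [F_one, Finset.mul_sum]
  exact Finset.sum_congr rfl fun y' _ => by ring

theorem PairA_sum_m {h : List V} (hh : h.length < N) (y : V) :
    ∑ x', p h x' * (star G (U G p N (x' :: h)) y - v G p N (x' :: h)) =
      phi G p N h y + cc G p N h := by
  have h1 := U_succ (G := G) (p := p) (N := N) hh y
  rw [F_one] at h1
  unfold phi cc
  rw [F_one, h1]
  simp only [mul_sub, Finset.sum_sub_distrib]
  ring

/-- (4.1) -/
theorem FF_one_Phi (hL : IsLaw G p) {h h' : List V} (hh : h.length < N) (hh' : h'.length < N) :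
    FF p 1 (Phi G p N) h h' = (phi G p N h (hd h') + cc G p N h) * (phi G p N h' (hd h) + cc G p N h') -
      lossP G p N h h' + lossN G p N h h' := by
  rw [FF_one, ← PairA_sum_m hh (hd h'), ← PairA_sum_m hh' (hd h), Finset.sum_mul_sum]
  unfold lossP lossN
  rw [← Finset.sum_sub_distrib, ← Finset.sum_add_distrib]
  refine Finset.sum_congr rfl fun x' _ => ?_
  rw [← Finset.sum_sub_distrib, ← Finset.sum_add_distrib]
  refine Finset.sum_congr rfl fun y' _ => ?_
  have e1 : Phi G p N (x' :: h) (y' :: h') =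
      phi G p N (x' :: h) y' * phi G p N (y' :: h') x' := rfl
  have a1 : phi G p N (x' :: h) y' = (star G (U G p N (x' :: h)) (hd h') - v G p N (x' :: h)) -
      eX G p N (x' :: h) (hd h') y' := by
    unfold phi eX
    ring
  have a2 : phi G p N (y' :: h') x' = (star G (U G p N (y' :: h')) (hd h) - v G p N (y' :: h')) -
      eX G p N (y' :: h') (hd h) x' := by
    unfold phi eX
    ring
  have b1 := phi_eq (G := G) (p := p) (N := N) (x' :: h) y'
  have b2 := phi_eq (G := G) (p := p) (N := N) (y' :: h') x'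
  have c1 : star G (U G p N (x' :: h)) (hd h') - v G p N (x' :: h) =
      php G p N (x' :: h) y' - phm G p N (x' :: h) y' + eX G p N (x' :: h) (hd h') y' := by
    rw [← b1, a1]
    ring
  have c2 : star G (U G p N (y' :: h')) (hd h) - v G p N (y' :: h') =
      php G p N (y' :: h') x' - phm G p N (y' :: h') x' + eX G p N (y' :: h') (hd h) x' := by
    rw [← b2, a2]
    ring
  rw [e1, b1, b2, c1, c2]
  ring

theorem PairA_eX_nonneg {s : List V} {y y' : V} (h : Step G y y') : 0 ≤ eX G p N s y y' := by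
  unfold eX
  have := le_star G (U G p N s) ((mem_nb G).2 h)
  linarith

theorem lossP_nonneg (hL : IsLaw G p) (x y : V) (h h' : List V) :
    0 ≤ lossP G p N (x :: h) (y :: h') := by
  unfold lossP
  refine Finset.sum_nonneg fun x' _ => Finset.sum_nonneg fun y' _ => ?_
  by_cases h1 : p (x :: h) x' = 0
  · rw [h1]; simp
  by_cases h2 : p (y :: h') y' = 0
  · rw [h2]; simp
  have s1 : 0 ≤ eX G p N (x' :: x :: h) (hd (y :: h')) y' :=
    PairA_eX_nonneg (hL.supp y h' y' h2)
  have s2 : 0 ≤ eX G p N (y' :: y :: h') (hd (x :: h)) x' :=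
    PairA_eX_nonneg (hL.supp x h x' h1)
  have t1 := php_nonneg (G := G) (p := p) (N := N) (y' :: y :: h') x'
  have t2 := php_nonneg (G := G) (p := p) (N := N) (x' :: x :: h) y'
  exact mul_nonneg (mul_nonneg (hL.nonneg _ _) (hL.nonneg _ _))
    (add_nonneg (add_nonneg (mul_nonneg s1 t1) (mul_nonneg s2 t2)) (mul_nonneg s1 s2))

theorem lossN_nonneg (hL : IsLaw G p) (x y : V) (h h' : List V) :
    0 ≤ lossN G p N (x :: h) (y :: h') := by
  unfold lossN
  refine Finset.sum_nonneg fun x' _ => Finset.sum_nonneg fun y' _ => ?_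
  by_cases h1 : p (x :: h) x' = 0
  · rw [h1]; simp
  by_cases h2 : p (y :: h') y' = 0
  · rw [h2]; simp
  have s1 : 0 ≤ eX G p N (x' :: x :: h) (hd (y :: h')) y' :=
    PairA_eX_nonneg (hL.supp y h' y' h2)
  have s2 : 0 ≤ eX G p N (y' :: y :: h') (hd (x :: h)) x' :=
    PairA_eX_nonneg (hL.supp x h x' h1)
  have t1 := phm_nonneg (G := G) (p := p) (N := N) (y' :: y :: h') x'
  have t2 := phm_nonneg (G := G) (p := p) (N := N) (x' :: x :: h) y'
  exact mul_nonneg (mul_nonneg (hL.nonneg _ _) (hL.nonneg _ _))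
    (add_nonneg (mul_nonneg s1 t1) (mul_nonneg s2 t2))

theorem Loss_nonneg (hL : IsLaw G p) {x y : V} {h h' : List V} (hh : (x :: h).length < N)
    (hh' : (y :: h').length < N) : 0 ≤ Loss G p N (x :: h) (y :: h') := by
  unfold Loss
  exact add_nonneg (add_nonneg (lossP_nonneg hL x y h h')
    (mul_nonneg (phm_nonneg _ _) (cc_nonneg hL hh')))
    (mul_nonneg (phm_nonneg _ _) (cc_nonneg hL hh))

/-- (4.1') -/
theorem Phi_sub_le (hL : IsLaw G p) {x y : V} {h h' : List V} (hh : (x :: h).length < N)
    (hh' : (y :: h').length < N) :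
    Phi G p N (x :: h) (y :: h') - FF p 1 (Phi G p N) (x :: h) (y :: h') ≤
      Loss G p N (x :: h) (y :: h') := by
  rw [FF_one_Phi hL hh hh']
  have hN := lossN_nonneg (N := N) hL x y h h'
  have c1 := cc_nonneg hL hh
  have c2 := cc_nonneg hL hh'
  have b1 := phi_eq (G := G) (p := p) (N := N) (x :: h) (hd (y :: h'))
  have b2 := phi_eq (G := G) (p := p) (N := N) (y :: h') (hd (x :: h))
  have p1 := php_nonneg (G := G) (p := p) (N := N) (x :: h) (hd (y :: h'))
  have p2 := php_nonneg (G := G) (p := p) (N := N) (y :: h') (hd (x :: h))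
  unfold Loss Phi
  have m1 := mul_nonneg p1 c2
  have m2 := mul_nonneg p2 c1
  have m3 := mul_nonneg c1 c2
  have e1 : phi G p N (x :: h) (hd (y :: h')) * cc G p N (y :: h') =
      php G p N (x :: h) (hd (y :: h')) * cc G p N (y :: h') -
        phm G p N (x :: h) (hd (y :: h')) * cc G p N (y :: h') := by
    rw [b1]; ring
  have e2 : phi G p N (y :: h') (hd (x :: h)) * cc G p N (x :: h) =
      php G p N (y :: h') (hd (x :: h)) * cc G p N (x :: h) -
        phm G p N (y :: h') (hd (x :: h)) * cc G p N (x :: h) := by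
    rw [b2]; ring
  nlinarith [hN, m1, m2, m3, e1, e2]

end Pool.Agent.H86.MT
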