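import Pool.Agent.H86.MT.PairA
import Pool.Agent.H86.MT.InvC
import Pool.Agent.H86.MT.ClB

/-!
MT-PAIR. The pair identity and the total loss (section 4 of h86_transitive.md).
`s, r` are two independent histories; `hd` is the current position.

* `lossN_le`: on the support `hd h' ∈ N[y']`, so `eX s (hd h') y' ≤ ff s y'` with
  `ff s y = star (star (U s)) y - U s y`.
* `nrm_ff`: `star (U s) ≤ star (php s) + v s`, so `ff s y ≤ star (star (php s)) y + phm s y`; `nrm_star` twice.
* `EE_lossN`: `lossN_le`, `EE l l' (FF 1 f) = EE (l+1) (l'+1) f` (`EE_succ`), and `pairing` twice.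
-/

set_option autoImplicit false
set_option linter.unusedSectionVars false

open N6ef48c04

namespace Pool.Agent.H86.MT

variable {V : Type} [Fintype V] [Nonempty V] {G : SimpleGraph V} {p : List V → V → ℝ} {N : ℕ}

theorem EE_succ (l l' : ℕ) (f : List V → List V → ℝ) :
    EE p (l + 1) (l' + 1) f = EE p l l' (FF p 1 f) := by
  unfold EE
  rw [E_comp l 1]
  congr 1
  funext s
  have h1 : (fun s' => E p (l' + 1) (fun r => f s' r)) =
      fun s' => F p l' (fun r => F p 1 (fun r' => f s' r') r) [] :=
    funext fun s' => E_comp l' 1 _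
  rw [h1]
  exact F_swap 1 l' (fun s' r => F p 1 (fun r' => f s' r') r) s []

theorem ff_nonneg (s : List V) (y : V) : 0 ≤ ff G p N s y := by
  unfold ff
  have h1 := le_star_self G (U G p N s) y
  have h2 := le_star_self G (star G (U G p N s)) y
  linarith

theorem eX_le_ff (s : List V) {y y' : V} (h : Step G y y') :
    eX G p N s y y' ≤ ff G p N s y' := by
  unfold eX ff
  have h1 : y ∈ nb G y' := (mem_nb_comm G).1 ((mem_nb G).2 h)
  have h2 := le_star G (star G (U G p N s)) h1
  linarith

theorem lossN_le (hL : IsLaw G p) (x y : V) (h h' : List V) :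
    lossN G p N (x :: h) (y :: h') ≤
      FF p 1 (fun s r => ff G p N s (hd r) * phm G p N r (hd s) +
        ff G p N r (hd s) * phm G p N s (hd r)) (x :: h) (y :: h') := by
  rw [FF_one]
  unfold lossN
  refine Finset.sum_le_sum fun x' _ => Finset.sum_le_sum fun y' _ => ?_
  by_cases hx : p (x :: h) x' = 0
  · rw [hx]; simp
  by_cases hy : p (y :: h') y' = 0
  · rw [hy]; simp
  refine mul_le_mul_of_nonneg_left ?_ (mul_nonneg (hL.nonneg _ _) (hL.nonneg _ _))
  have sx : Step G x x' := hL.supp x h x' hx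
  have sy : Step G y y' := hL.supp y h' y' hy
  have e1 : eX G p N (x' :: x :: h) y y' ≤ ff G p N (x' :: x :: h) y' := eX_le_ff _ sy
  have e2 : eX G p N (y' :: y :: h') x x' ≤ ff G p N (y' :: y :: h') x' := eX_le_ff _ sx
  exact add_le_add (mul_le_mul_of_nonneg_right e1 (phm_nonneg _ _))
    (mul_le_mul_of_nonneg_right e2 (phm_nonneg _ _))

theorem ff_le (s : List V) (y : V) :
    ff G p N s y ≤ star G (star G (php G p N s)) y + phm G p N s y := by
  unfold ff
  have h1 : ∀ z, U G p N s z ≤ php G p N s z + v G p N s := by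
    intro z
    have : phi G p N s z ≤ php G p N s z := le_max_left _ _
    unfold phi at this
    linarith
  have h2 : ∀ z, star G (U G p N s) z ≤ star G (php G p N s) z + v G p N s := by
    intro z
    refine star_le G _ fun w hw => ?_
    have := le_star G (php G p N s) hw
    have := h1 w
    linarith
  have h3 : star G (star G (U G p N s)) y ≤ star G (star G (php G p N s)) y + v G p N s := by
    refine star_le G _ fun w hw => ?_
    have := le_star G (star G (php G p N s)) hw
    have := h2 w
    linarith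
  have h4 : -phi G p N s y ≤ phm G p N s y := le_max_left _ _
  unfold phi at h4
  linarith

theorem nrm_ff (hL : IsLaw G p) {Δ : ℕ} {α P q : ℝ} (hpar : Par Δ α P q)
    (hΔ : ∀ y, (nb G y).card ≤ Δ + 1) (s : List V) :
    nrm q (ff G p N s) ≤ ((Δ : ℝ) + 1) ^ 2 * nrm q (php G p N s) + nrm P (phm G p N s) := by
  have hq0 : 0 < q := lt_of_lt_of_le one_pos hpar.hq
  have hqP : q ≤ P := hpar.hq2.trans hpar.hP
  have hs : ∀ z, 0 ≤ star G (php G p N s) z := fun z =>
    (php_nonneg s z).trans (le_star_self G _ z)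
  calc nrm q (ff G p N s)
      ≤ nrm q (fun y => star G (star G (php G p N s)) y + phm G p N s y) := by
        refine nrm_mono hq0 fun y => ?_
        rw [abs_of_nonneg (ff_nonneg s y)]
        exact ff_le s y
    _ ≤ nrm q (star G (star G (php G p N s))) + nrm q (phm G p N s) := nrm_add hpar.hq _ _
    _ ≤ ((Δ : ℝ) + 1) * (((Δ : ℝ) + 1) * nrm q (php G p N s)) + nrm P (phm G p N s) := by
        refine add_le_add ?_ (nrm_le_nrm hpar.hq hqP _)
        refine (nrm_star hpar.hq hΔ hs).trans ?_
        exact mul_le_mul_of_nonneg_left (nrm_star hpar.hq hΔ (php_nonneg s)) (by positivity)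
    _ = _ := by ring

theorem ff_inv (hI : IsInv G p) : Inv2 G (ff G p N) := by
  intro g h y
  unfold ff
  have hU : ∀ w, U G p N (h.map g) (g w) = U G p N h w := fun w => U_inv hI g h w
  rw [hU, star_map]
  congr 2
  funext z
  rw [star_map]
  congr 1
  funext w
  exact hU w

theorem E_nrm_ff (hL : IsLaw G p) {Δ : ℕ} {α P q : ℝ} (hpar : Par Δ α P q)
    (hΔ : ∀ y, (nb G y).card ≤ Δ + 1) (l : ℕ) :
    E p l (fun s => nrm q (ff G p N s)) ≤
      ((Δ : ℝ) + 1) ^ 2 * E p l (fun s => nrm q (php G p N s)) +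
        E p l (fun s => nrm P (phm G p N s)) := by
  unfold E
  rw [← F_mul, ← F_add]
  exact F_mono hL.nonneg fun s => nrm_ff hL hpar hΔ s

theorem EE_lossN (hL : IsLaw G p) (hI : IsInv G p) (hT : VT G) {Δ : ℕ} {α P q : ℝ}
    (hpar : Par Δ α P q) (hΔ : ∀ y, (nb G y).card ≤ Δ + 1) {l l' : ℕ} (hl : 1 ≤ l) (hl' : 1 ≤ l') :
    EE p l l' (lossN G p N) ≤
      (((Δ : ℝ) + 1) ^ 2 * E p (l + 1) (fun s => nrm q (php G p N s)) +
          E p (l + 1) (fun s => nrm P (phm G p N s))) * E p (l' + 1) (fun r => nrm P (phm G p N r)) +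
      (((Δ : ℝ) + 1) ^ 2 * E p (l' + 1) (fun s => nrm q (php G p N s)) +
          E p (l' + 1) (fun s => nrm P (phm G p N s))) * E p (l + 1) (fun r => nrm P (phm G p N r)) := by
  have hP1 : 1 < P := lt_of_lt_of_le one_lt_two hpar.hP
  -- step 1: pass to the next pair of histories
  have step1 : EE p l l' (lossN G p N) ≤ EE p (l + 1) (l' + 1) (fun s r =>
      ff G p N s (hd r) * phm G p N r (hd s) + ff G p N r (hd s) * phm G p N s (hd r)) := by
    rw [EE_succ]
    unfold EE E
    refine F_mono_of hL.nonneg fun s hs => F_mono_of hL.nonneg fun r hr => ?_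
    simp only [List.length_nil, Nat.zero_add] at hs hr
    cases s with
    | nil => simp at hs; omega
    | cons x s =>
      cases r with
      | nil => simp at hr; omega
      | cons y r => exact lossN_le hL x y s r
  -- step 2: split
  have step2 : EE p (l + 1) (l' + 1) (fun s r =>
      ff G p N s (hd r) * phm G p N r (hd s) + ff G p N r (hd s) * phm G p N s (hd r)) =
      EE p (l + 1) (l' + 1) (fun s r => ff G p N s (hd r) * phm G p N r (hd s)) +
      EE p (l' + 1) (l + 1) (fun s r => ff G p N s (hd r) * phm G p N r (hd s)) := by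
    unfold EE E
    have h1 : ∀ s, F p (l' + 1) (fun r =>
        ff G p N s (hd r) * phm G p N r (hd s) + ff G p N r (hd s) * phm G p N s (hd r)) [] =
        F p (l' + 1) (fun r => ff G p N s (hd r) * phm G p N r (hd s)) [] +
        F p (l' + 1) (fun r => ff G p N r (hd s) * phm G p N s (hd r)) [] :=
      fun s => F_add _ _ _ _
    simp only [h1]
    rw [F_add]
    congr 1
    exact F_swap (l + 1) (l' + 1) (fun s r => ff G p N r (hd s) * phm G p N s (hd r)) [] []
  rw [step2] at step1
  have nP : ∀ m, 0 ≤ E p m (fun r => nrm P (phm G p N r)) := fun m =>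
    F_nonneg hL.nonneg fun s _ => nrm_nonneg P _
  have b1 := pairing hL hI hT hP1 hpar.hpq (f := ff G p N) (g := phm G p N) (ff_inv hI)
    (phm_inv hI) ff_nonneg phm_nonneg (l := l + 1) (l' := l' + 1) (by omega) (by omega)
  have b2 := pairing hL hI hT hP1 hpar.hpq (f := ff G p N) (g := phm G p N) (ff_inv hI)
    (phm_inv hI) ff_nonneg phm_nonneg (l := l' + 1) (l' := l + 1) (by omega) (by omega)
  refine step1.trans (add_le_add (b1.trans ?_) (b2.trans ?_))
  · exact mul_le_mul_of_nonneg_right (E_nrm_ff hL hpar hΔ (l + 1)) (nP _)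
  · exact mul_le_mul_of_nonneg_right (E_nrm_ff hL hpar hΔ (l' + 1)) (nP _)

end Pool.Agent.H86.MT
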