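import Pool.Agent.H86.MT.PrA
import Pool.Agent.H86.MT.ClB

/-!
MT-PRED. Coincidences are predictable (section 6 of h86_transitive.md).

* `EE_coinc`: for an invariant weight `A`, `EE u u' (1[hd s = hd r] A s) = E u A / n` (`E_at`).
* `unpred`: `EE u u' 1[hd s = hd r, hd (s.drop i) = hd (r.drop i), hd s ∉ S i (hd (s.drop i))]
  = ∑_x ∑_{z ∉ S i x} joint u i x z * joint u' i x z`; sum over `u, u'`:
  `∑_x ∑_{z ∉ S} ((b - a) / n * qb i x z)^2 ≤ ((b-a)/n)^2 * exp (-c0 i) * ∑_x ∑_z qb i x z ≤ (b-a)^2/n * exp (-c0 i)`.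
-/

set_option autoImplicit false
set_option linter.unusedSectionVars false

open N6ef48c04

namespace Pool.Agent.H86.MT

variable {V : Type} [Fintype V] [Nonempty V] {G : SimpleGraph V} {p : List V → V → ℝ} {N : ℕ}

private theorem hd_map (g : G ≃g G) {s : List V} {l : ℕ} (hl : 1 ≤ l) (hs : s.length = l) :
    hd (s.map g) = g (hd s) := by
  cases s with
  | nil => simp at hs; omega
  | cons x s => rfl

open Classical in
theorem EE_coinc (hL : IsLaw G p) (hI : IsInv G p) (hT : VT G) {A : List V → ℝ} (hA : Inv1 G A)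
    {u u' : ℕ} (hu : 1 ≤ u) (hu' : 1 ≤ u') :
    EE p u u' (fun s r => if hd s = hd r then A s else 0) = E p u A / Fintype.card V := by
  have h1 : ∀ s : List V, E p u' (fun r => if hd s = hd r then A s else 0) =
      A s * (Fintype.card V : ℝ)⁻¹ := by
    intro s
    have h2 := E_at (G := G) hI hT (A := fun _ => A s) (fun _ _ => rfl) u' hd
      (fun g r hr => hd_map g hu' hr) (hd s)
    have h3 : E p u' (fun _ => A s) = A s := F_const hL.sum_one u' (A s) []
    rw [h3] at h2
    rw [← div_eq_mul_inv, ← h2]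
    congr 1
    funext r
    simp only [eq_comm]
  unfold EE
  simp only [h1]
  rw [div_eq_mul_inv]
  exact F_mul_right _ _ _ _

open Classical in
private theorem ind_eq (c0 : ℝ) (a b i : ℕ) (s r : List V) :
    (if hd s = hd r ∧ hd (s.drop i) = hd (r.drop i) ∧
      hd s ∉ Sset p c0 a b i (hd (s.drop i)) then (1 : ℝ) else 0) =
    ∑ x, ∑ z ∈ Finset.univ.filter (fun z => z ∉ Sset p c0 a b i x),
      (if hd (s.drop i) = x ∧ hd s = z then (1 : ℝ) else 0) *
        (if hd (r.drop i) = x ∧ hd r = z then (1 : ℝ) else 0) := by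
  rw [Finset.sum_eq_single (hd (s.drop i))]
  · by_cases h : hd s ∈ Sset p c0 a b i (hd (s.drop i))
    · rw [if_neg (fun h' => h'.2.2 h)]
      refine (Finset.sum_eq_zero fun z hz => ?_).symm
      rw [Finset.mem_filter] at hz
      rw [if_neg (fun h' : _ ∧ hd s = z => hz.2 (h'.2 ▸ h)), zero_mul]
    · rw [Finset.sum_eq_single (hd s)]
      · rw [if_pos (⟨rfl, rfl⟩ : hd (s.drop i) = hd (s.drop i) ∧ hd s = hd s), one_mul]
        by_cases h2 : hd s = hd r ∧ hd (s.drop i) = hd (r.drop i)
        · rw [if_pos ⟨h2.1, h2.2, h⟩, if_pos ⟨h2.2.symm, h2.1.symm⟩]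
        · rw [if_neg (fun h' => h2 ⟨h'.1, h'.2.1⟩), if_neg (fun h' => h2 ⟨h'.2.symm, h'.1.symm⟩)]
      · intro z _ hz
        rw [if_neg (fun h' : _ ∧ hd s = z => hz h'.2.symm), zero_mul]
      · intro h'
        exfalso
        apply h'
        rw [Finset.mem_filter]
        exact ⟨Finset.mem_univ _, h⟩
  · intro x _ hx
    refine Finset.sum_eq_zero fun z _ => ?_
    rw [if_neg (fun h' : hd (s.drop i) = x ∧ _ => hx h'.1.symm), zero_mul]
  · intro h
    exact absurd (Finset.mem_univ _) h

open Classical in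
private theorem EE_ind (c0 : ℝ) (a b i u u' : ℕ) :
    EE p u u' (fun s r => if hd s = hd r ∧ hd (s.drop i) = hd (r.drop i) ∧
          hd s ∉ Sset p c0 a b i (hd (s.drop i)) then 1 else 0) =
      ∑ x, ∑ z ∈ Finset.univ.filter (fun z => z ∉ Sset p c0 a b i x),
        joint p u i x z * joint p u' i x z := by
  unfold EE
  simp only [ind_eq]
  have h1 : ∀ s : List V, E p u' (fun r => ∑ x,
      ∑ z ∈ Finset.univ.filter (fun z => z ∉ Sset p c0 a b i x),
      (if hd (s.drop i) = x ∧ hd s = z then (1 : ℝ) else 0) *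
        (if hd (r.drop i) = x ∧ hd r = z then (1 : ℝ) else 0)) =
      ∑ x, ∑ z ∈ Finset.univ.filter (fun z => z ∉ Sset p c0 a b i x),
        (if hd (s.drop i) = x ∧ hd s = z then (1 : ℝ) else 0) * joint p u' i x z := by
    intro s
    unfold E
    rw [F_sum]
    refine Finset.sum_congr rfl fun x _ => ?_
    rw [F_sum]
    refine Finset.sum_congr rfl fun z _ => ?_
    exact F_mul _ _ _ _
  simp only [h1]
  unfold E
  rw [F_sum]
  refine Finset.sum_congr rfl fun x _ => ?_
  rw [F_sum]
  refine Finset.sum_congr rfl fun z _ => ?_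
  exact F_mul_right _ _ _ _

open Classical in
theorem unpred (hL : IsLaw G p) (hI : IsInv G p) (hT : VT G) {a b : ℕ} (ha : 1 ≤ a) (hab : a < b)
    (c0 : ℝ) (i : ℕ) :
    ∑ u ∈ Finset.Ico (a + i) b, ∑ u' ∈ Finset.Ico (a + i) b,
        EE p u u' (fun s r => if hd s = hd r ∧ hd (s.drop i) = hd (r.drop i) ∧
          hd s ∉ Sset p c0 a b i (hd (s.drop i)) then 1 else 0) ≤
      ((b : ℝ) - a) ^ 2 / Fintype.card V * Real.exp (-(c0 * i)) := by
  have hn : (0 : ℝ) < Fintype.card V := Nat.cast_pos.2 Fintype.card_pos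
  have hba : (0 : ℝ) < (b : ℝ) - a := by
    have : (a : ℝ) < b := by exact_mod_cast hab
    linarith
  have hS : ∀ x z, ∑ u ∈ Finset.Ico (a + i) b, joint p u i x z =
      ((b : ℝ) - a) / Fintype.card V * qb p a b i x z := by
    intro x z
    unfold qb
    field_simp
  have e1 : ∑ u ∈ Finset.Ico (a + i) b, ∑ u' ∈ Finset.Ico (a + i) b,
        EE p u u' (fun s r => if hd s = hd r ∧ hd (s.drop i) = hd (r.drop i) ∧
          hd s ∉ Sset p c0 a b i (hd (s.drop i)) then 1 else 0) =
      ∑ x, ∑ z ∈ Finset.univ.filter (fun z => z ∉ Sset p c0 a b i x),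
        (((b : ℝ) - a) / Fintype.card V * qb p a b i x z) ^ 2 := by
    simp only [EE_ind]
    have h1 : ∀ u, ∑ u' ∈ Finset.Ico (a + i) b, ∑ x,
        ∑ z ∈ Finset.univ.filter (fun z => z ∉ Sset p c0 a b i x),
          joint p u i x z * joint p u' i x z =
        ∑ x, ∑ z ∈ Finset.univ.filter (fun z => z ∉ Sset p c0 a b i x),
          joint p u i x z * (((b : ℝ) - a) / Fintype.card V * qb p a b i x z) := by
      intro u
      rw [Finset.sum_comm]
      refine Finset.sum_congr rfl fun x _ => ?_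
      rw [Finset.sum_comm]
      refine Finset.sum_congr rfl fun z _ => ?_
      rw [← Finset.mul_sum, hS]
    simp only [h1]
    rw [Finset.sum_comm]
    refine Finset.sum_congr rfl fun x _ => ?_
    rw [Finset.sum_comm]
    refine Finset.sum_congr rfl fun z _ => ?_
    rw [← Finset.sum_mul, hS]
    ring
  rw [e1]
  have e2 : ∀ x, ∑ z ∈ Finset.univ.filter (fun z => z ∉ Sset p c0 a b i x),
        (((b : ℝ) - a) / Fintype.card V * qb p a b i x z) ^ 2 ≤
      (((b : ℝ) - a) / Fintype.card V) ^ 2 * Real.exp (-(c0 * i)) := by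
    intro x
    calc ∑ z ∈ Finset.univ.filter (fun z => z ∉ Sset p c0 a b i x),
          (((b : ℝ) - a) / Fintype.card V * qb p a b i x z) ^ 2
        ≤ ∑ z ∈ Finset.univ.filter (fun z => z ∉ Sset p c0 a b i x),
          (((b : ℝ) - a) / Fintype.card V) ^ 2 * Real.exp (-(c0 * i)) * qb p a b i x z := by
          refine Finset.sum_le_sum fun z hz => ?_
          have hz' : z ∉ Sset p c0 a b i x := (Finset.mem_filter.1 hz).2
          have h3 : qb p a b i x z ≤ Real.exp (-(c0 * i)) := by
            by_contra hcon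
            exact hz' (Finset.mem_filter.2 ⟨Finset.mem_univ _, (not_le.1 hcon).le⟩)
          have h4 := qb_nonneg hL hab i x z
          rw [mul_pow, mul_assoc]
          refine mul_le_mul_of_nonneg_left ?_ (by positivity)
          rw [pow_two]
          exact mul_le_mul_of_nonneg_right h3 h4
      _ ≤ ∑ z, (((b : ℝ) - a) / Fintype.card V) ^ 2 * Real.exp (-(c0 * i)) * qb p a b i x z := by
          refine Finset.sum_le_sum_of_subset_of_nonneg (Finset.filter_subset _ _) fun z _ _ => ?_
          have := qb_nonneg hL hab i x z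
          positivity
      _ = (((b : ℝ) - a) / Fintype.card V) ^ 2 * Real.exp (-(c0 * i)) * ∑ z, qb p a b i x z := by
          rw [Finset.mul_sum]
      _ ≤ (((b : ℝ) - a) / Fintype.card V) ^ 2 * Real.exp (-(c0 * i)) * 1 :=
          mul_le_mul_of_nonneg_left (sum_qb hL hI hT ha hab i x) (by positivity)
      _ = _ := mul_one _
  refine (Finset.sum_le_sum fun x _ => e2 x).trans ?_
  rw [Finset.sum_const, Finset.card_univ, nsmul_eq_mul]
  refine le_of_eq ?_
  field_simp

open Classical in
theorem markov_v (hL : IsLaw G p) {ε : ℝ} (hε : v G p N [] ≤ ε) {u : ℕ} (hu : u ≤ N) :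
    E p u (fun s => if v G p N s ≤ 1 / 8 then 0 else 1) ≤ 8 * ε := by
  calc E p u (fun s => if v G p N s ≤ 1 / 8 then 0 else 1)
      ≤ E p u (fun s => 8 * v G p N s) := by
        refine F_mono hL.nonneg fun s => ?_
        have := v_nonneg (N := N) hL s
        split_ifs with h
        · positivity
        · push Not at h
          linarith
    _ = 8 * E p u (v G p N) := F_mul _ _ _ _
    _ ≤ 8 * ε := by
        have := (E_v_le hL hu).trans hε
        linarith

end Pool.Agent.H86.MT
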