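import Pool.Agent.H86.MT.RedDefs

/-!
MT-RED. From laws to the game.

`hist t x = [x (t-1), ..., x 0]`. For a finite nonempty set `S` of walks, `cnt S h` is the number of
pairs `(x, g)`, `x ∈ S`, `g ∈ Aut G`, such that the walk `g ∘ x` starts with `h`; `lawOf` is the
corresponding invariant law.

* `lawOf_isLaw`: `cnt (S, h) = ∑_x cnt (S, x :: h)`; walks step along `Step` (automorphisms preserve `Step`).
* `lawOf_inv`: `(x, g') ↦ (x, g' * g)` (composition) is a bijection between the pairs counted by `h` and by `h.map g`.
-/

set_option autoImplicit false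
set_option linter.unusedSectionVars false

open N6ef48c04 Pool.Agent.H94.Mey

namespace Pool.Agent.H86.MT

variable {V : Type} [Fintype V] [Nonempty V] {G : SimpleGraph V} {p : List V → V → ℝ} {N : ℕ}

namespace ReAaux

instance finite_aut : Finite (G ≃g G) :=
  Finite.of_injective (fun g : G ≃g G => (g : V → V)) DFunLike.coe_injective

theorem hist_map (f : V → V) (k : ℕ) (w : ℕ → V) :
    hist k (fun t => f (w t)) = (hist k w).map f := by
  induction k with
  | zero => rfl
  | succ k ih => simp only [hist, List.map_cons, ih]

theorem length_hist (k : ℕ) (w : ℕ → V) : (hist k w).length = k := by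
  induction k with
  | zero => rfl
  | succ k ih => simp only [hist, List.length_cons, ih]

theorem step_aut (g : G ≃g G) {x y : V} (h : Step G x y) : Step G (g x) (g y) := by
  rcases h with h | h
  · exact Or.inl (by rw [h])
  · exact Or.inr (g.map_rel_iff.2 h)

end ReAaux

open ReAaux

theorem cnt_nil (S : Finset (ℕ → V)) : cnt G S [] = S.card * Nat.card (G ≃g G) := by
  unfold cnt
  have h1 : Nat.card {xg : S × (G ≃g G) //
      hist ([] : List V).length (fun t => xg.2 (xg.1.1 t)) = []} = Nat.card (S × (G ≃g G)) :=
    Nat.card_congr (Equiv.subtypeUnivEquiv fun xg => rfl)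
  rw [h1, Nat.card_prod]
  simp

theorem cnt_succ (S : Finset (ℕ → V)) (h : List V) : cnt G S h = ∑ x, cnt G S (x :: h) := by
  unfold cnt
  rw [← Nat.card_sigma]
  refine Nat.card_congr ?_
  refine
    { toFun := fun a => ⟨a.1.2 (a.1.1.1 h.length), ⟨a.1, ?_⟩⟩
      invFun := fun b => ⟨b.2.1, ?_⟩
      left_inv := ?_
      right_inv := ?_ }
  · simp only [List.length_cons, hist]
    rw [a.2]
  · have h1 := b.2.2
    simp only [List.length_cons, hist] at h1
    exact (List.cons.inj h1).2
  · intro a
    rfl
  · rintro ⟨x, ⟨xg, hxg⟩⟩
    have h1 := hxg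
    simp only [List.length_cons, hist] at h1
    have h2 := (List.cons.inj h1).1
    subst h2
    rfl

theorem cnt_map (S : Finset (ℕ → V)) (g : G ≃g G) (h : List V) : cnt G S (h.map g) = cnt G S h := by
  unfold cnt
  have key : ∀ (g' : G ≃g G) (x : ℕ → V), hist (h.map g).length (fun t => g' (x t)) = h.map g ↔
      hist h.length (fun t => (g'.trans g.symm) (x t)) = h := by
    intro g' x
    rw [List.length_map]
    have h1 : hist h.length (fun t => (g'.trans g.symm) (x t)) =
        (hist h.length (fun t => g' (x t))).map g.symm := by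
      rw [← hist_map]
      rfl
    rw [h1]
    constructor
    · intro h2
      rw [h2, List.map_map]
      have : (g.symm : V → V) ∘ (g : V → V) = id := by
        funext z
        simp
      rw [this, List.map_id]
    · intro h2
      rw [← h2, List.length_map, length_hist, List.map_map]
      have : (g : V → V) ∘ (g.symm : V → V) = id := by
        funext z
        simp
      rw [this, List.map_id]
  refine Nat.card_congr ?_
  refine
    { toFun := fun a => ⟨(a.1.1, a.1.2.trans g.symm), (key _ _).1 a.2⟩
      invFun := fun b => ⟨(b.1.1, b.1.2.trans g), ?_⟩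
      left_inv := ?_
      right_inv := ?_ }
  · rw [key]
    have : (b.1.2.trans g).trans g.symm = b.1.2 := by
      ext z
      simp
    simp only [this]
    exact b.2
  · rintro ⟨⟨x, g'⟩, hx⟩
    apply Subtype.ext
    refine Prod.ext rfl ?_
    ext z
    simp
  · rintro ⟨⟨x, g'⟩, hx⟩
    apply Subtype.ext
    refine Prod.ext rfl ?_
    ext z
    simp

theorem lawOf_isLaw {S : Finset (ℕ → V)} (hS : S.Nonempty) (hw : ∀ x ∈ S, IsWalk G x) :
    IsLaw G (lawOf G S) := by
  classical
  have hnil : cnt G S [] ≠ 0 := by
    rw [cnt_nil]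
    have h1 : S.card ≠ 0 := Finset.card_ne_zero.2 hS
    have h2 : Nat.card (G ≃g G) ≠ 0 := by
      have : Nonempty (G ≃g G) := ⟨RelIso.refl _⟩
      exact Nat.card_pos.ne'
    exact Nat.mul_ne_zero h1 h2
  refine ⟨?_, ?_, ?_⟩
  · intro h x
    unfold lawOf
    split_ifs <;> positivity
  · intro h
    by_cases h0 : cnt G S h = 0
    · cases h with
      | nil => exact absurd h0 hnil
      | cons y t =>
        unfold lawOf
        simp only [h0, if_true, List.head?_cons, Option.some.injEq]
        simp
    · unfold lawOf
      simp only [h0, if_false]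
      rw [← Finset.sum_div]
      have h1 := cnt_succ (G := G) S h
      have h2 : ((cnt G S h : ℕ) : ℝ) = ∑ x, (cnt G S (x :: h) : ℝ) := by
        rw [h1]
        push_cast
        rfl
      rw [← h2]
      have h3 : ((cnt G S h : ℕ) : ℝ) ≠ 0 := Nat.cast_ne_zero.2 h0
      exact div_self h3
  · intro x h x' hne
    unfold lawOf at hne
    by_cases h0 : cnt G S (x :: h) = 0
    · simp only [h0, if_true, List.head?_cons, Option.some.injEq] at hne
      by_cases h1 : x = x'
      · exact Or.inl h1
      · simp [h1] at hne
    · simp only [h0, if_false] at hne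
      have h1 : cnt G S (x' :: x :: h) ≠ 0 := by
        intro h2
        rw [h2] at hne
        simp at hne
      have h2 : Nonempty {xg : S × (G ≃g G) //
          hist (x' :: x :: h).length (fun t => xg.2 (xg.1.1 t)) = x' :: x :: h} := by
        by_contra h3
        rw [not_nonempty_iff] at h3
        exact h1 (Nat.card_eq_zero.2 (Or.inl h3))
      obtain ⟨⟨⟨w, g⟩, hwg⟩⟩ := h2
      simp only [List.length_cons, hist] at hwg
      have h3 := (List.cons.inj hwg).1
      have h4 := (List.cons.inj (List.cons.inj hwg).2).1
      rw [← h3, ← h4]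
      exact step_aut g (hw w.1 w.2 h.length)

theorem lawOf_inv (S : Finset (ℕ → V)) : IsInv G (lawOf G S) := by
  classical
  intro g h x
  unfold lawOf
  rw [cnt_map, show g x :: h.map g = (x :: h).map g from rfl, cnt_map]
  congr 1
  cases h with
  | nil => simp
  | cons y t =>
    simp only [List.map_cons, List.head?_cons, Option.some.injEq, EmbeddingLike.apply_eq_iff_eq]

end Pool.Agent.H86.MT
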