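import Pool.Agent.H86.MT.ReA

/-!
MT-RED. From laws to the game.

`hist t x = [x (t-1), ..., x 0]`. For a finite nonempty set `S` of walks, `cnt S h` is the number of
pairs `(x, g)`, `x ∈ S`, `g ∈ Aut G`, such that the walk `g ∘ x` starts with `h`; `lawOf` is the
corresponding invariant law.

* `realize`: let `σ k h y ∈ N[y]` attain `star (val k h) y`; the strategy: start at `y`; after seeing `x t` move to
  `σ (T - (t+1)) (hist (t+1) x) (current position)`. By induction on `k`: for every `h` with `h.length + k = T`
  and `y`: the number of pairs `(x, g)` with `hist h.length (g ∘ x) = h` such that the strategy, continued from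
  position `y`, is at the position of the robber at the end is `val k h y * cnt h` (`val 0 h y = 1[y = head h]`, `T ≥ 1`).
-/

set_option autoImplicit false
set_option linter.unusedSectionVars false

open N6ef48c04 Pool.Agent.H94.Mey

namespace Pool.Agent.H86.MT

variable {V : Type} [Fintype V] [Nonempty V] {G : SimpleGraph V} {p : List V → V → ℝ} {N : ℕ}

theorem natcard_fiber {A B : Type*} [Finite A] [Fintype B] (P : A → Prop) (f : A → B) :
    Nat.card {a // P a} = ∑ b, Nat.card {a // P a ∧ f a = b} := by
  classical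
  rw [← Nat.card_sigma]
  refine Nat.card_congr ⟨fun a => ⟨f a.1, a.1, a.2, rfl⟩, fun s => ⟨s.2.1, s.2.2.1⟩, fun a => rfl, ?_⟩
  rintro ⟨b, a, h1, h2⟩
  subst h2
  rfl

/-- position at the end when the position at time `t` is `y` and `k` moves follow -/
noncomputable def run (σ : ℕ → List V → V → V) : ℕ → ℕ → V → (ℕ → V) → V
  | _, 0, y, _ => y
  | t, k + 1, y, x => run σ (t + 1) k (σ k (hist (t + 1) x) y) x

/-- position at time `t` -/
noncomputable def pos (σ : ℕ → List V → V → V) (T : ℕ) (y : V) : ℕ → (ℕ → V) → V
  | 0, _ => y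
  | t + 1, x => σ (T - (t + 1)) (hist (t + 1) x) (pos σ T y t x)

theorem run_pos (σ : ℕ → List V → V → V) (T : ℕ) (y : V) (x : ℕ → V) (k t : ℕ)
    (h : t + k = T) : run σ t k (pos σ T y t x) x = pos σ T y T x := by
  induction k generalizing t with
  | zero =>
    have : t = T := by omega
    subst this
    rfl
  | succ k ih =>
    have h1 := ih (t + 1) (by omega)
    rw [← h1]
    have h2 : T - (t + 1) = k := by omega
    simp only [run, pos, h2]

theorem hist_congr (t : ℕ) {x x' : ℕ → V} (h : ∀ i, i < t → x i = x' i) : hist t x = hist t x' := by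
  induction t with
  | zero => rfl
  | succ t ih =>
    simp only [hist]
    rw [h t (by omega), ih fun i hi => h i (by omega)]

theorem hist_length (t : ℕ) (x : ℕ → V) : (hist t x).length = t := by
  induction t with
  | zero => rfl
  | succ t ih => simp [hist, ih]

theorem pos_isStrat {σ : ℕ → List V → V → V} (hσ : ∀ k h y, σ k h y ∈ nb G y) (T : ℕ) (y : V) :
    IsStrat G (pos σ T y) := by
  refine ⟨fun t x => ?_, fun t x x' h => ?_⟩
  · exact (mem_nb G).1 (hσ _ _ _)
  · induction t with
    | zero => rfl
    | succ t ih =>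
      simp only [pos]
      rw [hist_congr (t + 1) h, ih fun i hi => h i (by omega)]

theorem count_run {S : Finset (ℕ → V)} {σ : ℕ → List V → V → V}
    (hσ : ∀ k h y, star G (val G (lawOf G S) k h) y = val G (lawOf G S) k h (σ k h y)) {T : ℕ}
    (hT : 1 ≤ T) (k : ℕ) (h : List V) (hk : h.length + k = T) (y : V) :
    (Nat.card {xg : S × (G ≃g G) // hist h.length (fun t => xg.2 (xg.1.1 t)) = h ∧
      run σ h.length k y (fun t => xg.2 (xg.1.1 t)) = xg.2 (xg.1.1 (T - 1))} : ℝ) =
      val G (lawOf G S) k h y * cnt G S h := by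
  classical
  induction k generalizing h y with
  | zero =>
    have hl : h.length = T := by omega
    obtain ⟨T', rfl⟩ : ∃ T', T = T' + 1 := ⟨T - 1, by omega⟩
    obtain ⟨a, h', rfl⟩ : ∃ a h', h = a :: h' := by
      cases h with
      | nil => simp at hl
      | cons a h' => exact ⟨a, h', rfl⟩
    have hl' : h'.length = T' := by simpa using hl
    simp only [val, run, List.head?_cons, Option.some.injEq, Nat.add_sub_cancel]
    by_cases hay : a = y
    · subst hay
      rw [if_pos rfl, one_mul]
      unfold cnt
      congr 1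
      refine Nat.card_congr (Equiv.subtypeEquivRight fun xg => ?_)
      constructor
      · exact fun h1 => h1.1
      · intro h1
        refine ⟨h1, ?_⟩
        have h2 := h1
        rw [List.length_cons, hl'] at h2
        simp only [hist, List.cons.injEq] at h2
        exact h2.1.symm
    · rw [if_neg hay, zero_mul]
      have : IsEmpty {xg : S × (G ≃g G) // hist (a :: h').length (fun t => xg.2 (xg.1.1 t)) = a :: h' ∧
          y = xg.2 (xg.1.1 T')} := by
        refine ⟨fun ⟨xg, h2, h3⟩ => ?_⟩
        rw [List.length_cons, hl'] at h2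
        simp only [hist, List.cons.injEq] at h2
        exact hay (h2.1.symm.trans h3.symm)
      rw [Nat.card_of_isEmpty]
      norm_num
  | succ k ih =>
    haveI : Finite (G ≃g G) := DFunLike.finite _
    rw [natcard_fiber _ (fun xg : S × (G ≃g G) => xg.2 (xg.1.1 h.length))]
    push_cast
    have h1 : ∀ b : V, (Nat.card {xg : S × (G ≃g G) //
        (hist h.length (fun t => xg.2 (xg.1.1 t)) = h ∧
          run σ h.length (k + 1) y (fun t => xg.2 (xg.1.1 t)) = xg.2 (xg.1.1 (T - 1))) ∧
            xg.2 (xg.1.1 h.length) = b} : ℝ) =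
        star G (val G (lawOf G S) k (b :: h)) y * cnt G S (b :: h) := by
      intro b
      rw [hσ, ← ih (b :: h) (by rw [List.length_cons]; omega)]
      congr 1
      refine Nat.card_congr (Equiv.subtypeEquivRight fun xg => ?_)
      rw [List.length_cons]
      simp only [hist, List.cons.injEq, run]
      constructor
      · rintro ⟨⟨h2, h3⟩, h4⟩
        rw [h2, h4] at h3
        exact ⟨⟨h4, h2⟩, h3⟩
      · rintro ⟨⟨h4, h2⟩, h3⟩
        refine ⟨⟨h2, ?_⟩, h4⟩
        rw [h2, h4]
        exact h3
    rw [Finset.sum_congr rfl fun b _ => h1 b]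
    simp only [val]
    by_cases h0 : cnt G S h = 0
    · have h2 := cnt_succ S h (G := G)
      rw [h0] at h2
      have h3 : ∀ b, cnt G S (b :: h) = 0 := by
        intro b
        exact (Finset.sum_eq_zero_iff.1 h2.symm) b (Finset.mem_univ _)
      simp [h0, h3]
    · rw [Finset.sum_mul]
      refine Finset.sum_congr rfl fun b _ => ?_
      unfold lawOf
      rw [if_neg h0]
      have : (cnt G S h : ℝ) ≠ 0 := by exact_mod_cast h0
      field_simp

theorem realize {S : Finset (ℕ → V)} (hS : S.Nonempty) (hw : ∀ x ∈ S, IsWalk G x) {T : ℕ}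
    (hT : 1 ≤ T) (y : V) :
    ∃ st : ℕ → (ℕ → V) → V, IsStrat G st ∧
      val G (lawOf G S) T [] y * (S.card * Nat.card (G ≃g G)) ≤
        Nat.card {xg : S × (G ≃g G) // st T (fun t => xg.2 (xg.1.1 t)) = xg.2 (xg.1.1 (T - 1))} := by
  classical
  have hex : ∀ (k : ℕ) (h : List V) (y : V), ∃ z ∈ nb G y,
      star G (val G (lawOf G S) k h) y = val G (lawOf G S) k h z := fun k h y =>
    exists_star G _ y
  choose σ hσ1 hσ2 using hex
  refine ⟨pos σ T y, pos_isStrat hσ1 T y, ?_⟩
  have h1 := count_run hσ2 hT T [] (by simp) y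
  rw [cnt_nil] at h1
  push_cast at h1
  rw [← h1]
  refine le_of_eq ?_
  congr 1
  refine Nat.card_congr (Equiv.subtypeEquivRight fun xg => ?_)
  have h2 := run_pos σ T y (fun t => xg.2 (xg.1.1 t)) T 0 (by omega)
  rw [← h2]
  simp [hist, pos]

end Pool.Agent.H86.MT
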