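import Pool.Agent.H86.MT.ReB

/-!
MT-RED. From laws to the game.

`hist t x = [x (t-1), ..., x 0]`. For a finite nonempty set `S` of walks, `cnt S h` is the number of
pairs `(x, g)`, `x ∈ S`, `g ∈ Aut G`, such that the walk `g ∘ x` starts with `h`; `lawOf` is the
corresponding invariant law.

* `fraction`: average over `g`: some `g` has at least `ε |S|` walks `x ∈ S` with the strategy caught on `g ∘ x`;
  conjugate the strategy by `g`.
* `copsWin_of_val`: `fraction` and `copsWin_of_fraction'` with `T - 1` in the place of `T`.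
-/

set_option autoImplicit false
set_option linter.unusedSectionVars false

open N6ef48c04 Pool.Agent.H94.Mey

namespace Pool.Agent.H86.MT

variable {V : Type} [Fintype V] [Nonempty V] {G : SimpleGraph V} {p : List V → V → ℝ} {N : ℕ}

theorem ReC_step_symm (g : G ≃g G) {a b : V} (h : Step G a b) : Step G (g.symm a) (g.symm b) := by
  rcases h with h | h
  · left
    rw [h]
  · right
    exact (SimpleGraph.Iso.map_adj_iff g.symm).2 h

theorem fraction {S : Finset (ℕ → V)} (hS : S.Nonempty) (hw : ∀ x ∈ S, IsWalk G x) {T : ℕ}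
    (hT : 1 ≤ T) {ε : ℝ} {y : V} (hy : ε ≤ val G (lawOf G S) T [] y) :
    ∃ (st : ℕ → (ℕ → V) → V) (W : Finset (ℕ → V)), IsStrat G st ∧ W ⊆ S ∧
      (∀ x ∈ W, Caught st (T - 1) x) ∧ ε * S.card ≤ W.card := by
  classical
  obtain ⟨st, hst, hc⟩ := realize hS hw hT y
  have : Finite (G ≃g G) := Finite.of_injective (fun g : G ≃g G => (g : V → V)) DFunLike.coe_injective
  have : Fintype (G ≃g G) := Fintype.ofFinite _
  have h1 : Nat.card {xg : S × (G ≃g G) // st T (fun t => xg.2 (xg.1.1 t)) = xg.2 (xg.1.1 (T - 1))} =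
      ∑ g : G ≃g G, (S.filter (fun x => st T (fun t => g (x t)) = g (x (T - 1)))).card := by
    rw [Nat.card_eq_fintype_card, Fintype.card_subtype, Finset.card_filter, Fintype.sum_prod_type_right]
    refine Finset.sum_congr rfl fun g _ => ?_
    rw [Finset.card_filter]
    exact Finset.sum_coe_sort S (fun x => if st T (fun t => g (x t)) = g (x (T - 1)) then 1 else 0)
  obtain ⟨g, hg⟩ : ∃ g : G ≃g G, ε * S.card ≤
      ((S.filter (fun x => st T (fun t => g (x t)) = g (x (T - 1)))).card : ℝ) := by
    by_contra hcon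
    push Not at hcon
    have h2 : ∑ g : G ≃g G, ((S.filter (fun x => st T (fun t => g (x t)) = g (x (T - 1)))).card : ℝ) <
        ∑ _g : G ≃g G, ε * S.card :=
      Finset.sum_lt_sum_of_nonempty ⟨SimpleGraph.Iso.refl, Finset.mem_univ _⟩ fun g _ => hcon g
    rw [h1] at hc
    push_cast at hc
    rw [Finset.sum_const, Finset.card_univ, nsmul_eq_mul] at h2
    rw [Nat.card_eq_fintype_card] at hc
    have h3 : ε * ((S.card : ℝ) * (Fintype.card (G ≃g G) : ℝ)) ≤
        val G (lawOf G S) T [] y * ((S.card : ℝ) * (Fintype.card (G ≃g G) : ℝ)) :=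
      mul_le_mul_of_nonneg_right hy (by positivity)
    have h4 : (Fintype.card (G ≃g G) : ℝ) * (ε * S.card) =
        ε * ((S.card : ℝ) * (Fintype.card (G ≃g G) : ℝ)) := by ring
    linarith
  refine ⟨fun t x => g.symm (st t (fun s => g (x s))),
    S.filter (fun x => st T (fun t => g (x t)) = g (x (T - 1))), ?_, Finset.filter_subset _ _, ?_, hg⟩
  · constructor
    · intro t x
      exact ReC_step_symm g (hst.step t _)
    · intro t x x' hx
      rw [hst.nonant t (fun s => g (x s)) (fun s => g (x' s)) fun i hi => by rw [hx i hi]]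
  · intro x hx
    rw [Finset.mem_filter] at hx
    refine ⟨T - 1, le_rfl, ?_⟩
    change g.symm (st (T - 1 + 1) (fun s => g (x s))) = x (T - 1)
    rw [Nat.sub_add_cancel hT, hx.2]
    exact g.symm_apply_apply _

end Pool.Agent.H86.MT
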