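import Pool.Agent.H86.MT.Val
import Pool.Agent.H94.Mey.Red

/-!
MT: definitions for the reduction.
-/

set_option autoImplicit false
set_option linter.unusedSectionVars false

open N6ef48c04

namespace Pool.Agent.H86.MT

variable {V : Type} [Fintype V] [Nonempty V] {G : SimpleGraph V} {p : List V → V → ℝ} {N : ℕ}

/-- the list of the first `t` positions, the latest first -/
def hist : ℕ → (ℕ → V) → List V
  | 0, _ => []
  | t + 1, x => x t :: hist t x

variable (G) in
/-- number of pairs `(x, g)` such that `g ∘ x` starts with `h` -/
noncomputable def cnt (S : Finset (ℕ → V)) (h : List V) : ℕ :=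
  Nat.card {xg : S × (G ≃g G) // hist h.length (fun t => xg.2 (xg.1.1 t)) = h}

variable (G) in
open Classical in
noncomputable def lawOf (S : Finset (ℕ → V)) (h : List V) (x : V) : ℝ :=
  if cnt G S h = 0 then (if h.head? = some x then 1 else 0) else (cnt G S (x :: h) : ℝ) / cnt G S h

end Pool.Agent.H86.MT
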