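import Pool.Agent.H86.MT.Basic

/-!
MT-VAL. Elementary properties of the value `U` of the single cop.

All proofs are short inductions from the recursion `val` (Basic.lean).
* `val_nonneg`, `val_le_one`: induction on the number of steps `k`, `star_le`, `le_star`.
* `val_self`: for `k + 1`: along the steps `x'` of positive probability `x' ∈ N[x]` (`supp`), so
  `star (val k (x' :: x :: h)) x ≥ val k (x' :: x :: h) x' = 1`; use `sum_one`.
* `U_succ`: `N - h.length = (N - (x :: h).length) + 1` when `h.length < N`.
* `U_near`: induction on `m`, generalising `h` and `y`: `U h y = ∑ p star (U (x :: h)) y ≥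
  ∑ p U (x :: h) y'` with `y'` the next vertex of the path from `y` to `z`.
* `F_U_le_v`: average of `U_near` over `y`.
* `cc_eq`: `v h - F 1 v h = F 1 (avg (star (U s) - U s)) h`.
* `F_v_le`: induction from `cc_nonneg`, `F_comp`.
* `sum_cc`: telescoping of `E l cc = E l v - E (l+1) v` (`E_comp`).
-/

set_option autoImplicit false
set_option linter.unusedSectionVars false

open N6ef48c04

namespace Pool.Agent.H86.MT

variable {V : Type} [Fintype V] [Nonempty V] {G : SimpleGraph V} {p : List V → V → ℝ} {N : ℕ}

/-- `z` can be reached from `y` in exactly `m` (possibly idle) steps -/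
def Near (G : SimpleGraph V) : ℕ → V → V → Prop
  | 0, y, z => y = z
  | m + 1, y, z => ∃ y', Step G y y' ∧ Near G m y' z

theorem avg_mono {f g : V → ℝ} (h : ∀ y, f y ≤ g y) : avg f ≤ avg g := by
  unfold avg
  exact div_le_div_of_nonneg_right (Finset.sum_le_sum fun y _ => h y) (Nat.cast_nonneg _)

theorem avg_nonneg {f : V → ℝ} (h : ∀ y, 0 ≤ f y) : 0 ≤ avg f := by
  unfold avg
  exact div_nonneg (Finset.sum_nonneg fun y _ => h y) (Nat.cast_nonneg _)

theorem avg_const (a : ℝ) : avg (fun _ : V => a) = a := by
  unfold avg
  have : (Fintype.card V : ℝ) ≠ 0 := Nat.cast_ne_zero.2 Fintype.card_ne_zero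
  simp only [Finset.sum_const, Finset.card_univ, nsmul_eq_mul]
  field_simp

theorem avg_add (f g : V → ℝ) : avg (fun y => f y + g y) = avg f + avg g := by
  unfold avg
  rw [Finset.sum_add_distrib, add_div]

theorem avg_sub (f g : V → ℝ) : avg (fun y => f y - g y) = avg f - avg g := by
  unfold avg
  rw [Finset.sum_sub_distrib, sub_div]

theorem avg_F (k : ℕ) (f : List V → V → ℝ) (h : List V) :
    avg (fun y => F p k (fun s => f s y) h) = F p k (fun s => avg (f s)) h := by
  unfold avg
  rw [← F_sum]
  have := F_mul_right (p := p) k ((Fintype.card V : ℝ)⁻¹) (fun s => ∑ y, f s y) h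
  simp only [div_eq_mul_inv]
  rw [this]

theorem val_nonneg (hL : IsLaw G p) (k : ℕ) (h : List V) (y : V) : 0 ≤ val G p k h y := by
  induction k generalizing h y with
  | zero => unfold val; split_ifs <;> norm_num
  | succ k ih =>
    unfold val
    exact Finset.sum_nonneg fun x _ => mul_nonneg (hL.nonneg _ _)
      ((ih (x :: h) y).trans (le_star_self G _ y))

theorem val_le_one (hL : IsLaw G p) (k : ℕ) (h : List V) (y : V) : val G p k h y ≤ 1 := by
  induction k generalizing h y with
  | zero => unfold val; split_ifs <;> norm_num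
  | succ k ih =>
    unfold val
    calc ∑ x, p h x * star G (val G p k (x :: h)) y ≤ ∑ x, p h x * 1 :=
          Finset.sum_le_sum fun x _ => mul_le_mul_of_nonneg_left
            (star_le G _ fun z _ => ih (x :: h) z) (hL.nonneg _ _)
      _ = 1 := by simp [hL.sum_one]

theorem val_self (hL : IsLaw G p) (k : ℕ) (x : V) (h : List V) : val G p k (x :: h) x = 1 := by
  induction k generalizing h x with
  | zero => simp [val]
  | succ k ih =>
    refine le_antisymm (val_le_one hL _ _ _) ?_
    unfold val
    calc (1 : ℝ) = ∑ x', p (x :: h) x' * 1 := by simp [hL.sum_one]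
      _ ≤ ∑ x', p (x :: h) x' * star G (val G p k (x' :: x :: h)) x := by
          refine Finset.sum_le_sum fun x' _ => ?_
          by_cases h0 : p (x :: h) x' = 0
          · rw [h0, zero_mul, zero_mul]
          · refine mul_le_mul_of_nonneg_left ?_ (hL.nonneg _ _)
            rw [← ih x' (x :: h)]
            exact le_star G _ ((mem_nb G).2 (hL.supp x h x' h0))

theorem U_nonneg (hL : IsLaw G p) (h : List V) (y : V) : 0 ≤ U G p N h y := val_nonneg hL _ _ _

theorem U_le_one (hL : IsLaw G p) (h : List V) (y : V) : U G p N h y ≤ 1 := val_le_one hL _ _ _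

theorem U_self (hL : IsLaw G p) (x : V) (h : List V) : U G p N (x :: h) x = 1 := val_self hL _ _ _

theorem U_succ {h : List V} (hh : h.length < N) (y : V) :
    U G p N h y = F p 1 (fun s => star G (U G p N s) y) h := by
  rw [F_one]
  unfold U
  have : N - h.length = (N - (h.length + 1)) + 1 := by omega
  rw [this]
  simp only [val, List.length_cons]

/-- (1.2) -/
theorem U_near (hL : IsLaw G p) {m : ℕ} {h : List V} (hh : h.length + m ≤ N) {y z : V}
    (hyz : Near G m y z) : F p m (fun s => U G p N s z) h ≤ U G p N h y := by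
  induction m generalizing h y with
  | zero =>
    have : y = z := hyz
    rw [this]
    exact le_rfl
  | succ m ih =>
    obtain ⟨y', h1, h2⟩ := hyz
    rw [U_succ (by omega), F_succ, F_one]
    refine Finset.sum_le_sum fun x _ => mul_le_mul_of_nonneg_left ?_ (hL.nonneg _ _)
    exact (ih (h := x :: h) (by simp only [List.length_cons]; omega) h2).trans
      (le_star G _ ((mem_nb G).2 h1))

/-- (1.7) -/
theorem F_U_le_v (hL : IsLaw G p) {D : ℕ} (hD : ∀ y z, Near G D y z) {h : List V}
    (hh : h.length + D ≤ N) (z : V) : F p D (fun s => U G p N s z) h ≤ v G p N h := by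
  unfold v
  calc F p D (fun s => U G p N s z) h = avg (fun _ : V => F p D (fun s => U G p N s z) h) :=
        (avg_const _).symm
    _ ≤ _ := avg_mono fun y => U_near hL hh (hD y z)

theorem v_nonneg (hL : IsLaw G p) (h : List V) : 0 ≤ v G p N h :=
  avg_nonneg fun y => U_nonneg hL h y

theorem v_le_one (hL : IsLaw G p) (h : List V) : v G p N h ≤ 1 := by
  unfold v
  calc avg (U G p N h) ≤ avg (fun _ : V => (1 : ℝ)) := avg_mono fun y => U_le_one hL h y
    _ = 1 := avg_const _

theorem cc_eq {h : List V} (hh : h.length < N) :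
    cc G p N h = F p 1 (fun s => avg (fun y => star G (U G p N s) y - U G p N s y)) h := by
  have h1 : ∀ s, avg (fun y => star G (U G p N s) y - U G p N s y) =
      avg (fun y => star G (U G p N s) y) - v G p N s := fun s => avg_sub _ _
  simp only [h1]
  rw [F_sub]
  unfold cc
  congr 1
  rw [← avg_F]
  unfold v
  congr 1
  funext y
  exact U_succ hh y

theorem cc_nonneg (hL : IsLaw G p) {h : List V} (hh : h.length < N) : 0 ≤ cc G p N h := by
  rw [cc_eq hh]
  refine F_nonneg hL.nonneg fun s _ => avg_nonneg fun y => ?_
  have := le_star_self G (U G p N s) y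
  linarith

/-- (1.6) -/
theorem F_v_le (hL : IsLaw G p) (m : ℕ) {h : List V} (hh : h.length + m ≤ N) :
    F p m (v G p N) h ≤ v G p N h := by
  induction m generalizing h with
  | zero => exact le_rfl
  | succ m ih =>
    rw [F_succ]
    have h1 := cc_nonneg (N := N) hL (h := h) (by omega)
    unfold cc at h1
    rw [F_one] at h1
    refine le_trans (Finset.sum_le_sum fun x _ => mul_le_mul_of_nonneg_left
      (ih (h := x :: h) (by simp only [List.length_cons]; omega)) (hL.nonneg _ _)) ?_
    linarith

theorem E_v_le (hL : IsLaw G p) {l : ℕ} (hl : l ≤ N) : E p l (v G p N) ≤ v G p N [] :=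
  F_v_le hL l (h := []) (by simpa using hl)

theorem sum_cc (hL : IsLaw G p) : ∑ l ∈ Finset.range N, E p l (cc G p N) ≤ v G p N [] := by
  have key : ∀ m ≤ N, ∑ l ∈ Finset.range m, E p l (cc G p N) = v G p N [] - E p m (v G p N) := by
    intro m
    induction m with
    | zero => intro _; simp [E, F]
    | succ m ih =>
      intro hm
      rw [Finset.sum_range_succ, ih (by omega)]
      have : E p m (cc G p N) = E p m (v G p N) - E p (m + 1) (v G p N) := by
        unfold cc
        rw [E_comp]
        exact F_sub _ _ _ _
      rw [this]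
      ring
  rw [key N le_rfl]
  have : 0 ≤ E p N (v G p N) := F_nonneg hL.nonneg fun s _ => v_nonneg hL s
  linarith

theorem phi_le_one (hL : IsLaw G p) (h : List V) (y : V) : phi G p N h y ≤ 1 := by
  unfold phi
  have := U_le_one (N := N) hL h y
  have := v_nonneg (N := N) hL h
  linarith

theorem neg_v_le_phi (hL : IsLaw G p) (h : List V) (y : V) : -v G p N h ≤ phi G p N h y := by
  unfold phi
  have := U_nonneg (N := N) hL h y
  linarith

theorem php_nonneg (h : List V) (y : V) : 0 ≤ php G p N h y := le_max_right _ _

theorem phm_nonneg (h : List V) (y : V) : 0 ≤ phm G p N h y := le_max_right _ _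

theorem phi_eq (h : List V) (y : V) : phi G p N h y = php G p N h y - phm G p N h y := by
  unfold php phm
  rcases le_total (phi G p N h y) 0 with h1 | h1
  · rw [max_eq_right h1, max_eq_left (by linarith)]
    ring
  · rw [max_eq_left h1, max_eq_right (by linarith)]
    ring

theorem abs_phi (h : List V) (y : V) : |phi G p N h y| = php G p N h y + phm G p N h y := by
  unfold php phm
  rcases le_total (phi G p N h y) 0 with h1 | h1
  · rw [max_eq_right h1, max_eq_left (by linarith), abs_of_nonpos h1]
    ring
  · rw [max_eq_left h1, max_eq_right (by linarith), abs_of_nonneg h1]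
    ring

theorem php_le_U (hL : IsLaw G p) (h : List V) (y : V) : php G p N h y ≤ U G p N h y := by
  refine max_le ?_ (U_nonneg hL h y)
  unfold phi
  have := v_nonneg (N := N) hL h
  linarith

theorem php_le_one (hL : IsLaw G p) (h : List V) (y : V) : php G p N h y ≤ 1 :=
  (php_le_U hL h y).trans (U_le_one hL h y)

theorem phm_le_v (hL : IsLaw G p) (h : List V) (y : V) : phm G p N h y ≤ v G p N h := by
  refine max_le ?_ (v_nonneg hL h)
  have := neg_v_le_phi (N := N) hL h y
  linarith

theorem phm_le_one (hL : IsLaw G p) (h : List V) (y : V) : phm G p N h y ≤ 1 :=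
  (phm_le_v hL h y).trans (v_le_one hL h)

theorem abs_phi_le_one (hL : IsLaw G p) (h : List V) (y : V) : |phi G p N h y| ≤ 1 := by
  rw [abs_le]
  refine ⟨?_, phi_le_one hL h y⟩
  have := neg_v_le_phi (N := N) hL h y
  have := v_le_one (N := N) hL h
  linarith

end Pool.Agent.H86.MT
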